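import Mathlib

/-!
# Identities in algebras generated by elements with q-Serre relations
-/

namespace Pool.Agent.H387.QT

variable {R : Type*} [Ring R] [Algebra ℂ R]

/-- The `q`-bracket `-(x y - q⁻¹ y x)`. -/
noncomputable def qb (q : ℂ) (x y : R) : R := -(x * y - q⁻¹ • (y * x))

/-- The quantum Serre relation (`x` twice, `y` once). -/
def Serre (q : ℂ) (x y : R) : Prop :=
  x * x * y - (q + q⁻¹) • (x * y * x) + y * x * x = 0

theorem Serre.inv {q : ℂ} {x y : R} (h : Serre q x y) : Serre q⁻¹ x y := by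
  unfold Serre at *
  rw [inv_inv, add_comm q⁻¹ q]
  exact h

theorem serre_left {q : ℂ} (hq : q ≠ 0) {e a : R} (h : Serre q e a) :
    e * qb q e a = q • (qb q e a * e) := by
  have key : e * qb q e a - q • (qb q e a * e)
      = -(e * e * a - (q + q⁻¹) • (e * a * e) + a * e * e) := by
    simp only [qb, mul_sub, sub_mul, mul_neg, neg_mul, mul_smul_comm, smul_mul_assoc, smul_sub,
      smul_neg, smul_smul, mul_assoc]
    match_scalars <;> field_simp <;> ring
  rw [h, neg_zero] at key
  exact sub_eq_zero.mp key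

theorem serre_right {q : ℂ} (hq : q ≠ 0) {e a : R} (h : Serre q a e) :
    qb q e a * a = q • (a * qb q e a) := by
  have key : qb q e a * a - q • (a * qb q e a)
      = -(a * a * e - (q + q⁻¹) • (a * e * a) + e * a * a) := by
    simp only [qb, mul_sub, sub_mul, mul_neg, neg_mul, mul_smul_comm, smul_mul_assoc, smul_sub,
      smul_neg, smul_smul, mul_assoc]
    match_scalars <;> field_simp <;> ring
  rw [h, neg_zero] at key
  exact sub_eq_zero.mp key

theorem serre_of_left {q : ℂ} (hq : q ≠ 0) {e a : R}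
    (h : e * qb q e a = q • (qb q e a * e)) : Serre q e a := by
  have key : e * qb q e a - q • (qb q e a * e)
      = -(e * e * a - (q + q⁻¹) • (e * a * e) + a * e * e) := by
    simp only [qb, mul_sub, sub_mul, mul_neg, neg_mul, mul_smul_comm, smul_mul_assoc, smul_sub,
      smul_neg, smul_smul, mul_assoc]
    match_scalars <;> field_simp <;> ring
  rw [h, sub_self] at key
  exact neg_eq_zero.mp key.symm

theorem serre_of_right {q : ℂ} (hq : q ≠ 0) {e a : R}
    (h : qb q e a * a = q • (a * qb q e a)) : Serre q a e := by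
  have key : qb q e a * a - q • (a * qb q e a)
      = -(a * a * e - (q + q⁻¹) • (a * e * a) + e * a * a) := by
    simp only [qb, mul_sub, sub_mul, mul_neg, neg_mul, mul_smul_comm, smul_mul_assoc, smul_sub,
      smul_neg, smul_smul, mul_assoc]
    match_scalars <;> field_simp <;> ring
  rw [h, sub_self] at key
  exact neg_eq_zero.mp key.symm

/-- two brackets with a common neighbour commute -/
theorem qb_comm {q : ℂ} (hq : q ≠ 0) (hq2 : q + q⁻¹ ≠ 0) {e a b : R} (ha : Serre q e a)
    (hb : Serre q e b) (hab : a * b = b * a) :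
    qb q e a * qb q e b = qb q e b * qb q e a := by
  unfold Serre at ha hb
  have hq3 : q ^ 2 + 1 ≠ 0 := by
    intro h; apply hq2; field_simp; linear_combination h
  have e1 : e * a * e = (q + q⁻¹)⁻¹ • (e * e * a + a * e * e) := by
    rw [eq_inv_smul_iff₀ hq2]
    rw [← sub_eq_zero, ← neg_eq_zero, ← ha]; abel
  have e2 : e * b * e = (q + q⁻¹)⁻¹ • (e * e * b + b * e * e) := by
    rw [eq_inv_smul_iff₀ hq2]
    rw [← sub_eq_zero, ← neg_eq_zero, ← hb]; abel
  have key : qb q e a * qb q e b - qb q e b * qb q e a =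
      (e * a * e) * b - (e * b * e) * a
      + (q⁻¹ * q⁻¹) • (a * (e * b * e) - b * (e * a * e))
      - q⁻¹ • (e * (a * b - b * a) * e)
      - q⁻¹ • (a * (e * e) * b) + q⁻¹ • (b * (e * e) * a) := by
    simp only [qb, mul_sub, sub_mul, mul_neg, neg_mul, mul_smul_comm, smul_mul_assoc,
      smul_sub, smul_neg, smul_smul, mul_assoc]
    match_scalars <;> ring
  rw [e1, e2, hab, sub_self, mul_zero, zero_mul, smul_zero, sub_zero] at key
  rw [← sub_eq_zero, key]
  have h1 : e * (e * (a * b)) = e * (e * (b * a)) := by rw [hab]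
  have h2 : a * (b * (e * e)) = b * (a * (e * e)) := by
    rw [← mul_assoc, hab, mul_assoc]
  simp only [mul_add, add_mul, mul_smul_comm, smul_mul_assoc,
      smul_sub, smul_add, smul_smul, mul_assoc, h1, h2]
  match_scalars <;> field_simp <;> ring

/-- the middle generator commutes with the bracket of three consecutive generators -/
theorem mid_comm {q : ℂ} (hq : q ≠ 0) (hq2 : q + q⁻¹ ≠ 0) {e a b : R} (ha : Serre q a e)
    (hb : Serre q a b) (heb : e * b = b * e) :
    a * qb q (qb q e a) b = qb q (qb q e a) b * a := by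
  unfold Serre at ha hb
  have hq3 : q ^ 2 + 1 ≠ 0 := by
    intro h; apply hq2; field_simp; linear_combination h
  have e1 : a * e * a = (q + q⁻¹)⁻¹ • (a * a * e + e * a * a) := by
    rw [eq_inv_smul_iff₀ hq2]
    rw [← sub_eq_zero, ← neg_eq_zero, ← ha]; abel
  have e2 : a * b * a = (q + q⁻¹)⁻¹ • (a * a * b + b * a * a) := by
    rw [eq_inv_smul_iff₀ hq2]
    rw [← sub_eq_zero, ← neg_eq_zero, ← hb]; abel
  have key : a * qb q (qb q e a) b - qb q (qb q e a) b * a =
      (a * e * a) * b - q⁻¹ • (a * a * (e * b)) - q⁻¹ • (a * (b * e) * a)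
      + (q⁻¹ * q⁻¹) • ((a * b * a) * e)
      - e * (a * b * a) + q⁻¹ • (a * (e * b) * a) + q⁻¹ • ((b * e) * a * a)
      - (q⁻¹ * q⁻¹) • (b * (a * e * a)) := by
    simp only [qb, mul_sub, sub_mul, mul_neg, neg_mul, mul_smul_comm, smul_mul_assoc,
      smul_sub, smul_neg, smul_smul, mul_assoc]
    match_scalars <;> ring
  rw [e1, e2, heb] at key
  rw [← sub_eq_zero, key]
  have h1 : a * (a * (e * b)) = a * (a * (b * e)) := by rw [heb]
  have h2 : e * (b * (a * a)) = b * (e * (a * a)) := by
    rw [← mul_assoc, heb, mul_assoc]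
  simp only [mul_add, add_mul, mul_smul_comm, smul_mul_assoc,
      smul_add, smul_smul, mul_assoc, h1, h2]
  match_scalars <;> field_simp <;> ring

/-- Serre relations for `[e, a]` and `b`. -/
theorem serre_qb_right {q : ℂ} {e a b : R} (h : Serre q b a) (heb : e * b = b * e) :
    Serre q b (qb q e a) := by
  unfold Serre at *
  have key : b * b * qb q e a - (q + q⁻¹) • (b * qb q e a * b) + qb q e a * b * b =
      -(e * (b * b * a - (q + q⁻¹) • (b * a * b) + a * b * b)
        - q⁻¹ • ((b * b * a - (q + q⁻¹) • (b * a * b) + a * b * b) * e)) := by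
    have h1 : ∀ x : R, b * (e * x) = e * (b * x) := fun x => by
      rw [← mul_assoc, ← heb, mul_assoc]
    have h2 : b * e = e * b := heb.symm
    simp only [qb, mul_sub, sub_mul, mul_neg, neg_mul, mul_add, add_mul, mul_smul_comm,
      smul_mul_assoc, smul_sub, smul_neg, smul_add, smul_smul, mul_assoc, h1, h2]
    match_scalars <;> ring
  rw [key, h]
  simp

theorem serre_qb_left {q : ℂ} (hq : q ≠ 0) (hq2 : q + q⁻¹ ≠ 0) {e a b : R} (hea : Serre q e a)
    (hae : Serre q a e) (hab : Serre q a b) (heb : e * b = b * e) :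
    Serre q (qb q e a) b := by
  apply serre_of_left hq
  have hA := mid_comm hq hq2 hae hab heb
  have hx : e * qb q e a = q • (qb q e a * e) := serre_left hq hea
  set y := qb q (qb q e a) b with hy
  have hB : e * y = q • (y * e) := by
    have h1 : e * (qb q e a * b) = q • (qb q e a * b * e) := by
      rw [← mul_assoc, hx, smul_mul_assoc, mul_assoc, heb, mul_assoc]
    have h2 : e * (b * qb q e a) = q • (b * qb q e a * e) := by
      rw [← mul_assoc, heb, mul_assoc, hx, mul_smul_comm, mul_assoc]
    rw [hy]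
    conv_lhs => rw [qb]
    conv_rhs => rw [qb]
    rw [mul_neg, mul_sub, mul_smul_comm, h1, h2, neg_mul, sub_mul, smul_mul_assoc, smul_neg,
      smul_sub, smul_comm q q⁻¹]
  have e1 : e * (a * y) = q • (y * (e * a)) := by
    rw [hA, ← mul_assoc, hB, smul_mul_assoc, mul_assoc]
  have e2 : a * (e * y) = q • (y * (a * e)) := by
    rw [hB, mul_smul_comm, ← mul_assoc, hA, mul_assoc]
  have hqb : qb q e a = -(e * a - q⁻¹ • (a * e)) := rfl
  rw [hqb, neg_mul, sub_mul, smul_mul_assoc, mul_assoc, mul_assoc, e1, e2, mul_neg, mul_sub,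
    mul_smul_comm, smul_neg, smul_sub, smul_comm q q⁻¹]

end Pool.Agent.H387.QT
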