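import Pool.Agent.H387.QT.Abs

/-!
# The identities for the opposite multiplication
-/

open MulOpposite

namespace Pool.Agent.H387.QT

variable {R : Type*} [Ring R] [Algebra ℂ R]

theorem op_qb (p : ℂ) (x y : R) : op (qb p x y) = qb p (op y) (op x) := by
  simp only [qb, op_neg, op_sub, op_mul, op_smul]

theorem serre_op {p : ℂ} {x y : R} (h : Serre p x y) : Serre p (op x) (op y) := by
  unfold Serre at *
  have := congrArg op h
  simp only [op_add, op_sub, op_mul, op_smul, op_zero, ← mul_assoc] at this
  rw [← this]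
  abel

theorem serre_unop {p : ℂ} {x y : R} (h : Serre p (op x) (op y)) : Serre p x y := by
  unfold Serre at *
  have := congrArg unop h
  simp only [unop_add, unop_sub, unop_mul, unop_smul, unop_zero, unop_op, ← mul_assoc] at this
  rw [← this]
  abel

theorem qb_comm' {p : ℂ} (hp : p ≠ 0) (hp2 : p + p⁻¹ ≠ 0) {e a b : R} (ha : Serre p e a)
    (hb : Serre p e b) (hab : a * b = b * a) :
    qb p a e * qb p b e = qb p b e * qb p a e := by
  apply op_injective
  rw [op_mul, op_mul, op_qb, op_qb]
  refine (qb_comm hp hp2 (serre_op ha) (serre_op hb) ?_).symm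
  rw [← op_mul, ← op_mul, hab]

theorem serre_qb_right' {p : ℂ} {e a b : R} (h : Serre p b a) (heb : e * b = b * e) :
    Serre p b (qb p a e) := by
  apply serre_unop
  rw [op_qb]
  exact serre_qb_right (serre_op h) (by rw [← op_mul, ← op_mul, heb])

theorem serre_qb_left' {p : ℂ} (hp : p ≠ 0) (hp2 : p + p⁻¹ ≠ 0) {e a b : R} (hea : Serre p e a)
    (hae : Serre p a e) (hab : Serre p a b) (heb : e * b = b * e) :
    Serre p (qb p a e) b := by
  apply serre_unop
  rw [op_qb]
  exact serre_qb_left hp hp2 (serre_op hea) (serre_op hae) (serre_op hab)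
    (by rw [← op_mul, ← op_mul, heb])

end Pool.Agent.H387.QT
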