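import Pool.Agent.H387.QT.Cartan
import Pool.Agent.H387.QT.Mirror

/-!
# Lusztig's automorphisms
-/

namespace Pool.Agent.H387.QT

variable {n : ℕ} {A : Type*} [Ring A] [Algebra ℂ A] {q : ℂ} {e f k l : Fin n → A}

/-- `u` is a weight vector: `K_j u = q ^ γ_j u K_j`. -/
def Wt (k : Fin n → A) (q : ℂ) (u : A) (γ : Fin n → ℤ) : Prop :=
  ∀ j, k j * u = q ^ γ j • (u * k j)

theorem Wt.mul {u v : A} {γ δ : Fin n → ℤ} (hq : q ≠ 0) (hu : Wt k q u γ) (hv : Wt k q v δ) :
    Wt k q (u * v) (γ + δ) := by
  intro j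
  rw [← mul_assoc, hu j, smul_mul_assoc, mul_assoc, hv j, mul_smul_comm, smul_smul, mul_assoc,
    Pi.add_apply, zpow_add₀ hq]

theorem Wt.smul {u : A} {γ : Fin n → ℤ} (c : ℂ) (hu : Wt k q u γ) : Wt k q (c • u) γ := by
  intro j
  rw [mul_smul_comm, hu j, smul_mul_assoc, smul_comm]

theorem Wt.add {u v : A} {γ : Fin n → ℤ} (hu : Wt k q u γ) (hv : Wt k q v γ) :
    Wt k q (u + v) γ := by
  intro j
  rw [mul_add, hu j, hv j, add_mul, smul_add]

theorem Wt.neg {u : A} {γ : Fin n → ℤ} (hu : Wt k q u γ) : Wt k q (-u) γ := by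
  intro j
  rw [mul_neg, hu j, neg_mul, smul_neg]

theorem Wt.sub {u v : A} {γ : Fin n → ℤ} (hu : Wt k q u γ) (hv : Wt k q v γ) :
    Wt k q (u - v) γ := by
  rw [sub_eq_add_neg]
  exact hu.add hv.neg

theorem Wt.one : Wt k q (1 : A) 0 := fun j => by simp

theorem Wt.zero (γ : Fin n → ℤ) : Wt k q (0 : A) γ := fun j => by simp

theorem Wt.qb {u v : A} {γ δ : Fin n → ℤ} (hq : q ≠ 0) (p : ℂ) (hu : Wt k q u γ)
    (hv : Wt k q v δ) : Wt k q (qb p u v) (γ + δ) := by
  unfold QT.qb
  refine ((hu.mul hq hv).sub (Wt.smul _ ?_)).neg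
  rw [add_comm]
  exact hv.mul hq hu

namespace IsRep

variable (h : IsRep q e f k l)
include h

theorem kl_comm (i j : Fin n) : k i * l j = l j * k i := by
  calc k i * l j = (l j * k j) * (k i * l j) := by rw [h.lk, one_mul]
    _ = l j * (k j * k i) * l j := by simp only [mul_assoc]
    _ = l j * (k i * k j) * l j := by rw [h.kk]
    _ = (l j * k i) * (k j * l j) := by simp only [mul_assoc]
    _ = l j * k i := by rw [h.kl, mul_one]

theorem ll (i j : Fin n) : l i * l j = l j * l i := by
  calc l i * l j = l i * (l j * (k i * l i)) := by rw [h.kl, mul_one]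
    _ = l i * ((l j * k i) * l i) := by simp only [mul_assoc]
    _ = l i * ((k i * l j) * l i) := by rw [h.kl_comm]
    _ = (l i * k i) * (l j * l i) := by simp only [mul_assoc]
    _ = l j * l i := by rw [h.lk, one_mul]

theorem wt_l {u : A} {γ : Fin n → ℤ} (hq : q ≠ 0) (hu : Wt k q u γ) (j : Fin n) :
    l j * u = q ^ (-γ j) • (u * l j) := by
  have h1 : u * k j = q ^ (-γ j) • (k j * u) := by
    rw [hu j, smul_smul, ← zpow_add₀ hq, neg_add_cancel, zpow_zero, one_smul]
  calc l j * u = l j * (u * k j) * l j := by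
        rw [mul_assoc, mul_assoc, h.kl, mul_one]
    _ = q ^ (-γ j) • (l j * (k j * u) * l j) := by
        rw [h1, mul_smul_comm, smul_mul_assoc]
    _ = q ^ (-γ j) • (u * l j) := by
        rw [← mul_assoc, h.lk, one_mul]

theorem wt_e (i : Fin n) : Wt k q (e i) (fun j => cartan j i) := fun j => h.ke j i

theorem wt_f (i : Fin n) : Wt k q (f i) (fun j => -cartan j i) := fun j => h.kf j i

theorem wt_k (i : Fin n) : Wt k q (k i) 0 := fun j => by simp [h.kk j i]

theorem wt_lw (i : Fin n) : Wt k q (l i) 0 := fun j => by simp [h.kl_comm j i]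

end IsRep

/-- Image of `E_j` under `T_i`. -/
noncomputable def TE (q : ℂ) (e f k : Fin n → A) (i j : Fin n) : A :=
  if j = i then -(f i * k i) else if cartan i j = -1 then qb q (e i) (e j) else e j

/-- Image of `F_j` under `T_i`. -/
noncomputable def TF (q : ℂ) (e f l : Fin n → A) (i j : Fin n) : A :=
  if j = i then -(l i * e i) else if cartan i j = -1 then qb q⁻¹ (f j) (f i) else f j

/-- Image of `K_j` under `T_i`. -/
noncomputable def TK (k l : Fin n → A) (i j : Fin n) : A :=
  if j = i then l i else if cartan i j = -1 then k j * k i else k j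

/-- Image of `K_j⁻¹` under `T_i`. -/
noncomputable def TL (k l : Fin n → A) (i j : Fin n) : A :=
  if j = i then k i else if cartan i j = -1 then l i * l j else l j

theorem TE_self (i : Fin n) : TE q e f k i i = -(f i * k i) := by simp [TE]
theorem TF_self (i : Fin n) : TF q e f l i i = -(l i * e i) := by simp [TF]
theorem TK_self (i : Fin n) : TK k l i i = l i := by simp [TK]
theorem TL_self (i : Fin n) : TL k l i i = k i := by simp [TL]

theorem TE_adj {i j : Fin n} (h : cartan i j = -1) : TE q e f k i j = qb q (e i) (e j) := by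
  rw [TE, if_neg (cartan_ne h).symm, if_pos h]
theorem TF_adj {i j : Fin n} (h : cartan i j = -1) : TF q e f l i j = qb q⁻¹ (f j) (f i) := by
  rw [TF, if_neg (cartan_ne h).symm, if_pos h]
theorem TK_adj {i j : Fin n} (h : cartan i j = -1) : TK k l i j = k j * k i := by
  rw [TK, if_neg (cartan_ne h).symm, if_pos h]
theorem TL_adj {i j : Fin n} (h : cartan i j = -1) : TL k l i j = l i * l j := by
  rw [TL, if_neg (cartan_ne h).symm, if_pos h]

theorem TE_far {i j : Fin n} (h : cartan i j = 0) : TE q e f k i j = e j := by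
  rw [TE, if_neg (cartan_ne0 h).symm, if_neg (by rw [h]; decide)]
theorem TF_far {i j : Fin n} (h : cartan i j = 0) : TF q e f l i j = f j := by
  rw [TF, if_neg (cartan_ne0 h).symm, if_neg (by rw [h]; decide)]
theorem TK_far {i j : Fin n} (h : cartan i j = 0) : TK k l i j = k j := by
  rw [TK, if_neg (cartan_ne0 h).symm, if_neg (by rw [h]; decide)]
theorem TL_far {i j : Fin n} (h : cartan i j = 0) : TL k l i j = l j := by
  rw [TL, if_neg (cartan_ne0 h).symm, if_neg (by rw [h]; decide)]

namespace IsRep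

variable (h : IsRep q e f k l)
include h

theorem tk_wt (hq : q ≠ 0) {u : A} {γ : Fin n → ℤ} (hu : Wt k q u γ) (i j : Fin n) :
    TK k l i j * u = q ^ (γ j - cartan i j * γ i) • (u * TK k l i j) := by
  rcases cartan_cases i j with rfl | hj | hj
  · rw [TK_self, h.wt_l hq hu, cartan_self]
    congr 2; ring
  · rw [TK_adj hj, hj, mul_assoc, hu i, mul_smul_comm, ← mul_assoc, hu j, smul_mul_assoc,
      smul_smul, ← zpow_add₀ hq, mul_assoc]
    congr 2; ring
  · rw [TK_far hj, hu j, hj]
    congr 2; ring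

theorem te_wt (hq : q ≠ 0) (i j : Fin n) :
    Wt k q (TE q e f k i j) (fun m => cartan m j - cartan i j * cartan m i) := by
  rcases cartan_cases i j with rfl | hj | hj
  · rw [TE_self]
    have := ((h.wt_f j).mul hq (h.wt_k j)).neg
    convert this using 1
    ext m
    simp [cartan_self]; ring
  · rw [TE_adj hj]
    have := (h.wt_e i).qb hq q (h.wt_e j)
    convert this using 1
    ext m
    simp [hj]; ring
  · rw [TE_far hj]
    have := h.wt_e j
    convert this using 1
    ext m
    simp [hj]

theorem tf_wt (hq : q ≠ 0) (i j : Fin n) :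
    Wt k q (TF q e f l i j) (fun m => -(cartan m j - cartan i j * cartan m i)) := by
  rcases cartan_cases i j with rfl | hj | hj
  · rw [TF_self]
    have := ((h.wt_lw j).mul hq (h.wt_e j)).neg
    convert this using 1
    ext m
    simp [cartan_self]; ring
  · rw [TF_adj hj]
    have := (h.wt_f j).qb hq q⁻¹ (h.wt_f i)
    convert this using 1
    ext m
    simp [hj]; ring
  · rw [TF_far hj]
    have := h.wt_f j
    convert this using 1
    ext m
    simp [hj]

theorem e_comm_f {i j : Fin n} (hij : i ≠ j) : e i * f j = f j * e i := by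
  have := h.ef i j
  rw [if_neg hij] at this
  exact sub_eq_zero.mp this

theorem k_comm_e {i j : Fin n} (hij : cartan i j = 0) : k i * e j = e j * k i := by
  rw [h.ke, hij, zpow_zero, one_smul]

theorem k_comm_f {i j : Fin n} (hij : cartan i j = 0) : k i * f j = f j * k i := by
  rw [h.kf, hij, neg_zero, zpow_zero, one_smul]

end IsRep

end Pool.Agent.H387.QT
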