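import Pool.Agent.H387.QT.Braid

/-!
# Lusztig's automorphisms: the relations between `E` and `F`
-/

namespace Pool.Agent.H387.QT

variable {n : ℕ} {A : Type*} [Ring A] [Algebra ℂ A] {q : ℂ} {e f k l : Fin n → A}

namespace IsRep

variable (h : IsRep q e f k l)
include h

theorem ef_self (i : Fin n) :
    e i * f i = f i * e i + (q - q⁻¹)⁻¹ • k i - (q - q⁻¹)⁻¹ • l i := by
  have := h.ef i i
  rw [if_pos rfl, smul_sub] at this
  rw [← sub_eq_zero] at this ⊢
  rw [← this]; abel

theorem k_e_adj {i j : Fin n} (hij : cartan i j = -1) : k i * e j = q⁻¹ • (e j * k i) := by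
  rw [h.ke, hij, zpow_neg_one]

theorem k_f_adj {i j : Fin n} (hij : cartan i j = -1) : k i * f j = q • (f j * k i) := by
  rw [h.kf, hij, neg_neg, zpow_one]

theorem l_e_adj (hq : q ≠ 0) {i j : Fin n} (hij : cartan i j = -1) :
    l i * e j = q • (e j * l i) := by
  rw [h.wt_l hq (h.wt_e j), hij, neg_neg, zpow_one]

theorem l_f_adj (hq : q ≠ 0) {i j : Fin n} (hij : cartan i j = -1) :
    l i * f j = q⁻¹ • (f j * l i) := by
  rw [h.wt_l hq (h.wt_f j), hij, neg_neg, zpow_neg_one]

theorem k_e_self (i : Fin n) : k i * e i = (q * q) • (e i * k i) := by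
  rw [h.ke, cartan_self]; congr 1; rw [zpow_two]

theorem k_f_self (i : Fin n) : k i * f i = (q⁻¹ * q⁻¹) • (f i * k i) := by
  rw [h.kf, cartan_self]; congr 1; rw [zpow_neg, zpow_two, mul_inv]

theorem l_e_self (hq : q ≠ 0) (i : Fin n) : l i * e i = (q⁻¹ * q⁻¹) • (e i * l i) := by
  rw [h.wt_l hq (h.wt_e i), cartan_self]; congr 1; rw [zpow_neg, zpow_two, mul_inv]

theorem l_f_self (hq : q ≠ 0) (i : Fin n) : l i * f i = (q * q) • (f i * l i) := by
  rw [h.wt_l hq (h.wt_f i), cartan_self, neg_neg]; congr 1; rw [zpow_two]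

/-- `[T_i E_j, F_i]` -/
theorem X_F (hq : q ≠ 0) (hq2 : q ^ 2 - 1 ≠ 0) {i j : Fin n} (hij : cartan i j = -1) :
    qb q (e i) (e j) * f i = f i * qb q (e i) (e j) + e j * l i := by
  have h1 := h.ef_self i
  have h2 : e j * f i = f i * e j := h.e_comm_f (cartan_ne hij).symm
  have h3 := h.k_e_adj hij
  have h4 := h.l_e_adj hq hij
  have hqq : q - q⁻¹ ≠ 0 := by
    intro h0; apply hq2; field_simp at h0; linear_combination h0
  have h2' : ∀ x, e j * (f i * x) = f i * (e j * x) := fun x => by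
    rw [← mul_assoc, h2, mul_assoc]
  simp only [qb, mul_sub, sub_mul, mul_add, mul_neg, neg_mul, mul_smul_comm, smul_mul_assoc,
    smul_sub, smul_neg, smul_add, smul_smul, mul_assoc, h2, h2', h1]
  simp only [← mul_assoc, h1, add_mul, sub_mul, smul_mul_assoc, h3, h4, smul_smul]
  simp only [mul_assoc]
  match_scalars <;> field_simp <;> ring

theorem X_f (hq : q ≠ 0) (hq2 : q ^ 2 - 1 ≠ 0) {i j : Fin n} (hij : cartan i j = -1) :
    qb q (e i) (e j) * f j = f j * qb q (e i) (e j) - q⁻¹ • (e i * k j) := by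
  have hji : cartan j i = -1 := by rw [cartan_comm]; exact hij
  have h1 := h.ef_self j
  have h2 : e i * f j = f j * e i := h.e_comm_f (cartan_ne hij)
  have h3 := h.k_e_adj hji
  have h4 := h.l_e_adj hq hji
  have hqq : q - q⁻¹ ≠ 0 := by
    intro h0; apply hq2; field_simp at h0; linear_combination h0
  have h2' : ∀ x, e i * (f j * x) = f j * (e i * x) := fun x => by
    rw [← mul_assoc, h2, mul_assoc]
  simp only [qb, mul_sub, sub_mul, mul_add, mul_neg, neg_mul, mul_smul_comm, smul_mul_assoc,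
    smul_sub, smul_neg, smul_add, smul_smul, mul_assoc, h2, h2', h1]
  simp only [← mul_assoc, h1, add_mul, sub_mul, smul_mul_assoc, h3, h4, smul_smul]
  simp only [mul_assoc]
  match_scalars <;> field_simp <;> ring

/-- `[T_i E_j, T_i E_i] = E_j` -/
theorem qb_X (hq : q ≠ 0) (hq2 : q ^ 2 - 1 ≠ 0) {i j : Fin n} (hij : cartan i j = -1) :
    qb q (qb q (e i) (e j)) (-(f i * k i)) = e j := by
  have hX := h.X_F hq hq2 hij
  have hw := ((h.wt_e i).qb hq q (h.wt_e j)) i
  simp only [Pi.add_apply, cartan_self, hij] at hw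
  norm_num at hw
  set X := qb q (e i) (e j)
  have e1 : f i * k i * X = q • (f i * X * k i) := by
    rw [mul_assoc, hw, mul_smul_comm, mul_assoc]
  have e2 : X * (f i * k i) = f i * X * k i + e j := by
    rw [← mul_assoc, hX, add_mul, mul_assoc (e j), h.lk, mul_one]
  rw [qb, mul_neg, neg_mul, e1, e2, smul_neg, smul_smul, inv_mul_cancel₀ hq, one_smul]
  abel

theorem ef_adj_self (hq : q ≠ 0) (hq2 : q ^ 2 - 1 ≠ 0) {i j : Fin n} (hij : cartan i j = -1) :
    qb q (e i) (e j) * qb q⁻¹ (f j) (f i) - qb q⁻¹ (f j) (f i) * qb q (e i) (e j)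
      = (q - q⁻¹)⁻¹ • (k j * k i - l i * l j) := by
  have hX := h.X_F hq hq2 hij
  have hY := h.X_f hq hq2 hij
  have hji : cartan j i = -1 := by rw [cartan_comm]; exact hij
  set X := qb q (e i) (e j)
  have h1 : l i * f j = q⁻¹ • (f j * l i) := h.l_f_adj hq hij
  have h2 : k j * f i = q • (f i * k j) := h.k_f_adj hji
  have h3 := h.ef_self i
  have h4 := h.ef_self j
  have h5 : k i * k j = k j * k i := h.kk i j
  have h6 : k i * l j = l j * k i := h.kl_comm i j
  have h7 : l i * k j = k j * l i := (h.kl_comm j i).symm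
  have h8 : l j * l i = l i * l j := h.ll j i
  have hqq : q - q⁻¹ ≠ 0 := by
    intro h0; apply hq2; field_simp at h0; linear_combination h0
  have key : X * (f j * f i) = f j * (f i * X) + f j * (e j * l i) - q⁻¹ • (e i * (k j * f i)) := by
    rw [← mul_assoc, hY, sub_mul, mul_assoc, hX, mul_add, smul_mul_assoc, mul_assoc]
  have key2 : X * (f i * f j) = f i * (f j * X) - q⁻¹ • (f i * (e i * k j)) + e j * (l i * f j) := by
    rw [← mul_assoc, hX, add_mul, mul_assoc, hY, mul_sub, mul_smul_comm, mul_assoc]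
  have key3 : X * qb q⁻¹ (f j) (f i) = -(f j * (f i * X) + f j * (e j * l i)
      - q⁻¹ • (e i * (k j * f i)) - q • (f i * (f j * X) - q⁻¹ • (f i * (e i * k j))
      + e j * (l i * f j))) := by
    rw [qb, inv_inv, mul_neg, mul_sub, mul_smul_comm, key, key2]
  rw [key3, h1, h2]
  simp only [qb, inv_inv, mul_sub, sub_mul, mul_neg, neg_mul, mul_smul_comm, smul_mul_assoc,
    smul_sub, smul_add, smul_smul, ← mul_assoc, h3, h4, add_mul]
  simp only [h6, h7, h8, h5]
  simp only [mul_assoc]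
  match_scalars <;> field_simp <;> ring

theorem ef_adj_adj (hq : q ≠ 0) (hq2 : q ^ 2 - 1 ≠ 0) {i j m : Fin n} (hij : cartan i j = -1)
    (him : cartan i m = -1) (hjm : j ≠ m) :
    qb q (e i) (e j) * qb q⁻¹ (f m) (f i) = qb q⁻¹ (f m) (f i) * qb q (e i) (e j) := by
  have hX := h.X_F hq hq2 hij
  have hm : e i * f m = f m * e i := h.e_comm_f (cartan_ne him)
  have hjm' : e j * f m = f m * e j := h.e_comm_f hjm
  have hXm : qb q (e i) (e j) * f m = f m * qb q (e i) (e j) := by
    have h1 : ∀ x, e i * (f m * x) = f m * (e i * x) := fun x => by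
      rw [← mul_assoc, hm, mul_assoc]
    have h2 : ∀ x, e j * (f m * x) = f m * (e j * x) := fun x => by
      rw [← mul_assoc, hjm', mul_assoc]
    simp only [qb, mul_sub, sub_mul, mul_neg, neg_mul, mul_smul_comm, smul_mul_assoc,
      mul_assoc, h1, h2, hm, hjm']
  set X := qb q (e i) (e j)
  have hl : l i * f m = q⁻¹ • (f m * l i) := h.l_f_adj hq him
  have key : X * (f m * f i) = f m * f i * X + f m * (e j * l i) := by
    rw [← mul_assoc, hXm, mul_assoc, hX, mul_add, ← mul_assoc, ← mul_assoc]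
  have key2 : X * (f i * f m) = f i * f m * X + q⁻¹ • (f m * (e j * l i)) := by
    rw [← mul_assoc, hX, add_mul, mul_assoc, hXm, mul_assoc, hl, mul_smul_comm, ← mul_assoc,
      ← mul_assoc, hjm']
    simp only [mul_assoc]
  rw [qb, inv_inv, mul_neg, neg_mul, mul_sub, sub_mul, mul_smul_comm, smul_mul_assoc, key, key2,
    smul_add, smul_smul, mul_inv_cancel₀ hq, one_smul]
  abel

theorem ef_adj_i (hq : q ≠ 0) {i j : Fin n} (hij : cartan i j = -1) :
    qb q (e i) (e j) * -(l i * e i) = -(l i * e i) * qb q (e i) (e j) := by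
  have hs := serre_left hq (h.se i j hij)
  have hw := h.wt_l hq ((h.wt_e i).qb hq q (h.wt_e j)) i
  simp only [Pi.add_apply, cartan_self, hij] at hw
  norm_num at hw
  set X := qb q (e i) (e j)
  rw [mul_neg, neg_mul, mul_assoc, hs, mul_smul_comm, ← mul_assoc, ← mul_assoc, hw,
    smul_mul_assoc, smul_smul, mul_inv_cancel₀ hq, one_smul]

theorem ef_i_adj (hq : q ≠ 0) {i j : Fin n} (hij : cartan i j = -1) :
    -(f i * k i) * qb q⁻¹ (f j) (f i) = qb q⁻¹ (f j) (f i) * -(f i * k i) := by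
  have hs := serre_right (inv_ne_zero hq) (h.sf i j hij).inv
  have hw := ((h.wt_f j).qb hq q⁻¹ (h.wt_f i)) i
  simp only [Pi.add_apply, cartan_self, hij] at hw
  norm_num at hw
  set Y := qb q⁻¹ (f j) (f i)
  rw [mul_neg, neg_mul, mul_assoc, hw, mul_smul_comm, ← mul_assoc, ← mul_assoc, hs,
    smul_mul_assoc]

end IsRep

end Pool.Agent.H387.QT
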