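import Pool.Agent.H387.QT.Braid2

/-!
# Lusztig's automorphisms `T_i` of `U_q(sl_{n+1})`
-/

namespace Pool.Agent.H387.QT

variable {n : ℕ} {A : Type*} [Ring A] [Algebra ℂ A] {q : ℂ} {e f k l : Fin n → A}

namespace IsRep

variable (h : IsRep q e f k l)
include h

theorem braid_kl (i j : Fin n) : TK k l i j * TL k l i j = 1 := by
  rcases cartan_cases i j with rfl | hj | hj
  · rw [TK_self, TL_self, h.lk]
  · rw [TK_adj hj, TL_adj hj, mul_assoc, ← mul_assoc (k i), h.kl, one_mul, h.kl]
  · rw [TK_far hj, TL_far hj, h.kl]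

theorem braid_lk (i j : Fin n) : TL k l i j * TK k l i j = 1 := by
  rcases cartan_cases i j with rfl | hj | hj
  · rw [TK_self, TL_self, h.kl]
  · rw [TK_adj hj, TL_adj hj, mul_assoc, ← mul_assoc (l j), h.lk, one_mul, h.lk]
  · rw [TK_far hj, TL_far hj, h.lk]

theorem wt_TK (i j : Fin n) (hq : q ≠ 0) : Wt k q (TK k l i j) 0 := by
  rcases cartan_cases i j with rfl | hj | hj
  · rw [TK_self]; exact h.wt_lw j
  · rw [TK_adj hj]; simpa using (h.wt_k j).mul hq (h.wt_k i)
  · rw [TK_far hj]; exact h.wt_k j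

theorem braid_kk (hq : q ≠ 0) (i j m : Fin n) :
    TK k l i j * TK k l i m = TK k l i m * TK k l i j := by
  have := h.tk_wt hq (h.wt_TK i m hq) i j
  simpa using this

theorem braid_ke (hq : q ≠ 0) (i j m : Fin n) :
    TK k l i j * TE q e f k i m = q ^ cartan j m • (TE q e f k i m * TK k l i j) := by
  rw [h.tk_wt hq (h.te_wt hq i m), cartan_self, cartan_comm j i]
  congr 2; ring

theorem braid_kf (hq : q ≠ 0) (i j m : Fin n) :
    TK k l i j * TF q e f l i m = q ^ (-cartan j m) • (TF q e f l i m * TK k l i j) := by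
  rw [h.tk_wt hq (h.tf_wt hq i m), cartan_self, cartan_comm j i]
  congr 2; ring

theorem braid_ee (hq : q ≠ 0) (hq2 : q + q⁻¹ ≠ 0) (i j m : Fin n) (hjm : cartan j m = 0) :
    TE q e f k i j * TE q e f k i m = TE q e f k i m * TE q e f k i j := by
  rcases cartan_cases i j with rfl | hj | hj
  · rcases cartan_cases j m with rfl | hm | hm
    · rfl
    · rw [hjm] at hm; exact absurd hm (by decide)
    · rw [TE_self, TE_far hm, neg_mul, mul_neg, mul_assoc, h.k_comm_e hm, ← mul_assoc,
        ← h.e_comm_f (cartan_ne0 hm).symm, mul_assoc]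
  · rcases cartan_cases i m with rfl | hm | hm
    · rw [cartan_comm, hjm] at hj; exact absurd hj (by decide)
    · rw [TE_adj hj, TE_adj hm]
      exact qb_comm hq hq2 (h.se i j hj) (h.se i m hm) (h.ee j m hjm)
    · rw [TE_adj hj, TE_far hm]
      have h1 := h.ee i m hm
      have h2 := h.ee j m hjm
      have h1' : ∀ x, e i * (e m * x) = e m * (e i * x) := fun x => by
        rw [← mul_assoc, h1, mul_assoc]
      have h2' : ∀ x, e j * (e m * x) = e m * (e j * x) := fun x => by
        rw [← mul_assoc, h2, mul_assoc]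
      simp only [qb, mul_sub, sub_mul, mul_neg, neg_mul, mul_smul_comm, smul_mul_assoc,
        mul_assoc, h1, h2, h1', h2']
  · rcases cartan_cases i m with rfl | hm | hm
    · rw [TE_self, TE_far hj, neg_mul, mul_neg, mul_assoc, h.k_comm_e hj, ← mul_assoc,
        ← mul_assoc, ← h.e_comm_f (cartan_ne0 hj).symm]
    · rw [TE_adj hm, TE_far hj]
      have h1 := h.ee i j hj
      have h2 := (h.ee j m hjm).symm
      have h1' : ∀ x, e i * (e j * x) = e j * (e i * x) := fun x => by
        rw [← mul_assoc, h1, mul_assoc]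
      have h2' : ∀ x, e m * (e j * x) = e j * (e m * x) := fun x => by
        rw [← mul_assoc, h2, mul_assoc]
      simp only [qb, mul_sub, sub_mul, mul_neg, neg_mul, mul_smul_comm, smul_mul_assoc,
        mul_assoc, h1, h2, h1', h2']
    · rw [TE_far hj, TE_far hm]
      exact h.ee j m hjm

theorem braid_ff (hq : q ≠ 0) (hq2 : q + q⁻¹ ≠ 0) (i j m : Fin n) (hjm : cartan j m = 0) :
    TF q e f l i j * TF q e f l i m = TF q e f l i m * TF q e f l i j := by
  have hp : q⁻¹ ≠ 0 := inv_ne_zero hq
  have hp2 : q⁻¹ + q⁻¹⁻¹ ≠ 0 := by rwa [inv_inv, add_comm]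
  have lf : ∀ {i j : Fin n}, cartan i j = 0 → l i * f j = f j * l i := fun {i j} hc => by
    rw [h.wt_l hq (h.wt_f j), hc]; simp
  rcases cartan_cases i j with rfl | hj | hj
  · rcases cartan_cases j m with rfl | hm | hm
    · rfl
    · rw [hjm] at hm; exact absurd hm (by decide)
    · rw [TF_self, TF_far hm, neg_mul, mul_neg, mul_assoc, h.e_comm_f (cartan_ne0 hm), ← mul_assoc,
        lf hm, mul_assoc]
  · rcases cartan_cases i m with rfl | hm | hm
    · rw [cartan_comm, hjm] at hj; exact absurd hj (by decide)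
    · rw [TF_adj hj, TF_adj hm]
      exact qb_comm' hp hp2 (h.sf i j hj).inv (h.sf i m hm).inv (h.ff j m hjm)
    · rw [TF_adj hj, TF_far hm]
      have h1 := h.ff i m hm
      have h2 := h.ff j m hjm
      have h1' : ∀ x, f i * (f m * x) = f m * (f i * x) := fun x => by
        rw [← mul_assoc, h1, mul_assoc]
      have h2' : ∀ x, f j * (f m * x) = f m * (f j * x) := fun x => by
        rw [← mul_assoc, h2, mul_assoc]
      simp only [qb, mul_sub, sub_mul, mul_neg, neg_mul, mul_smul_comm, smul_mul_assoc,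
        mul_assoc, h1, h2, h1', h2']
  · rcases cartan_cases i m with rfl | hm | hm
    · rw [TF_self, TF_far hj, neg_mul, mul_neg, mul_assoc, h.e_comm_f (cartan_ne0 hj), ← mul_assoc,
        ← mul_assoc, lf hj]
    · rw [TF_adj hm, TF_far hj]
      have h1 := h.ff i j hj
      have h2 := (h.ff j m hjm).symm
      have h1' : ∀ x, f i * (f j * x) = f j * (f i * x) := fun x => by
        rw [← mul_assoc, h1, mul_assoc]
      have h2' : ∀ x, f m * (f j * x) = f j * (f m * x) := fun x => by
        rw [← mul_assoc, h2, mul_assoc]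
      simp only [qb, mul_sub, sub_mul, mul_neg, neg_mul, mul_smul_comm, smul_mul_assoc,
        mul_assoc, h1, h2, h1', h2']
    · rw [TF_far hj, TF_far hm]
      exact h.ff j m hjm

theorem serre_self_adj (hq : q ≠ 0) (hq2 : q ^ 2 - 1 ≠ 0) {i j : Fin n}
    (hij : cartan i j = -1) :
    Serre q (-(f i * k i)) (qb q (e i) (e j)) ∧ Serre q (qb q (e i) (e j)) (-(f i * k i)) := by
  have hqX := h.qb_X hq hq2 hij
  constructor
  · -- `x x y - [2] x y x + y x x` with `x = - f k`, `y = X`
    apply serre_of_right hq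
    rw [hqX, mul_neg, neg_mul, mul_assoc, h.k_e_adj hij, mul_smul_comm, ← mul_assoc, ← mul_assoc,
      smul_neg, smul_smul, mul_inv_cancel₀ hq, one_smul, h.e_comm_f (cartan_ne hij).symm]
  · apply serre_of_left hq
    rw [hqX]
    exact serre_right hq (h.se j i (by rw [cartan_comm]; exact hij))

end IsRep

end Pool.Agent.H387.QT
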