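import Pool.Agent.H387.QT.Braid3

/-!
# Lusztig's automorphisms `T_i` of `U_q(sl_{n+1})`: end of the verification
-/

namespace Pool.Agent.H387.QT

variable {n : ℕ} {A : Type*} [Ring A] [Algebra ℂ A] {q : ℂ} {e f k l : Fin n → A}

theorem qsub_ne {q : ℂ} (hq : q ≠ 0) (hq2 : q ^ 2 - 1 ≠ 0) : q - q⁻¹ ≠ 0 := by
  intro h0; apply hq2; field_simp at h0; linear_combination h0

namespace IsRep

variable (h : IsRep q e f k l)
include h

/-- `[T_i F_i, T_i F_j] = F_j` -/
theorem qb_Y (hq : q ≠ 0) (hq2 : q ^ 2 - 1 ≠ 0) {i j : Fin n} (hij : cartan i j = -1) :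
    qb q⁻¹ (-(l i * e i)) (qb q⁻¹ (f j) (f i)) = f j := by
  have hw := h.wt_l hq ((h.wt_f j).qb hq q⁻¹ (h.wt_f i)) i
  simp only [Pi.add_apply, cartan_self, hij] at hw
  norm_num at hw
  have hqq := qsub_ne hq hq2
  have h1 := h.ef_self i
  have h2 : e i * f j = f j * e i := h.e_comm_f (cartan_ne hij)
  have h3 := h.k_f_adj hij
  have h4 := h.l_f_adj hq hij
  have h2' : ∀ x, e i * (f j * x) = f j * (e i * x) := fun x => by
    rw [← mul_assoc, h2, mul_assoc]
  have key : e i * qb q⁻¹ (f j) (f i) = qb q⁻¹ (f j) (f i) * e i + q • (f j * k i) := by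
    simp only [qb, inv_inv, mul_sub, sub_mul, mul_add, mul_neg, neg_mul, mul_smul_comm,
      smul_mul_assoc, smul_sub, smul_neg, smul_add, smul_smul, mul_assoc, h2, h2', h1]
    simp only [← mul_assoc, h1, add_mul, sub_mul, smul_mul_assoc, h3, h4, smul_smul]
    simp only [mul_assoc, h2, h2']
    match_scalars <;> field_simp <;> ring
  set Y := qb q⁻¹ (f j) (f i)
  have e1 : -(l i * e i) * Y = q • (Y * -(l i * e i)) - f j := by
    rw [neg_mul, mul_assoc, key, mul_add, ← mul_assoc, hw, mul_smul_comm, ← mul_assoc (l i), h4,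
      smul_mul_assoc, smul_mul_assoc, smul_smul, mul_inv_cancel₀ hq, one_smul, mul_assoc (f j),
      h.lk, mul_one, mul_neg, smul_neg, mul_assoc]
    abel
  rw [qb, inv_inv, e1]
  abel

theorem serre_self_adj' (hq : q ≠ 0) (hq2 : q ^ 2 - 1 ≠ 0) {i j : Fin n}
    (hij : cartan i j = -1) :
    Serre q (-(l i * e i)) (qb q⁻¹ (f j) (f i)) ∧ Serre q (qb q⁻¹ (f j) (f i)) (-(l i * e i)) := by
  have hqY := h.qb_Y hq hq2 hij
  have hp : q⁻¹ ≠ 0 := inv_ne_zero hq
  constructor
  · have : Serre q⁻¹ (-(l i * e i)) (qb q⁻¹ (f j) (f i)) := by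
      apply serre_of_left hp
      rw [hqY, neg_mul, mul_neg, mul_assoc, h.e_comm_f (cartan_ne hij), ← mul_assoc,
        h.l_f_adj hq hij, smul_mul_assoc, smul_neg, mul_assoc]
    simpa using this.inv
  · have : Serre q⁻¹ (qb q⁻¹ (f j) (f i)) (-(l i * e i)) := by
      apply serre_of_right hp
      rw [hqY]
      exact serre_left hp (h.sf j i (by rw [cartan_comm]; exact hij)).inv
    simpa using this.inv

theorem braid_se (hq : q ≠ 0) (hq2 : q ^ 2 - 1 ≠ 0) (hq3 : q + q⁻¹ ≠ 0) (i j m : Fin n)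
    (hjm : cartan j m = -1) : Serre q (TE q e f k i j) (TE q e f k i m) := by
  rcases cartan_cases i j with rfl | hj | hj
  · rw [TE_self, TE_adj hjm]
    exact (h.serre_self_adj hq hq2 hjm).1
  · rcases cartan_cases i m with rfl | hm | hm
    · rw [TE_self, TE_adj hj]
      exact (h.serre_self_adj hq hq2 hj).2
    · have := cartan_adj_adj hj hm (cartan_ne hjm)
      rw [this] at hjm; exact absurd hjm (by decide)
    · rw [TE_adj hj, TE_far hm]
      exact serre_qb_left hq hq3 (h.se i j hj) (h.se j i (by rw [cartan_comm]; exact hj))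
        (h.se j m hjm) (h.ee i m hm)
  · rcases cartan_cases i m with rfl | hm | hm
    · rw [cartan_comm, hjm] at hj; exact absurd hj (by decide)
    · rw [TE_far hj, TE_adj hm]
      exact serre_qb_right (h.se j m hjm) (h.ee i j hj)
    · rw [TE_far hj, TE_far hm]
      exact h.se j m hjm

theorem braid_sf (hq : q ≠ 0) (hq2 : q ^ 2 - 1 ≠ 0) (hq3 : q + q⁻¹ ≠ 0) (i j m : Fin n)
    (hjm : cartan j m = -1) : Serre q (TF q e f l i j) (TF q e f l i m) := by
  have hp : q⁻¹ ≠ 0 := inv_ne_zero hq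
  have hp2 : q⁻¹ + q⁻¹⁻¹ ≠ 0 := by rwa [inv_inv, add_comm]
  rcases cartan_cases i j with rfl | hj | hj
  · rw [TF_self, TF_adj hjm]
    exact (h.serre_self_adj' hq hq2 hjm).1
  · rcases cartan_cases i m with rfl | hm | hm
    · rw [TF_self, TF_adj hj]
      exact (h.serre_self_adj' hq hq2 hj).2
    · have := cartan_adj_adj hj hm (cartan_ne hjm)
      rw [this] at hjm; exact absurd hjm (by decide)
    · rw [TF_adj hj, TF_far hm]
      have : Serre q⁻¹ (qb q⁻¹ (f j) (f i)) (f m) :=
        serre_qb_left' hp hp2 (h.sf i j hj).inv (h.sf j i (by rw [cartan_comm]; exact hj)).inv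
          (h.sf j m hjm).inv (h.ff i m hm)
      simpa using this.inv
  · rcases cartan_cases i m with rfl | hm | hm
    · rw [cartan_comm, hjm] at hj; exact absurd hj (by decide)
    · rw [TF_far hj, TF_adj hm]
      have : Serre q⁻¹ (f j) (qb q⁻¹ (f m) (f i)) :=
        serre_qb_right' (h.sf j m hjm).inv (h.ff i j hj)
      simpa using this.inv
    · rw [TF_far hj, TF_far hm]
      exact h.sf j m hjm

theorem braid_ef (hq : q ≠ 0) (hq2 : q ^ 2 - 1 ≠ 0) (i j m : Fin n) :
    TE q e f k i j * TF q e f l i m - TF q e f l i m * TE q e f k i j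
      = if j = m then (q - q⁻¹)⁻¹ • (TK k l i j - TL k l i j) else 0 := by
  rcases cartan_cases i j with rfl | hj | hj
  · rcases cartan_cases j m with rfl | hm | hm
    · rw [if_pos rfl, TE_self, TF_self, TK_self, TL_self]
      have hw := h.wt_l hq ((h.wt_f m).mul hq (h.wt_e m)) m
      simp only [Pi.add_apply, cartan_self] at hw
      norm_num at hw
      have e1 : -(f m * k m) * -(l m * e m) = f m * e m := by
        rw [neg_mul_neg, mul_assoc, ← mul_assoc (k m), h.kl, one_mul]
      have e2 : -(l m * e m) * -(f m * k m)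
          = f m * e m + (q - q⁻¹)⁻¹ • k m - (q - q⁻¹)⁻¹ • l m := by
        rw [neg_mul_neg, mul_assoc, ← mul_assoc (e m), h.ef_self, ← mul_assoc, mul_sub, mul_add,
          hw, sub_mul, add_mul, mul_assoc _ (l m) (k m), h.lk, mul_one, mul_smul_comm, h.lk,
          smul_mul_assoc, one_mul, mul_smul_comm, smul_mul_assoc, mul_assoc, h.lk, mul_one]
      rw [e1, e2, smul_sub]
      abel
    · rw [if_neg (cartan_ne hm), TE_self, TF_adj hm, h.ef_i_adj hq hm, sub_self]
    · rw [if_neg (cartan_ne0 hm), TE_self, TF_far hm, neg_mul, mul_assoc, h.k_comm_f hm,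
        ← mul_assoc, h.ff j m hm, mul_neg, mul_assoc, sub_self]
  · rcases cartan_cases i m with rfl | hm | hm
    · rw [if_neg (cartan_ne hj).symm, TE_adj hj, TF_self, h.ef_adj_i hq hj, sub_self]
    · by_cases hjm : j = m
      · subst hjm
        rw [if_pos rfl, TE_adj hj, TF_adj hm, TK_adj hj, TL_adj hj, h.ef_adj_self hq hq2 hj]
      · rw [if_neg hjm, TE_adj hj, TF_adj hm, h.ef_adj_adj hq hq2 hj hm hjm, sub_self]
    · have hjm : j ≠ m := by
        rintro rfl; rw [hj] at hm; exact absurd hm (by decide)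
      rw [if_neg hjm, TE_adj hj, TF_far hm]
      have h1 := h.e_comm_f (cartan_ne0 hm)
      have h2 := h.e_comm_f hjm
      have h1' : ∀ x, e i * (f m * x) = f m * (e i * x) := fun x => by
        rw [← mul_assoc, h1, mul_assoc]
      have h2' : ∀ x, e j * (f m * x) = f m * (e j * x) := fun x => by
        rw [← mul_assoc, h2, mul_assoc]
      rw [sub_eq_zero]
      simp only [qb, mul_sub, sub_mul, mul_neg, neg_mul, mul_smul_comm, smul_mul_assoc,
        mul_assoc, h1, h2, h1', h2']
  · rcases cartan_cases i m with rfl | hm | hm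
    · rw [if_neg (cartan_ne0 hj).symm, TE_far hj, TF_self, mul_neg, neg_mul, ← mul_assoc]
      have h1 : e j * l m = l m * e j := by
        rw [h.wt_l hq (h.wt_e j), hj]; simp
      rw [h1, mul_assoc, mul_assoc, h.ee m j hj, sub_self]
    · have hjm : j ≠ m := by
        rintro rfl; rw [hj] at hm; exact absurd hm (by decide)
      rw [if_neg hjm, TE_far hj, TF_adj hm]
      have h1 := h.e_comm_f (cartan_ne0 hj).symm
      have h2 := h.e_comm_f hjm
      have h1' : ∀ x, e j * (f i * x) = f i * (e j * x) := fun x => by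
        rw [← mul_assoc, h1, mul_assoc]
      have h2' : ∀ x, e j * (f m * x) = f m * (e j * x) := fun x => by
        rw [← mul_assoc, h2, mul_assoc]
      rw [sub_eq_zero]
      simp only [qb, mul_sub, sub_mul, mul_neg, neg_mul, mul_smul_comm, smul_mul_assoc,
        mul_assoc, h1, h2, h1', h2']
    · rw [TE_far hj, TF_far hm, TK_far hj, TL_far hj]
      exact h.ef j m

theorem braid (hq : q ≠ 0) (hq2 : q ^ 2 - 1 ≠ 0) (hq3 : q + q⁻¹ ≠ 0) (i : Fin n) :
    IsRep q (TE q e f k i) (TF q e f l i) (TK k l i) (TL k l i) where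
  kl := h.braid_kl i
  lk := h.braid_lk i
  kk := h.braid_kk hq i
  ke := h.braid_ke hq i
  kf := h.braid_kf hq i
  ef := h.braid_ef hq hq2 i
  ee := h.braid_ee hq hq3 i
  ff := h.braid_ff hq hq3 i
  se := h.braid_se hq hq2 hq3 i
  sf := h.braid_sf hq hq2 hq3 i

end IsRep

end Pool.Agent.H387.QT
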