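import Pool.Agent.H387.QT.Defs

namespace Pool.Agent.H387.QT

variable {n : ℕ}

theorem cartan_self (i : Fin n) : cartan i i = 2 := by simp [cartan]

theorem cartan_comm (i j : Fin n) : cartan i j = cartan j i := by
  unfold cartan
  by_cases h : i = j
  · simp [h]
  · rw [if_neg h, if_neg (Ne.symm h)]
    congr 1
    exact propext or_comm

theorem cartan_adj_iff {i j : Fin n} :
    cartan i j = -1 ↔ ((i : ℕ) + 1 = j ∨ (j : ℕ) + 1 = i) := by
  unfold cartan
  constructor
  · intro h
    split_ifs at h with h1 h2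
    exact h2
  · intro h
    have : i ≠ j := by rintro rfl; omega
    rw [if_neg this, if_pos h]

theorem cartan_far_iff {i j : Fin n} :
    cartan i j = 0 ↔ (i ≠ j ∧ (i : ℕ) + 1 ≠ j ∧ (j : ℕ) + 1 ≠ i) := by
  unfold cartan
  constructor
  · intro h
    by_cases h1 : i = j
    · rw [if_pos h1] at h; omega
    · by_cases h2 : (i : ℕ) + 1 = j ∨ (j : ℕ) + 1 = i
      · rw [if_neg h1, if_pos h2] at h; omega
      · push Not at h2
        exact ⟨h1, h2⟩
  · rintro ⟨h1, h2, h3⟩
    rw [if_neg h1, if_neg (by tauto)]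

theorem cartan_ne {i j : Fin n} (h : cartan i j = -1) : i ≠ j := by
  rw [cartan_adj_iff] at h
  rintro rfl; omega

theorem cartan_ne0 {i j : Fin n} (h : cartan i j = 0) : i ≠ j := (cartan_far_iff.mp h).1

theorem cartan_cases (i j : Fin n) : j = i ∨ cartan i j = -1 ∨ cartan i j = 0 := by
  rw [cartan_adj_iff, cartan_far_iff]
  by_cases h : j = i
  · exact Or.inl h
  · have : i ≠ j := fun h' => h h'.symm
    tauto

theorem cartan_adj_adj {i j k : Fin n} (hj : cartan i j = -1) (hk : cartan i k = -1) (h : j ≠ k) :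
    cartan j k = 0 := by
  rw [cartan_adj_iff] at hj hk
  rw [cartan_far_iff]
  have : (j : ℕ) ≠ k := fun h' => h (Fin.ext h')
  refine ⟨h, ?_, ?_⟩ <;> omega

end Pool.Agent.H387.QT
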