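import Pool.Agent.H387.QT.Braid4

/-!
# The coproduct
-/

open scoped TensorProduct

namespace Pool.Agent.H387.QT

variable {n : ℕ} {A : Type*} [Ring A] [Algebra ℂ A] {q : ℂ} {e f k l : Fin n → A}
variable {B : Type*} [Ring B] [Algebra ℂ B] {e' f' k' l' : Fin n → B}

theorem serre_add {R : Type*} [Ring R] [Algebra ℂ R] {q : ℂ} (hq : q ≠ 0) {a1 a2 b1 b2 : R}
    (h1 : a1 * a2 = (q * q) • (a2 * a1)) (h2 : b1 * a2 = q⁻¹ • (a2 * b1))
    (h3 : a1 * b2 = q⁻¹ • (b2 * a1)) (s1 : Serre q a1 b1) (s2 : Serre q a2 b2) :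
    Serre q (a1 + a2) (b1 + b2) := by
  unfold Serre at *
  have key : (a1 + a2) * (a1 + a2) * (b1 + b2) - (q + q⁻¹) • ((a1 + a2) * (b1 + b2) * (a1 + a2))
      + (b1 + b2) * (a1 + a2) * (a1 + a2)
      = (a1 * a1 * b1 - (q + q⁻¹) • (a1 * b1 * a1) + b1 * a1 * a1)
      + (a2 * a2 * b2 - (q + q⁻¹) • (a2 * b2 * a2) + b2 * a2 * a2)
      + ((a1 * a2) * b1 + a2 * (a1 * b1) - (q + q⁻¹) • (a1 * (b1 * a2) + a2 * (b1 * a1))
        + b1 * (a1 * a2) + (b1 * a2) * a1)
      + (a2 * (a2 * b1) - (q + q⁻¹) • (a2 * (b1 * a2)) + (b1 * a2) * a2)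
      + ((a1 * a2) * b2 + a2 * (a1 * b2) - (q + q⁻¹) • ((a1 * b2) * a2 + a2 * (b2 * a1))
        + b2 * (a1 * a2) + b2 * (a2 * a1))
      + (a1 * (a1 * b2) - (q + q⁻¹) • ((a1 * b2) * a1) + b2 * (a1 * a1)) := by
    simp only [mul_add, add_mul, smul_add, mul_assoc]
    abel
  rw [key, s1, s2]
  have e1 : a1 * (a2 * b1) = (q * q) • (a2 * (a1 * b1)) := by
    rw [← mul_assoc, h1, smul_mul_assoc, mul_assoc]
  have e2 : b1 * (a2 * a1) = q⁻¹ • (a2 * (b1 * a1)) := by
    rw [← mul_assoc, h2, smul_mul_assoc, mul_assoc]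
  have e3 : b1 * (a2 * a2) = (q⁻¹ * q⁻¹) • (a2 * (a2 * b1)) := by
    rw [← mul_assoc, h2, smul_mul_assoc, mul_assoc, h2, mul_smul_comm, smul_smul]
  have e4 : a1 * (b2 * a1) = q⁻¹ • (b2 * (a1 * a1)) := by
    rw [← mul_assoc, h3, smul_mul_assoc, mul_assoc]
  have e5 : b2 * (a1 * a2) = (q * q) • (b2 * (a2 * a1)) := by
    rw [h1, mul_smul_comm]
  have e6 : a2 * (a1 * b2) = q⁻¹ • (a2 * (b2 * a1)) := by
    rw [h3, mul_smul_comm]
  rw [h1, h2, h3]
  simp only [mul_add, add_mul, smul_mul_assoc, mul_smul_comm, smul_add, smul_smul, mul_assoc, e1,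
    e2, e3, e4, e5, e6, h1, h2, h3]
  match_scalars <;> field_simp <;> ring

namespace IsRep

variable (h : IsRep q e f k l) (h' : IsRep q e' f' k' l')
include h h'

open Algebra.TensorProduct in
/-- the tensor product of two representations -/
theorem tensor (hq : q ≠ 0) : IsRep q
    (fun i => e i ⊗ₜ[ℂ] k' i + 1 ⊗ₜ[ℂ] e' i) (fun i => f i ⊗ₜ[ℂ] 1 + l i ⊗ₜ[ℂ] f' i)
    (fun i => k i ⊗ₜ[ℂ] k' i) (fun i => l i ⊗ₜ[ℂ] l' i) where
  kl i := by simp only [tmul_mul_tmul, h.kl, h'.kl, one_def]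
  lk i := by simp only [tmul_mul_tmul, h.lk, h'.lk, one_def]
  kk i j := by simp only [tmul_mul_tmul, h.kk i j, h'.kk i j]
  ke i j := by
    simp only [mul_add, add_mul, tmul_mul_tmul, h.ke i j, h'.ke i j, h'.kk i j, mul_one, one_mul,
      TensorProduct.smul_tmul', TensorProduct.tmul_smul, smul_add]
  kf i j := by
    simp only [mul_add, add_mul, tmul_mul_tmul, h.kf i j, h'.kf i j, h.kl_comm i j, mul_one,
      one_mul, TensorProduct.smul_tmul', TensorProduct.tmul_smul, smul_add]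
  ef i j := by
    have h1 := h.ef i j
    have h2 := h'.ef i j
    have h3 : l j * e i = q ^ (-cartan j i) • (e i * l j) := h.wt_l hq (h.wt_e i) j
    have h4 := h'.kf i j
    rw [cartan_comm] at h3
    have key : (e i ⊗ₜ[ℂ] k' i + 1 ⊗ₜ[ℂ] e' i) * (f j ⊗ₜ[ℂ] 1 + l j ⊗ₜ[ℂ] f' j)
        - (f j ⊗ₜ[ℂ] 1 + l j ⊗ₜ[ℂ] f' j) * (e i ⊗ₜ[ℂ] k' i + 1 ⊗ₜ[ℂ] e' i)
        = (e i * f j - f j * e i) ⊗ₜ[ℂ] k' i + l j ⊗ₜ[ℂ] (e' i * f' j - f' j * e' i) := by
      simp only [mul_add, add_mul, tmul_mul_tmul, mul_one, one_mul, h3, h4,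
        TensorProduct.sub_tmul, TensorProduct.tmul_sub, TensorProduct.tmul_smul,
        ← TensorProduct.smul_tmul']
      abel
    rw [key, h1, h2]
    split_ifs with hij
    · subst hij
      simp only [TensorProduct.tmul_smul, ← TensorProduct.smul_tmul', ← smul_add,
        TensorProduct.sub_tmul, TensorProduct.tmul_sub]
      congr 1
      abel
    · simp
  ee i j hc := by
    have h1 := h.ee i j hc
    have h2 := h'.ee i j hc
    have h3 := h'.k_comm_e hc
    have h4 := h'.k_comm_e (i := j) (j := i) (by rw [cartan_comm]; exact hc)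
    simp only [mul_add, add_mul, tmul_mul_tmul, mul_one, one_mul, h1, h2, h3, h4, h'.kk i j]
    abel
  ff i j hc := by
    have h1 := h.ff i j hc
    have h2 := h'.ff i j hc
    have h3 : l i * f j = f j * l i := by
      rw [h.wt_l hq (h.wt_f j), hc]; simp
    have h4 : l j * f i = f i * l j := by
      rw [h.wt_l hq (h.wt_f i), cartan_comm, hc]; simp
    simp only [mul_add, add_mul, tmul_mul_tmul, mul_one, one_mul, h1, h2, h3, h4, h.ll i j]
    abel
  se i j hc := by
    have hc' : cartan j i = -1 := by rw [cartan_comm]; exact hc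
    apply serre_add hq
    · simp only [tmul_mul_tmul, mul_one, one_mul, h'.k_e_self, TensorProduct.tmul_smul]
    · simp only [tmul_mul_tmul, mul_one, one_mul, h'.k_e_adj hc', TensorProduct.tmul_smul]
    · simp only [tmul_mul_tmul, mul_one, one_mul, h'.k_e_adj hc, TensorProduct.tmul_smul]
    · have hs := h.se i j hc
      have h3 := h'.kk i j
      unfold Serre at *
      simp only [tmul_mul_tmul]
      have e1 : k' i * k' j * k' i = k' i * k' i * k' j := by
        rw [mul_assoc, ← h3, ← mul_assoc]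
      have e2 : k' j * k' i * k' i = k' i * k' i * k' j := by
        rw [← h3, mul_assoc, ← h3, ← mul_assoc]
      rw [e1, e2, TensorProduct.smul_tmul', ← TensorProduct.sub_tmul, ← TensorProduct.add_tmul,
        hs, TensorProduct.zero_tmul]
    · have hs := h'.se i j hc
      unfold Serre at *
      simp only [tmul_mul_tmul, one_mul]
      rw [← TensorProduct.tmul_smul, ← TensorProduct.tmul_sub, ← TensorProduct.tmul_add,
        hs, TensorProduct.tmul_zero]
  sf i j hc := by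
    have hc' : cartan j i = -1 := by rw [cartan_comm]; exact hc
    have : Serre q (l i ⊗ₜ[ℂ] f' i + f i ⊗ₜ[ℂ] 1) (l j ⊗ₜ[ℂ] f' j + f j ⊗ₜ[ℂ] (1 : B)) := by
      apply serre_add hq
      · simp only [tmul_mul_tmul, mul_one, one_mul, h.l_f_self hq, ← TensorProduct.smul_tmul']
      · simp only [tmul_mul_tmul, mul_one, one_mul, h.l_f_adj hq hc', ← TensorProduct.smul_tmul']
      · simp only [tmul_mul_tmul, mul_one, one_mul, h.l_f_adj hq hc, ← TensorProduct.smul_tmul']
      · have hs := h'.sf i j hc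
        have h3 := h.ll i j
        unfold Serre at *
        simp only [tmul_mul_tmul]
        have e1 : l i * l j * l i = l i * l i * l j := by
          rw [mul_assoc, ← h3, ← mul_assoc]
        have e2 : l j * l i * l i = l i * l i * l j := by
          rw [← h3, mul_assoc, ← h3, ← mul_assoc]
        rw [e1, e2, ← TensorProduct.tmul_smul, ← TensorProduct.tmul_sub, ← TensorProduct.tmul_add,
          hs, TensorProduct.tmul_zero]
      · have hs := h.sf i j hc
        unfold Serre at *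
        simp only [tmul_mul_tmul, one_mul]
        rw [TensorProduct.smul_tmul', ← TensorProduct.sub_tmul, ← TensorProduct.add_tmul,
          hs, TensorProduct.zero_tmul]
    rw [add_comm (f i ⊗ₜ[ℂ] 1), add_comm (f j ⊗ₜ[ℂ] 1)]
    exact this

end IsRep

end Pool.Agent.H387.QT
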