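import Pool.Agent.H387.QT.OnlyIf

/-!
# The criterion for right tangent spaces
-/

open scoped TensorProduct

namespace Pool.Agent.H387.QT

variable {n : ℕ} {q : ℂ}

/-- The root vector of the pair of lines `a < c` given by the signs `σ a z c`, `a < z < c`. -/
noncomputable def rootv (n : ℕ) (q : ℂ) (σ : ℕ → ℕ → ℕ → Bool) (a c : ℕ) : Uq n q :=
  bv q (Uq.E' n q) (fun z => σ a z c) a (c - a - 1)

/-- The span of the root vectors. -/
noncomputable def TT (n : ℕ) (q : ℂ) (σ : ℕ → ℕ → ℕ → Bool) : Submodule ℂ (Uq n q) :=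
  Submodule.span ℂ {x | ∃ a c, a < c ∧ c ≤ n ∧ x = rootv n q σ a c}

/-- The image of `S ⊗ T` in `A ⊗ A`. -/
noncomputable def tens {A : Type*} [AddCommGroup A] [Module ℂ A] (S T : Submodule ℂ A) :
    Submodule ℂ (A ⊗[ℂ] A) :=
  Submodule.span ℂ {z | ∃ s ∈ S, ∃ t ∈ T, z = s ⊗ₜ[ℂ] t}

/-- the right pattern -/
def RP (n : ℕ) (σ : ℕ → ℕ → ℕ → Bool) : Prop := ∀ a b c d, a < b → b < c → c < d → d ≤ n →
  ¬ (σ a b d = false ∧ σ a c d = true) ∧ (σ a c d = false → σ a b c = σ a b d) ∧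
    (σ a b d = true → σ b c d = σ a c d)

/-- tensor product of functionals -/
noncomputable def tf (Λ Ψ : Uq n q →ₗ[ℂ] ℂ) : Uq n q ⊗[ℂ] Uq n q →ₗ[ℂ] ℂ :=
  TensorProduct.lift ((LinearMap.mul ℂ ℂ).compl₁₂ Λ Ψ)

theorem tf_tmul (Λ Ψ : Uq n q →ₗ[ℂ] ℂ) (u v : Uq n q) : tf Λ Ψ (u ⊗ₜ[ℂ] v) = Λ u * Ψ v := rfl

theorem tf_comb (α α' : ℂ) (Λ Λ' Ψ : Uq n q →ₗ[ℂ] ℂ) (z : Uq n q ⊗[ℂ] Uq n q) :
    tf (α • Λ + α' • Λ') Ψ z = α * tf Λ Ψ z + α' * tf Λ' Ψ z := by
  induction z using TensorProduct.induction_on with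
  | zero => simp
  | tmul u v =>
    rw [tf_tmul, tf_tmul, tf_tmul, LinearMap.add_apply, LinearMap.smul_apply,
      LinearMap.smul_apply, smul_eq_mul, smul_eq_mul]
    ring
  | add x y h1 h2 => rw [map_add, h1, h2, map_add, map_add]; ring

theorem tf_kill {A B : Submodule ℂ (Uq n q)} {Λ Ψ : Uq n q →ₗ[ℂ] ℂ} (hA : ∀ x ∈ A, Λ x = 0)
    (hB : ∀ x ∈ B, Ψ x = 0) {z : Uq n q ⊗[ℂ] Uq n q} (hz : z ∈ tens A ⊤ ⊔ tens ⊤ B) :
    tf Λ Ψ z = 0 := by
  have h : tens A ⊤ ⊔ tens ⊤ B ≤ LinearMap.ker (tf Λ Ψ) := by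
    apply sup_le
    · apply Submodule.span_le.mpr
      rintro z ⟨x, hx, y, _, rfl⟩
      change tf Λ Ψ _ = 0
      rw [tf_tmul, hA x hx, zero_mul]
    · apply Submodule.span_le.mpr
      rintro z ⟨x, _, y, hy, rfl⟩
      change tf Λ Ψ _ = 0
      rw [tf_tmul, hB y hy, mul_zero]
  exact h hz

/-- killing the tangent space -/
theorem kill_T {σ : ℕ → ℕ → ℕ → Bool} {Λ : Uq n q →ₗ[ℂ] ℂ}
    (h1 : ∀ x y, x < y → y ≤ n → Λ (rootv n q σ x y) = 0) (h2 : Λ 1 = 0)
    (h3 : ∀ x ∈ J n q, Λ x = 0) : ∀ x ∈ TT n q σ ⊔ Submodule.span ℂ {1} ⊔ J n q, Λ x = 0 := by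
  have h : TT n q σ ⊔ Submodule.span ℂ {1} ⊔ J n q ≤ LinearMap.ker Λ := by
    apply sup_le
    · apply sup_le
      · apply Submodule.span_le.mpr
        rintro z ⟨x, y, hxy, hy, rfl⟩
        exact h1 x y hxy hy
      · apply Submodule.span_le.mpr
        rintro z hz
        rw [Set.mem_singleton_iff.mp hz]
        exact h2
    · intro x hx; exact h3 x hx
  exact fun x hx => h hx

theorem kp_split (q : ℂ) (s : ℕ → Bool) (P : St) (a m1 m2 : ℕ) :
    kp q s P a (m1 + 1 + m2) = kp q s P a m1 * kf q (s (a + m1 + 1)) (P (a + m1 + 1)) *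
      kp q s P (a + m1 + 1) m2 := by
  unfold kp
  rw [Finset.prod_range_add, Finset.prod_range_succ]
  congr 1
  refine Finset.prod_congr rfl fun i _ => ?_
  have : a + (m1 + 1 + i) + 1 = a + m1 + 1 + i + 1 := by omega
  rw [this]

section

variable (hq : NRU q) {a b c d : ℕ} (hab : a < b) (hbc : b < c) (hcd : c < d) (hd : d ≤ n)

include hab hbc hcd hd in
theorem int2_split (f g : St × St → ℂ) (P2 Q2 : St) (s : ℕ → Bool) :
    Int2 n hq f g P2 Q2 (bv q (Uq.E' n q) s a (d - a - 1))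
      (if s c then qb q
        (if s b then
          qb q (bv q (eo2 q (fun i => q ^ wt i P2 * q ^ wt i Q2) (fun i => q ^ wt i Q2)) s a
              (b - a - 1))
            (bv q (eo2 q (fun i => q ^ wt i P2 * q ^ wt i Q2) (fun i => q ^ wt i Q2)) s b
              (c - b - 1))
        else
          qb q (bv q (eo2 q (fun i => q ^ wt i P2 * q ^ wt i Q2) (fun i => q ^ wt i Q2)) s b
              (c - b - 1))
            (bv q (eo2 q (fun i => q ^ wt i P2 * q ^ wt i Q2) (fun i => q ^ wt i Q2)) s a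
              (b - a - 1)))
        (bv q (eo2 q (fun i => q ^ wt i P2 * q ^ wt i Q2) (fun i => q ^ wt i Q2)) s c (d - c - 1))
      else qb q
        (bv q (eo2 q (fun i => q ^ wt i P2 * q ^ wt i Q2) (fun i => q ^ wt i Q2)) s c (d - c - 1))
        (if s b then
          qb q (bv q (eo2 q (fun i => q ^ wt i P2 * q ^ wt i Q2) (fun i => q ^ wt i Q2)) s a
              (b - a - 1))
            (bv q (eo2 q (fun i => q ^ wt i P2 * q ^ wt i Q2) (fun i => q ^ wt i Q2)) s b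
              (c - b - 1))
        else
          qb q (bv q (eo2 q (fun i => q ^ wt i P2 * q ^ wt i Q2) (fun i => q ^ wt i Q2)) s b
              (c - b - 1))
            (bv q (eo2 q (fun i => q ^ wt i P2 * q ^ wt i Q2) (fun i => q ^ wt i Q2)) s a
              (b - a - 1)))) := by
  have e1 : d - a - 1 = (c - a - 1) + 1 + (d - c - 1) := by omega
  have e2 : a + (c - a - 1) + 1 = c := by omega
  have e3 : c - a - 1 = (b - a - 1) + 1 + (c - b - 1) := by omega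
  have e4 : a + (b - a - 1) + 1 = b := by omega
  have hX := int2_bv n hq f g P2 Q2 (s := s) (a := a) (m := b - a - 1) (by omega)
  have hY := int2_bv n hq f g P2 Q2 (s := s) (a := b) (m := c - b - 1) (by omega)
  have hZ := int2_bv n hq f g P2 Q2 (s := s) (a := c) (m := d - c - 1) (by omega)
  rw [e1, bv_split Uq.E'_comm, e2, e3, bv_split Uq.E'_comm, e4]
  split_ifs
  · exact (hX.qb hY).qb hZ
  · exact (hY.qb hX).qb hZ
  · exact hZ.qb (hX.qb hY)
  · exact hZ.qb (hY.qb hX)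

theorem pr_eq_tf (P0 P Q0 Q : St) (z : Uq n q ⊗[ℂ] Uq n q) :
    tf (phi n hq P0 P) (phi n hq Q0 Q) z =
      pr n hq (ind P0 (co P0)) (ind Q0 (co Q0)) (P, co P0) (Q, co Q0) z := rfl

theorem rootv_mem {σ : ℕ → ℕ → ℕ → Bool} {x y : ℕ} (hxy : x < y) (hy : y ≤ n) :
    rootv n q σ x y ∈ TT n q σ := Submodule.subset_span ⟨x, y, hxy, hy, rfl⟩

/-- the flag version of the right tangent condition -/
def FlagRight (hq : NRU q) (T : Submodule ℂ (Uq n q)) : Prop :=
  ∀ x ∈ T, Uq.comul n hq x ∈ tens (T ⊔ Submodule.span ℂ {1} ⊔ J n q) ⊤ ⊔ tens ⊤ (J n q)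

theorem num_i (hq : NRU q) : q - 2 * q⁻¹ + q⁻¹ * q⁻¹ * q⁻¹ ≠ 0 := by
  have hne := hq.ne
  have hq2 := hq.q2
  have : q - 2 * q⁻¹ + q⁻¹ * q⁻¹ * q⁻¹ = (q ^ 2 - 1) ^ 2 * (q⁻¹ * q⁻¹ * q⁻¹) := by
    field_simp; ring
  rw [this]
  exact mul_ne_zero (pow_ne_zero _ hq2) (mul_ne_zero (mul_ne_zero (inv_ne_zero hne)
    (inv_ne_zero hne)) (inv_ne_zero hne))

theorem cp_ne {c : ℕ → ℂ} (hc : ∀ i, c i ≠ 0) (a m : ℕ) : cp c a m ≠ 0 :=
  Finset.prod_ne_zero_iff.mpr fun _ _ => hc _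

include hab hbc hcd hd in
theorem only_i {σ : ℕ → ℕ → ℕ → Bool} (h : FlagRight hq (TT n q σ)) :
    ¬ (σ a b d = false ∧ σ a c d = true) := by
  rintro ⟨h1, h2⟩
  set P0 := st a b c d false true false true with hP0
  set Q0 := st a b c d false false true false with hQ0
  set P := st a b c d true false true false with hP
  set Q := st a b c d false true false false with hQ
  have hne := hq.ne
  have hval := pr_comul hq P0 Q0 P Q _ _ (int2_split hq hab hbc hcd hd (ind P0 (co P0))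
    (ind Q0 (co Q0)) (co P0) (co Q0) (fun z => σ a z d))
  rw [if_pos h2, if_neg (by rw [h1]; decide)] at hval
  rw [case_i hne (st_inj hab hbc hcd) (actX hab hbc hcd hne _ _ _) (actY hab hbc hcd hne _ _ _)
    (actZ hab hbc hcd hne _ _ _)] at hval
  have hz := h _ (rootv_mem (σ := σ) (hab.trans (hbc.trans hcd)) hd)
  have hk := tf_kill (Λ := phi n hq P0 P) (Ψ := phi n hq Q0 Q) (kill_T ?_ ?_ ?_) ?_ hz
  · rw [pr_eq_tf] at hk
    unfold rootv at hk
    rw [hk] at hval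
    have hz2 : ∀ (R : St) (i : ℕ), q ^ wt i R ≠ 0 := fun R i => zpow_ne_zero _ hne
    exact mul_ne_zero (mul_ne_zero (mul_ne_zero (mul_ne_zero (kp_ne hne _ _ _ _)
      (kp_ne hne _ _ _ _)) (kp_ne hne _ _ _ _)) (mul_ne_zero (mul_ne_zero
      (cp_ne (fun i => mul_ne_zero (hz2 _ _) (hz2 _ _)) _ _) (cp_ne (fun i => hz2 _ _) _ _))
      (cp_ne (fun i => mul_ne_zero (hz2 _ _) (hz2 _ _)) _ _))) (num_i hq) hval.symm
  · intro x y hxy hy
    unfold rootv
    rw [phi_root hq P0 P _ hxy hy, if_neg]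
    rintro ⟨_, _, h5⟩
    have k : ∀ z, P z ≠ P0 z → z = x ∨ z = y := by
      intro z hz
      by_contra hcon
      push Not at hcon
      apply hz
      rw [← h5, mv_ne _ hcon.1 hcon.2]
    have ka := k a (by rw [hP, hP0, st_a hab hbc hcd, st_a hab hbc hcd]; decide)
    have kb := k b (by rw [hP, hP0, st_b hab hbc hcd, st_b hab hbc hcd]; decide)
    have kc := k c (by rw [hP, hP0, st_c hab hbc hcd, st_c hab hbc hcd]; decide)
    omega
  · apply phi_one
    intro he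
    have := congrFun he a
    rw [hP, hP0, st_a hab hbc hcd, st_a hab hbc hcd] at this
    exact absurd this (by decide)
  · intro x hx; exact phi_J hq P0 P hx
  · intro x hx; exact phi_J hq Q0 Q hx

end

end Pool.Agent.H387.QT
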