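import Pool.Agent.H387.QT.Crit

/-!
# The criterion for right tangent spaces: end of the proof
-/

open scoped TensorProduct

namespace Pool.Agent.H387.QT

variable {n : ℕ} {q : ℂ}

section

variable (hq : NRU q) {a b c d : ℕ} (hab : a < b) (hbc : b < c) (hcd : c < d) (hd : d ≤ n)

theorem val_kf (q : ℂ) (s p : Bool) :
    (if s = p then -q⁻¹ * (1 - q⁻¹ * q⁻¹) else (1 - q⁻¹ * q⁻¹)) =
      -(1 - q⁻¹ * q⁻¹) * kf q s p := by
  unfold kf
  split_ifs <;> ring

theorem det_kf (hq : NRU q) {s s' : Bool} (h : s' ≠ s) :
    kf q s' true * kf q s false - kf q s' false * kf q s true ≠ 0 := by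
  have hne := hq.ne
  have hq2 := hq.q2
  have key : 1 - q⁻¹ * q⁻¹ ≠ 0 := by
    have : 1 - q⁻¹ * q⁻¹ = (q ^ 2 - 1) * (q⁻¹ * q⁻¹) := by field_simp
    rw [this]
    exact mul_ne_zero hq2 (mul_ne_zero (inv_ne_zero hne) (inv_ne_zero hne))
  have key' : q⁻¹ * q⁻¹ - 1 ≠ 0 := by
    intro h; apply key; linear_combination -h
  cases s <;> cases s'
  · exact absurd rfl h
  · simp only [kf, if_true, if_neg (show ¬ (true = false) by decide),
      if_neg (show ¬ (false = true) by decide)]
    convert key' using 1; ring
  · simp only [kf, if_true, if_neg (show ¬ (true = false) by decide),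
      if_neg (show ¬ (false = true) by decide)]
    convert key using 1; ring
  · exact absurd rfl h

theorem one_sub_ne (hq : NRU q) : -(1 - q⁻¹ * q⁻¹) ≠ 0 := by
  have hne := hq.ne
  have hq2 := hq.q2
  have : -(1 - q⁻¹ * q⁻¹) = -((q ^ 2 - 1) * (q⁻¹ * q⁻¹)) := by field_simp
  rw [this]
  exact neg_ne_zero.mpr (mul_ne_zero hq2 (mul_ne_zero (inv_ne_zero hne) (inv_ne_zero hne)))

theorem cp_wt2 (hq : q ≠ 0) (R R' : St) {a c : ℕ} (hac : a < c) :
    cp (fun i => q ^ wt i R * q ^ wt i R') a (c - a - 1) =
      q ^ (bit (R a) - bit (R c)) * q ^ (bit (R' a) - bit (R' c)) := by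
  have e : a + (c - a - 1) + 1 = c := by omega
  rw [cp_mul, cp_wt hq, cp_wt hq, e]

theorem cp_wt1 (hq : q ≠ 0) (R : St) {a c : ℕ} (hac : a < c) :
    cp (fun i => q ^ wt i R) a (c - a - 1) = q ^ (bit (R a) - bit (R c)) := by
  have e : a + (c - a - 1) + 1 = c := by omega
  rw [cp_wt hq, e]

include hab hbc hcd hd in
theorem only_ii {σ : ℕ → ℕ → ℕ → Bool} (h : FlagRight hq (TT n q σ)) (h1 : σ a c d = false) :
    σ a b c = σ a b d := by
  by_contra hcon
  have hne := hq.ne
  set Q0 := st a b c d false false false true with hQ0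
  set Q := st a b c d false false true false with hQ
  -- the left functionals
  let P0 : Bool → St := fun p => st a b c d false p true false
  let P : Bool → St := fun p => st a b c d true p false false
  have hval : ∀ p, tf (phi n hq (P0 p) (P p)) (phi n hq Q0 Q)
      (Uq.comul n hq (rootv n q σ a d)) = (kp q (fun z => σ a z d) (fun _ => false) a (b - a - 1) *
        kp q (fun z => σ a z d) (fun _ => false) b (c - b - 1) *
        kp q (fun z => σ a z d) (fun _ => false) c (d - c - 1)) * q *
        (q ^ (bit (co Q0 a) - bit (co Q0 b)) * q ^ (bit (co Q0 b) - bit (co Q0 c)) *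
          q ^ (bit (co Q0 c) - bit (co Q0 d))) *
        (-(1 - q⁻¹ * q⁻¹) * kf q (σ a b d) p) := by
    intro p
    have := pr_comul hq (P0 p) Q0 (P p) Q _ _ (int2_split hq hab hbc hcd hd
      (ind (P0 p) (co (P0 p))) (ind Q0 (co Q0)) (co (P0 p)) (co Q0) (fun z => σ a z d))
    rw [if_neg (by rw [h1]; decide)] at this
    rw [case_ii hne (st_inj hab hbc hcd) (actX hab hbc hcd hne _ _ _) (actY hab hbc hcd hne _ _ _)
      (actZ hab hbc hcd hne _ _ _), val_kf, cp_wt2 hne _ _ hab, cp_wt2 hne _ _ hbc,
      cp_wt1 hne _ hcd] at this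
    rw [pr_eq_tf]
    unfold rootv
    rw [this]
    have ea : co (P0 p) a = true := by
      show (!st a b c d false p true false a) = true
      rw [st_a hab hbc hcd]; rfl
    have ec : co (P0 p) c = false := by
      show (!st a b c d false p true false c) = false
      rw [st_c hab hbc hcd]; rfl
    rw [ea, ec]
    have e0 : q ^ (bit true - bit (co (P0 p) b)) * q ^ (bit (co (P0 p) b) - bit false) = q := by
      rw [← zpow_add₀ hne]
      have : bit true - bit (co (P0 p) b) + (bit (co (P0 p) b) - bit false) = 1 := by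
        simp [bit]
      rw [this, zpow_one]
    linear_combination (kp q (fun z => σ a z d) (fun _ => false) a (b - a - 1) *
        kp q (fun z => σ a z d) (fun _ => false) b (c - b - 1) *
        kp q (fun z => σ a z d) (fun _ => false) c (d - c - 1)) *
        (q ^ (bit (co Q0 a) - bit (co Q0 b)) * q ^ (bit (co Q0 b) - bit (co Q0 c)) *
          q ^ (bit (co Q0 c) - bit (co Q0 d))) *
        (-(1 - q⁻¹ * q⁻¹) * kf q (σ a b d) p) * e0
  have hphi : ∀ p x y, x < y → y ≤ n → phi n hq (P0 p) (P p) (rootv n q σ x y) =
      if x = a ∧ y = c then kp q (fun z => σ a z c) (fun _ => false) a (b - a - 1) *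
        kp q (fun z => σ a z c) (fun _ => false) b (c - b - 1) * q * kf q (σ a b c) p else 0 := by
    intro p x y hxy hy
    unfold rootv
    rw [phi_root hq _ _ _ hxy hy]
    have ka : P p a = true := st_a hab hbc hcd _ _ _ _
    have ka0 : P0 p a = false := st_a hab hbc hcd _ _ _ _
    have kc : P p c = false := st_c hab hbc hcd _ _ _ _
    have kc0 : P0 p c = true := st_c hab hbc hcd _ _ _ _
    by_cases hxyac : x = a ∧ y = c
    · obtain ⟨rfl, rfl⟩ := hxyac
      have hmv : mv x y (P p) = P0 p := by
        funext z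
        by_cases h1 : z = x
        · rw [h1, mv_left, kc, ka0]
        · by_cases h2 : z = y
          · rw [h2, mv_right, kc0, ka]
          · rw [mv_ne _ h1 h2]
            show st x b y d true p false false z = st x b y d false p true false z
            unfold st
            rw [if_neg h1, if_neg h1, if_neg h2, if_neg h2]
      rw [if_pos ⟨ka, kc, hmv⟩, if_pos ⟨rfl, rfl⟩]
      have e3 : y - x - 1 = (b - x - 1) + 1 + (y - b - 1) := by omega
      have e4 : x + (b - x - 1) + 1 = b := by omega
      have kb : P p b = p := st_b hab hbc hcd _ _ _ _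
      rw [e3, kp_split, e4, kb]
      have k1 : kp q (fun z => σ x z y) (P p) x (b - x - 1) =
          kp q (fun z => σ x z y) (fun _ => false) x (b - x - 1) := kp_congr q fun z h3 h4 =>
        ⟨rfl, st_other (by omega) (by omega) (by omega) (by omega) _ _ _ _⟩
      have k2 : kp q (fun z => σ x z y) (P p) b (y - b - 1) =
          kp q (fun z => σ x z y) (fun _ => false) b (y - b - 1) := kp_congr q fun z h3 h4 =>
        ⟨rfl, st_other (by omega) (by omega) (by omega) (by omega) _ _ _ _⟩
      rw [k1, k2]
      have ea : co (P0 p) x = true := by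
        show (!P0 p x) = true
        rw [ka0]; rfl
      have ec : co (P0 p) y = false := by
        show (!P0 p y) = false
        rw [kc0]; rfl
      rw [ea, ec]
      have : bit true - bit false = 1 := by simp [bit]
      rw [this, zpow_one]
      ring
    · rw [if_neg hxyac, if_neg]
      rintro ⟨_, _, h5⟩
      have k : ∀ z, P p z ≠ P0 p z → z = x ∨ z = y := by
        intro z hz
        by_contra hcon
        push Not at hcon
        apply hz
        rw [← h5, mv_ne _ hcon.1 hcon.2]
      have k1 := k a (by rw [ka, ka0]; decide)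
      have k2 := k c (by rw [kc, kc0]; decide)
      apply hxyac
      omega
  -- the combination
  set Λ := kf q (σ a b c) true • phi n hq (P0 false) (P false)
    + (-kf q (σ a b c) false) • phi n hq (P0 true) (P true) with hΛ
  have hz := h _ (rootv_mem (σ := σ) (hab.trans (hbc.trans hcd)) hd)
  have hk := tf_kill (Λ := Λ) (Ψ := phi n hq Q0 Q) (kill_T ?_ ?_ ?_) ?_ hz
  · rw [hΛ, tf_comb, hval, hval] at hk
    have hdet := det_kf hq hcon
    have h1' := one_sub_ne hq
    have hfac : (kp q (fun z => σ a z d) (fun _ => false) a (b - a - 1) *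
        kp q (fun z => σ a z d) (fun _ => false) b (c - b - 1) *
        kp q (fun z => σ a z d) (fun _ => false) c (d - c - 1)) * q *
        (q ^ (bit (co Q0 a) - bit (co Q0 b)) * q ^ (bit (co Q0 b) - bit (co Q0 c)) *
          q ^ (bit (co Q0 c) - bit (co Q0 d))) ≠ 0 :=
      mul_ne_zero (mul_ne_zero (mul_ne_zero (mul_ne_zero (kp_ne hne _ _ _ _)
        (kp_ne hne _ _ _ _)) (kp_ne hne _ _ _ _)) hne) (mul_ne_zero (mul_ne_zero
        (zpow_ne_zero _ hne) (zpow_ne_zero _ hne)) (zpow_ne_zero _ hne))
    apply mul_ne_zero (mul_ne_zero hfac h1') hdet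
    linear_combination hk
  · intro x y hxy hy
    rw [hΛ, LinearMap.add_apply, LinearMap.smul_apply, LinearMap.smul_apply, hphi _ x y hxy hy,
      hphi _ x y hxy hy]
    split_ifs
    · simp only [smul_eq_mul]; ring
    · simp
  · have hne' : ∀ p, P p ≠ P0 p := by
      intro p he
      have := congrFun he a
      change st a b c d true p false false a = st a b c d false p true false a at this
      rw [st_a hab hbc hcd, st_a hab hbc hcd] at this
      exact absurd this (by decide)
    rw [hΛ, LinearMap.add_apply, LinearMap.smul_apply, LinearMap.smul_apply,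
      phi_one hq (hne' _), phi_one hq (hne' _)]
    simp
  · intro x hx
    rw [hΛ, LinearMap.add_apply, LinearMap.smul_apply, LinearMap.smul_apply, phi_J hq _ _ hx,
      phi_J hq _ _ hx]
    simp
  · intro x hx; exact phi_J hq Q0 Q hx

include hab hbc hcd hd in
theorem only_iii {σ : ℕ → ℕ → ℕ → Bool} (h : FlagRight hq (TT n q σ)) (h1 : σ a b d = true) :
    σ b c d = σ a c d := by
  by_contra hcon
  have hne := hq.ne
  set Q0 := st a b c d false true false false with hQ0
  set Q := st a b c d true false false false with hQ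
  -- the left functionals
  let P0 : Bool → St := fun p => st a b c d false false p true
  let P : Bool → St := fun p => st a b c d false true p false
  have hval : ∀ p, tf (phi n hq (P0 p) (P p)) (phi n hq Q0 Q)
      (Uq.comul n hq (rootv n q σ a d)) = (kp q (fun z => σ a z d) (fun _ => false) a (b - a - 1) *
        kp q (fun z => σ a z d) (fun _ => false) b (c - b - 1) *
        kp q (fun z => σ a z d) (fun _ => false) c (d - c - 1)) * q *
        (q ^ (bit (co Q0 a) - bit (co Q0 b)) * q ^ (bit (co Q0 b) - bit (co Q0 c)) *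
          q ^ (bit (co Q0 c) - bit (co Q0 d)) * q) *
        (-(1 - q⁻¹ * q⁻¹) * kf q (σ a c d) p) := by
    intro p
    have := pr_comul hq (P0 p) Q0 (P p) Q _ _ (int2_split hq hab hbc hcd hd
      (ind (P0 p) (co (P0 p))) (ind Q0 (co Q0)) (co (P0 p)) (co Q0) (fun z => σ a z d))
    rw [if_pos h1] at this
    rw [case_iii hne (st_inj hab hbc hcd) (actX hab hbc hcd hne _ _ _) (actY hab hbc hcd hne _ _ _)
      (actZ hab hbc hcd hne _ _ _), val_kf, cp_wt1 hne _ hab, cp_wt2 hne _ _ hbc,
      cp_wt2 hne _ _ hcd] at this
    rw [pr_eq_tf]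
    unfold rootv
    rw [this]
    have ea : co (P0 p) b = true := by
      show (!st a b c d false false p true b) = true
      rw [st_b hab hbc hcd]; rfl
    have ec : co (P0 p) d = false := by
      show (!st a b c d false false p true d) = false
      rw [st_d hab hbc hcd]; rfl
    rw [ea, ec]
    have e0 : q ^ (bit true - bit (co (P0 p) c)) * q ^ (bit (co (P0 p) c) - bit false) = q := by
      rw [← zpow_add₀ hne]
      have : bit true - bit (co (P0 p) c) + (bit (co (P0 p) c) - bit false) = 1 := by
        simp [bit]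
      rw [this, zpow_one]
    linear_combination (kp q (fun z => σ a z d) (fun _ => false) a (b - a - 1) *
        kp q (fun z => σ a z d) (fun _ => false) b (c - b - 1) *
        kp q (fun z => σ a z d) (fun _ => false) c (d - c - 1)) *
        (q ^ (bit (co Q0 a) - bit (co Q0 b)) * q ^ (bit (co Q0 b) - bit (co Q0 c)) *
          q ^ (bit (co Q0 c) - bit (co Q0 d)) * q) *
        (-(1 - q⁻¹ * q⁻¹) * kf q (σ a c d) p) * e0
  have hphi : ∀ p x y, x < y → y ≤ n → phi n hq (P0 p) (P p) (rootv n q σ x y) =
      if x = b ∧ y = d then kp q (fun z => σ b z d) (fun _ => false) b (c - b - 1) *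
        kp q (fun z => σ b z d) (fun _ => false) c (d - c - 1) * q * kf q (σ b c d) p else 0 := by
    intro p x y hxy hy
    unfold rootv
    rw [phi_root hq _ _ _ hxy hy]
    have ka : P p b = true := st_b hab hbc hcd _ _ _ _
    have ka0 : P0 p b = false := st_b hab hbc hcd _ _ _ _
    have kc : P p d = false := st_d hab hbc hcd _ _ _ _
    have kc0 : P0 p d = true := st_d hab hbc hcd _ _ _ _
    by_cases hxyac : x = b ∧ y = d
    · obtain ⟨rfl, rfl⟩ := hxyac
      have hmv : mv x y (P p) = P0 p := by
        funext z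
        by_cases h1 : z = x
        · rw [h1, mv_left, kc, ka0]
        · by_cases h2 : z = y
          · rw [h2, mv_right, kc0, ka]
          · rw [mv_ne _ h1 h2]
            show st a x c y false true p false z = st a x c y false false p true z
            unfold st
            rw [if_neg h1, if_neg h1, if_neg h2, if_neg h2]
      rw [if_pos ⟨ka, kc, hmv⟩, if_pos ⟨rfl, rfl⟩]
      have e3 : y - x - 1 = (c - x - 1) + 1 + (y - c - 1) := by omega
      have e4 : x + (c - x - 1) + 1 = c := by omega
      have kb : P p c = p := st_c hab hbc hcd _ _ _ _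
      rw [e3, kp_split, e4, kb]
      have k1 : kp q (fun z => σ x z y) (P p) x (c - x - 1) =
          kp q (fun z => σ x z y) (fun _ => false) x (c - x - 1) := kp_congr q fun z h3 h4 =>
        ⟨rfl, st_other (by omega) (by omega) (by omega) (by omega) _ _ _ _⟩
      have k2 : kp q (fun z => σ x z y) (P p) c (y - c - 1) =
          kp q (fun z => σ x z y) (fun _ => false) c (y - c - 1) := kp_congr q fun z h3 h4 =>
        ⟨rfl, st_other (by omega) (by omega) (by omega) (by omega) _ _ _ _⟩
      rw [k1, k2]
      have ea : co (P0 p) x = true := by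
        show (!P0 p x) = true
        rw [ka0]; rfl
      have ec : co (P0 p) y = false := by
        show (!P0 p y) = false
        rw [kc0]; rfl
      rw [ea, ec]
      have : bit true - bit false = 1 := by simp [bit]
      rw [this, zpow_one]
      ring
    · rw [if_neg hxyac, if_neg]
      rintro ⟨_, _, h5⟩
      have k : ∀ z, P p z ≠ P0 p z → z = x ∨ z = y := by
        intro z hz
        by_contra hcon
        push Not at hcon
        apply hz
        rw [← h5, mv_ne _ hcon.1 hcon.2]
      have k1 := k b (by rw [ka, ka0]; decide)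
      have k2 := k d (by rw [kc, kc0]; decide)
      apply hxyac
      omega
  -- the combination
  set Λ := kf q (σ b c d) true • phi n hq (P0 false) (P false)
    + (-kf q (σ b c d) false) • phi n hq (P0 true) (P true) with hΛ
  have hz := h _ (rootv_mem (σ := σ) (hab.trans (hbc.trans hcd)) hd)
  have hk := tf_kill (Λ := Λ) (Ψ := phi n hq Q0 Q) (kill_T ?_ ?_ ?_) ?_ hz
  · rw [hΛ, tf_comb, hval, hval] at hk
    have hdet := det_kf hq hcon
    have h1' := one_sub_ne hq
    have hfac : (kp q (fun z => σ a z d) (fun _ => false) a (b - a - 1) *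
        kp q (fun z => σ a z d) (fun _ => false) b (c - b - 1) *
        kp q (fun z => σ a z d) (fun _ => false) c (d - c - 1)) * q *
        (q ^ (bit (co Q0 a) - bit (co Q0 b)) * q ^ (bit (co Q0 b) - bit (co Q0 c)) *
          q ^ (bit (co Q0 c) - bit (co Q0 d)) * q) ≠ 0 :=
      mul_ne_zero (mul_ne_zero (mul_ne_zero (mul_ne_zero (kp_ne hne _ _ _ _)
        (kp_ne hne _ _ _ _)) (kp_ne hne _ _ _ _)) hne) (mul_ne_zero (mul_ne_zero (mul_ne_zero
        (zpow_ne_zero _ hne) (zpow_ne_zero _ hne)) (zpow_ne_zero _ hne)) hne)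
    apply mul_ne_zero (mul_ne_zero hfac h1') hdet
    linear_combination hk
  · intro x y hxy hy
    rw [hΛ, LinearMap.add_apply, LinearMap.smul_apply, LinearMap.smul_apply, hphi _ x y hxy hy,
      hphi _ x y hxy hy]
    split_ifs
    · simp only [smul_eq_mul]; ring
    · simp
  · have hne' : ∀ p, P p ≠ P0 p := by
      intro p he
      have := congrFun he b
      change st a b c d false true p false b = st a b c d false false p true b at this
      rw [st_b hab hbc hcd, st_b hab hbc hcd] at this
      exact absurd this (by decide)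
    rw [hΛ, LinearMap.add_apply, LinearMap.smul_apply, LinearMap.smul_apply,
      phi_one hq (hne' _), phi_one hq (hne' _)]
    simp
  · intro x hx
    rw [hΛ, LinearMap.add_apply, LinearMap.smul_apply, LinearMap.smul_apply, phi_J hq _ _ hx,
      phi_J hq _ _ hx]
    simp
  · intro x hx; exact phi_J hq Q0 Q hx

end

theorem rp_of_flagRight (hq : NRU q) {σ : ℕ → ℕ → ℕ → Bool} (h : FlagRight hq (TT n q σ)) :
    RP n σ := fun _ _ _ _ hab hbc hcd hd =>
  ⟨only_i hq hab hbc hcd hd h, only_ii hq hab hbc hcd hd h, only_iii hq hab hbc hcd hd h⟩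

end Pool.Agent.H387.QT
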