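import Pool.Agent.H387.QT.Crit2

/-!
# Right tangent spaces
-/

open scoped TensorProduct

namespace Pool.Agent.H387.QT

variable {n : ℕ} {q : ℂ}

/-- A right tangent space inside `U`: a subspace `T` of the kernel of the counit with
`Δ(T ⊕ ℂ1) ⊆ (T ⊕ ℂ1) ⊗ U`. -/
def IsRightTangent (hq : NRU q) (T : Submodule ℂ (Uq n q)) : Prop :=
  (∀ x ∈ T, Uq.counit n q x = 0) ∧
    ∀ x ∈ T ⊔ Submodule.span ℂ {1}, Uq.comul n hq x ∈ tens (T ⊔ Submodule.span ℂ {1}) ⊤

/-- A left tangent space inside `U`: a subspace `T` of the kernel of the counit with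
`Δ(T ⊕ ℂ1) ⊆ U ⊗ (T ⊕ ℂ1)`. -/
def IsLeftTangent (hq : NRU q) (T : Submodule ℂ (Uq n q)) : Prop :=
  (∀ x ∈ T, Uq.counit n q x = 0) ∧
    ∀ x ∈ T ⊔ Submodule.span ℂ {1}, Uq.comul n hq x ∈ tens ⊤ (T ⊔ Submodule.span ℂ {1})

theorem tmul_mem_tens {A : Type*} [AddCommGroup A] [Module ℂ A] {S T : Submodule ℂ A} {s t : A}
    (hs : s ∈ S) (ht : t ∈ T) : s ⊗ₜ[ℂ] t ∈ tens S T :=
  Submodule.subset_span ⟨s, hs, t, ht, rfl⟩

theorem tens_mono {A : Type*} [AddCommGroup A] [Module ℂ A] {S S' T T' : Submodule ℂ A}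
    (hS : S ≤ S') (hT : T ≤ T') : tens S T ≤ tens S' T' := by
  apply Submodule.span_le.mpr
  rintro z ⟨s, hs, t, ht, rfl⟩
  exact tmul_mem_tens (hS hs) (hT ht)

theorem bv_zero_fun {R : Type*} [Ring R] [Algebra ℂ R] (e : ℕ → R) (he : ∀ i, e i = 0)
    (s : ℕ → Bool) (a m : ℕ) : bv q e s a m = 0 := by
  induction m with
  | zero => exact he a
  | succ m ih =>
    rw [bv, ih, he]
    split_ifs <;> simp [qb]

theorem counit_rootv (σ : ℕ → ℕ → ℕ → Bool) (a c : ℕ) :
    Uq.counit n q (rootv n q σ a c) = 0 := by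
  unfold rootv
  rw [map_bv]
  apply bv_zero_fun
  intro i
  by_cases h : i < n
  · rw [Uq.E'_of_lt h, Uq.counit_E]
  · rw [Uq.E'_of_ge (by omega), map_zero]

theorem counit_TT (σ : ℕ → ℕ → ℕ → Bool) : ∀ x ∈ TT n q σ, Uq.counit n q x = 0 := by
  intro x hx
  induction hx using Submodule.span_induction with
  | mem x hx => obtain ⟨a, c, _, _, rfl⟩ := hx; exact counit_rootv σ a c
  | zero => exact map_zero _
  | add x y _ _ h1 h2 => rw [map_add, h1, h2, add_zero]
  | smul r x _ h1 => rw [map_smul, h1, smul_zero]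

/-- structure of the signs under the right pattern -/
theorem peak {σ : ℕ → ℕ → ℕ → Bool} (h : RP n σ) {a d : ℕ} (had : a < d) (hd : d ≤ n) :
    ∃ M, a ≤ M ∧ M < d ∧ ∀ x y z, a ≤ x → x ≤ M → M < y → y ≤ d → x < z → z < y →
      σ x z y = decide (z ≤ M) := by
  classical
  -- the last positive sign
  obtain ⟨M, haM, hMd, hM⟩ : ∃ M, a ≤ M ∧ M < d ∧ ∀ z, a < z → z < d →
      σ a z d = decide (z ≤ M) := by
    by_cases hex : ∃ z, a < z ∧ z < d ∧ σ a z d = true
    · -- greatest such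
      obtain ⟨z0, hz0⟩ := hex
      let Pz : ℕ → Prop := fun z => a < z ∧ z < d ∧ σ a z d = true
      have hP : Pz (Nat.findGreatest Pz d) := Nat.findGreatest_spec (P := Pz) (by omega) hz0
      refine ⟨Nat.findGreatest Pz d, hP.1.le, hP.2.1, fun z h1 h2 => ?_⟩
      by_cases hzM : z ≤ Nat.findGreatest Pz d
      · rw [decide_eq_true hzM]
        by_contra hcon
        have hcon' : σ a z d = false := by simpa using hcon
        rcases hzM.eq_or_lt with heq | hlt
        · rw [heq, hP.2.2] at hcon'; exact absurd hcon' (by decide)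
        · exact (h a z _ d h1 hlt hP.2.1 hd).1 ⟨hcon', hP.2.2⟩
      · rw [decide_eq_false hzM]
        by_contra hcon
        have hcon' : σ a z d = true := by simpa using hcon
        exact Nat.findGreatest_is_greatest (P := Pz) (n := d) (by omega) (by omega)
          ⟨h1, h2, hcon'⟩
    · refine ⟨a, le_rfl, had, fun z h1 h2 => ?_⟩
      rw [decide_eq_false (by omega)]
      by_contra hcon
      exact hex ⟨z, h1, h2, by simpa using hcon⟩
  refine ⟨M, haM, hMd, ?_⟩
  have h1 : ∀ y z, M < y → y ≤ d → a < z → z < y → σ a z y = decide (z ≤ M) := by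
    intro y z hMy hyd haz hzy
    rcases hyd.eq_or_lt with rfl | hlt
    · exact hM z haz hzy
    · have h2 := (h a z y d haz hzy hlt hd).2.1
      rw [hM y (by omega) hlt, hM z haz (by omega)] at h2
      exact h2 (decide_eq_false (by omega))
  intro x y z hax hxM hMy hyd hxz hzy
  rcases hax.eq_or_lt with rfl | hlt
  · exact h1 y z hMy hyd hxz hzy
  · have h2 := (h a x z y hlt hxz hzy (by omega)).2.2
    rw [h1 y x hMy hyd hlt (by omega), h1 y z hMy hyd (by omega) hzy] at h2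
    exact h2 (decide_eq_true hxM)

theorem if_right (hq : NRU q) {σ : ℕ → ℕ → ℕ → Bool} (h : RP n σ) {a d : ℕ} (had : a < d)
    (hd : d ≤ n) : Uq.comul n hq (rootv n q σ a d) ∈ tens (TT n q σ ⊔ Submodule.span ℂ {1}) ⊤ := by
  obtain ⟨M, haM, hMd, hM⟩ := peak h had hd
  have key := phase2 (n := n) hq a M haM (d - M - 1) (by omega) (fun z => decide (z ≤ M))
    (fun z => rfl)
  have e1 : M + (d - M - 1) - a = d - a - 1 := by omega
  have e2 : M + (d - M - 1) + 1 = d := by omega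
  rw [e1, e2] at key
  have hb : ∀ x y, a ≤ x → x ≤ M → M < y → y ≤ d →
      rootv n q σ x y = bv q (Uq.E' n q) (fun z => decide (z ≤ M)) x (y - x - 1) := by
    intro x y h1 h2 h3 h4
    unfold rootv
    exact bv_congr _ _ _ fun z h5 h6 => hM x y z h1 h2 h3 h4 h5 (by omega)
  rw [← hb a d le_rfl haM hMd le_rfl] at key
  have h1 : (1 : Uq n q) ⊗ₜ[ℂ] rootv n q σ a d ∈ tens (TT n q σ ⊔ Submodule.span ℂ {1}) ⊤ :=
    tmul_mem_tens (Submodule.mem_sup_right (Submodule.subset_span rfl)) Submodule.mem_top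
  have h2 : Submodule.span ℂ {z | ∃ x y u, a ≤ x ∧ x ≤ M ∧ M < y ∧ y ≤ d ∧
        H2 n q d y u ∧ z = bv q (Uq.E' n q) (fun z => decide (z ≤ M)) x (y - x - 1) ⊗ₜ[ℂ] u}
        ≤ tens (TT n q σ ⊔ Submodule.span ℂ {1}) ⊤ := by
    apply Submodule.span_le.mpr
    rintro z ⟨x, y, u, h1, h2, h3, h4, _, rfl⟩
    rw [← hb x y h1 h2 h3 h4]
    exact tmul_mem_tens (Submodule.mem_sup_left (rootv_mem (by omega) (by omega)))
      Submodule.mem_top
  have := Submodule.add_mem _ h1 (h2 key)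
  rwa [add_sub_cancel] at this

theorem isRightTangent_of_rp (hq : NRU q) {σ : ℕ → ℕ → ℕ → Bool} (h : RP n σ) :
    IsRightTangent hq (TT n q σ) := by
  refine ⟨counit_TT σ, ?_⟩
  have h1 : TT n q σ ⊔ Submodule.span ℂ {1} ≤
      Submodule.comap (Uq.comul n hq).toLinearMap (tens (TT n q σ ⊔ Submodule.span ℂ {1}) ⊤) := by
    apply sup_le
    · apply Submodule.span_le.mpr
      rintro x ⟨a, d, had, hd, rfl⟩
      exact if_right hq h had hd
    · apply Submodule.span_le.mpr
      intro x hx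
      rw [Set.mem_singleton_iff.mp hx]
      change Uq.comul n hq 1 ∈ tens (TT n q σ ⊔ Submodule.span ℂ {1}) ⊤
      rw [map_one, Algebra.TensorProduct.one_def]
      exact tmul_mem_tens (Submodule.mem_sup_right (Submodule.subset_span rfl)) Submodule.mem_top
  intro x hx
  exact h1 hx

theorem flagRight_of_isRightTangent (hq : NRU q) {T : Submodule ℂ (Uq n q)}
    (h : IsRightTangent hq T) : FlagRight hq T := by
  intro x hx
  exact Submodule.mem_sup_left (tens_mono le_sup_left le_rfl (h.2 x (Submodule.mem_sup_left hx)))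

/-- **The criterion for right tangent spaces.** -/
theorem right_iff (hq : NRU q) (σ : ℕ → ℕ → ℕ → Bool) :
    (IsRightTangent hq (TT n q σ) ↔ RP n σ) ∧ (FlagRight hq (TT n q σ) ↔ RP n σ) :=
  ⟨⟨fun h => rp_of_flagRight hq (flagRight_of_isRightTangent hq h), isRightTangent_of_rp hq⟩,
    ⟨rp_of_flagRight hq, fun h => flagRight_of_isRightTangent hq (isRightTangent_of_rp hq h)⟩⟩

end Pool.Agent.H387.QT
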