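import Pool.Agent.H387.QT.Abs

/-!
# The quantized enveloping algebra `U_q(sl_{n+1})`

The index `i : Fin n` stands for the node `i + 1` of the Dynkin diagram of type `A_n`.
-/

open scoped TensorProduct

namespace Pool.Agent.H387.QT

/-- The names of the generators `E_i`, `F_i`, `K_i`, `K_i⁻¹`. -/
inductive Gen (n : ℕ) : Type
  | E : Fin n → Gen n
  | F : Fin n → Gen n
  | K : Fin n → Gen n
  | L : Fin n → Gen n

/-- The Cartan matrix of type `A_n`. -/
def cartan {n : ℕ} (i j : Fin n) : ℤ :=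
  if i = j then 2 else if (i : ℕ) + 1 = j ∨ (j : ℕ) + 1 = i then -1 else 0

/-- The defining relations of `U_q(sl_{n+1})`, for the images `e i`, `f i`, `k i`, `l i` of the
generators `E_i`, `F_i`, `K_i`, `K_i⁻¹` in some algebra. -/
structure IsRep {n : ℕ} {A : Type*} [Ring A] [Algebra ℂ A] (q : ℂ) (e f k l : Fin n → A) :
    Prop where
  kl : ∀ i, k i * l i = 1
  lk : ∀ i, l i * k i = 1
  kk : ∀ i j, k i * k j = k j * k i
  ke : ∀ i j, k i * e j = q ^ cartan i j • (e j * k i)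
  kf : ∀ i j, k i * f j = q ^ (-cartan i j) • (f j * k i)
  ef : ∀ i j, e i * f j - f j * e i = if i = j then (q - q⁻¹)⁻¹ • (k i - l i) else 0
  ee : ∀ i j, cartan i j = 0 → e i * e j = e j * e i
  ff : ∀ i j, cartan i j = 0 → f i * f j = f j * f i
  se : ∀ i j, cartan i j = -1 → Serre q (e i) (e j)
  sf : ∀ i j, cartan i j = -1 → Serre q (f i) (f j)

/-- The defining relations, as a relation on the free algebra. -/
inductive Rel (n : ℕ) (q : ℂ) : FreeAlgebra ℂ (Gen n) → FreeAlgebra ℂ (Gen n) → Prop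
  | kl (i : Fin n) : Rel n q (FreeAlgebra.ι ℂ (Gen.K i) * FreeAlgebra.ι ℂ (Gen.L i)) 1
  | lk (i : Fin n) : Rel n q (FreeAlgebra.ι ℂ (Gen.L i) * FreeAlgebra.ι ℂ (Gen.K i)) 1
  | kk (i j : Fin n) : Rel n q (FreeAlgebra.ι ℂ (Gen.K i) * FreeAlgebra.ι ℂ (Gen.K j))
      (FreeAlgebra.ι ℂ (Gen.K j) * FreeAlgebra.ι ℂ (Gen.K i))
  | ke (i j : Fin n) : Rel n q (FreeAlgebra.ι ℂ (Gen.K i) * FreeAlgebra.ι ℂ (Gen.E j))
      (q ^ cartan i j • (FreeAlgebra.ι ℂ (Gen.E j) * FreeAlgebra.ι ℂ (Gen.K i)))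
  | kf (i j : Fin n) : Rel n q (FreeAlgebra.ι ℂ (Gen.K i) * FreeAlgebra.ι ℂ (Gen.F j))
      (q ^ (-cartan i j) • (FreeAlgebra.ι ℂ (Gen.F j) * FreeAlgebra.ι ℂ (Gen.K i)))
  | ef (i j : Fin n) : Rel n q
      (FreeAlgebra.ι ℂ (Gen.E i) * FreeAlgebra.ι ℂ (Gen.F j)
        - FreeAlgebra.ι ℂ (Gen.F j) * FreeAlgebra.ι ℂ (Gen.E i))
      (if i = j then (q - q⁻¹)⁻¹ • (FreeAlgebra.ι ℂ (Gen.K i) - FreeAlgebra.ι ℂ (Gen.L i)) else 0)
  | ee (i j : Fin n) (h : cartan i j = 0) : Rel n q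
      (FreeAlgebra.ι ℂ (Gen.E i) * FreeAlgebra.ι ℂ (Gen.E j))
      (FreeAlgebra.ι ℂ (Gen.E j) * FreeAlgebra.ι ℂ (Gen.E i))
  | ff (i j : Fin n) (h : cartan i j = 0) : Rel n q
      (FreeAlgebra.ι ℂ (Gen.F i) * FreeAlgebra.ι ℂ (Gen.F j))
      (FreeAlgebra.ι ℂ (Gen.F j) * FreeAlgebra.ι ℂ (Gen.F i))
  | se (i j : Fin n) (h : cartan i j = -1) : Rel n q
      (FreeAlgebra.ι ℂ (Gen.E i) * FreeAlgebra.ι ℂ (Gen.E i) * FreeAlgebra.ι ℂ (Gen.E j)
        - (q + q⁻¹) • (FreeAlgebra.ι ℂ (Gen.E i) * FreeAlgebra.ι ℂ (Gen.E j)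
          * FreeAlgebra.ι ℂ (Gen.E i))
        + FreeAlgebra.ι ℂ (Gen.E j) * FreeAlgebra.ι ℂ (Gen.E i) * FreeAlgebra.ι ℂ (Gen.E i)) 0
  | sf (i j : Fin n) (h : cartan i j = -1) : Rel n q
      (FreeAlgebra.ι ℂ (Gen.F i) * FreeAlgebra.ι ℂ (Gen.F i) * FreeAlgebra.ι ℂ (Gen.F j)
        - (q + q⁻¹) • (FreeAlgebra.ι ℂ (Gen.F i) * FreeAlgebra.ι ℂ (Gen.F j)
          * FreeAlgebra.ι ℂ (Gen.F i))
        + FreeAlgebra.ι ℂ (Gen.F j) * FreeAlgebra.ι ℂ (Gen.F i) * FreeAlgebra.ι ℂ (Gen.F i)) 0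

/-- The quantized enveloping algebra `U_q(sl_{n+1})`. -/
def Uq (n : ℕ) (q : ℂ) : Type := RingQuot (Rel n q)

/-- The ring structure of `U_q(sl_{n+1})`. -/
noncomputable def ringStr (n : ℕ) (q : ℂ) : Ring (Uq n q) := RingQuot.instRing (Rel n q)

noncomputable instance instRing (n : ℕ) (q : ℂ) : Ring (Uq n q) := ringStr n q

/-- The quotient map from the free algebra, as a ring homomorphism. -/
noncomputable def mkR (n : ℕ) (q : ℂ) : FreeAlgebra ℂ (Gen n) →+* Uq n q :=
  RingQuot.mkRingHom (Rel n q)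

theorem mkR_surjective (n : ℕ) (q : ℂ) : Function.Surjective (mkR n q) :=
  RingQuot.mkRingHom_surjective (Rel n q)

theorem mkR_central (n : ℕ) (q c : ℂ) (x : Uq n q) :
    (mkR n q).comp (algebraMap ℂ (FreeAlgebra ℂ (Gen n))) c * x
      = x * (mkR n q).comp (algebraMap ℂ (FreeAlgebra ℂ (Gen n))) c := by
  obtain ⟨y, rfl⟩ := mkR_surjective n q x
  rw [RingHom.comp_apply, ← map_mul, ← map_mul, Algebra.commutes]

noncomputable instance instAlg (n : ℕ) (q : ℂ) : Algebra ℂ (Uq n q) :=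
  RingHom.toAlgebra' ((mkR n q).comp (algebraMap ℂ (FreeAlgebra ℂ (Gen n)))) (mkR_central n q)

namespace Uq

variable {n : ℕ} {q : ℂ}

/-- The quotient map from the free algebra. -/
noncomputable def mk (n : ℕ) (q : ℂ) : FreeAlgebra ℂ (Gen n) →ₐ[ℂ] Uq n q where
  toRingHom := mkR n q
  commutes' _ := rfl

theorem mk_surjective (n : ℕ) (q : ℂ) : Function.Surjective (mk n q) := mkR_surjective n q

/-- The generator `E_i`. -/
noncomputable def E (q : ℂ) (i : Fin n) : Uq n q := mk n q (FreeAlgebra.ι ℂ (Gen.E i))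
/-- The generator `F_i`. -/
noncomputable def F (q : ℂ) (i : Fin n) : Uq n q := mk n q (FreeAlgebra.ι ℂ (Gen.F i))
/-- The generator `K_i`. -/
noncomputable def K (q : ℂ) (i : Fin n) : Uq n q := mk n q (FreeAlgebra.ι ℂ (Gen.K i))
/-- The generator `K_i⁻¹`. -/
noncomputable def L (q : ℂ) (i : Fin n) : Uq n q := mk n q (FreeAlgebra.ι ℂ (Gen.L i))

theorem mk_rel {x y : FreeAlgebra ℂ (Gen n)} (h : Rel n q x y) : mk n q x = mk n q y :=
  RingQuot.mkRingHom_rel h

theorem isRep (n : ℕ) (q : ℂ) : IsRep q (E (n := n) q) (F q) (K q) (L q) where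
  kl i := by simpa [E, F, K, L] using mk_rel (q := q) (Rel.kl i)
  lk i := by simpa [E, F, K, L] using mk_rel (q := q) (Rel.lk i)
  kk i j := by simpa [E, F, K, L] using mk_rel (q := q) (Rel.kk i j)
  ke i j := by simpa [E, F, K, L] using mk_rel (q := q) (Rel.ke i j)
  kf i j := by
    have := mk_rel (q := q) (Rel.kf i j)
    simpa only [E, F, K, L, map_mul, map_smul] using this
  ef i j := by
    have := mk_rel (q := q) (Rel.ef i j)
    split_ifs at this ⊢ <;> simpa only [E, F, K, L, map_mul, map_smul, map_sub, map_zero] using this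
  ee i j h := by simpa [E, F, K, L] using mk_rel (q := q) (Rel.ee i j h)
  ff i j h := by simpa [E, F, K, L] using mk_rel (q := q) (Rel.ff i j h)
  se i j h := by
    have := mk_rel (q := q) (Rel.se i j h)
    simpa only [Serre, E, F, K, L, map_mul, map_smul, map_sub, map_add, map_zero] using this
  sf i j h := by
    have := mk_rel (q := q) (Rel.sf i j h)
    simpa only [Serre, E, F, K, L, map_mul, map_smul, map_sub, map_add, map_zero] using this

variable {A : Type*} [Ring A] [Algebra ℂ A] {e f k l : Fin n → A}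

/-- the images of the generators -/
def genMap (e f k l : Fin n → A) : Gen n → A
  | .E i => e i
  | .F i => f i
  | .K i => k i
  | .L i => l i

theorem genMap_rel (h : IsRep q e f k l) {x y : FreeAlgebra ℂ (Gen n)} (hxy : Rel n q x y) :
    FreeAlgebra.lift ℂ (genMap e f k l) x = FreeAlgebra.lift ℂ (genMap e f k l) y := by
  cases hxy with
  | kl i => simpa [genMap] using h.kl i
  | lk i => simpa [genMap] using h.lk i
  | kk i j => simpa [genMap] using h.kk i j
  | ke i j => simpa only [map_mul, map_smul, FreeAlgebra.lift_ι_apply, genMap] using h.ke i j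
  | kf i j => simpa only [map_mul, map_smul, FreeAlgebra.lift_ι_apply, genMap] using h.kf i j
  | ef i j =>
    have := h.ef i j
    split_ifs at this ⊢ <;>
      simpa only [map_mul, map_smul, map_sub, map_zero, FreeAlgebra.lift_ι_apply, genMap]
        using this
  | ee i j hc => simpa [genMap] using h.ee i j hc
  | ff i j hc => simpa [genMap] using h.ff i j hc
  | se i j hc =>
    simpa only [Serre, map_mul, map_smul, map_sub, map_add, map_zero, FreeAlgebra.lift_ι_apply,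
      genMap] using h.se i j hc
  | sf i j hc =>
    simpa only [Serre, map_mul, map_smul, map_sub, map_add, map_zero, FreeAlgebra.lift_ι_apply,
      genMap] using h.sf i j hc

/-- The universal property of `U_q(sl_{n+1})`, as a ring homomorphism. -/
noncomputable def liftR (h : IsRep q e f k l) : Uq n q →+* A :=
  RingQuot.lift ⟨(FreeAlgebra.lift ℂ (genMap e f k l)).toRingHom, fun _ _ hxy => genMap_rel h hxy⟩

theorem liftR_mk (h : IsRep q e f k l) (x : FreeAlgebra ℂ (Gen n)) :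
    liftR h (mk n q x) = FreeAlgebra.lift ℂ (genMap e f k l) x :=
  RingQuot.lift_mkRingHom_apply (FreeAlgebra.lift ℂ (genMap e f k l)).toRingHom
    (fun _ _ hxy => genMap_rel h hxy) x

/-- The universal property of `U_q(sl_{n+1})`: the algebra homomorphism sending `E_i`, `F_i`,
`K_i`, `K_i⁻¹` to `e i`, `f i`, `k i`, `l i`. -/
noncomputable def lift (h : IsRep q e f k l) : Uq n q →ₐ[ℂ] A where
  toRingHom := liftR h
  commutes' r := by
    have h1 := liftR_mk h (algebraMap ℂ _ r)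
    rw [AlgHom.commutes, AlgHom.commutes] at h1
    exact h1

theorem lift_mk (h : IsRep q e f k l) (g : Gen n) :
    lift h (mk n q (FreeAlgebra.ι ℂ g)) = genMap e f k l g := by
  refine (liftR_mk h _).trans ?_
  rw [FreeAlgebra.lift_ι_apply]

@[simp] theorem lift_E (h : IsRep q e f k l) (i : Fin n) : lift h (E q i) = e i := lift_mk h _
@[simp] theorem lift_F (h : IsRep q e f k l) (i : Fin n) : lift h (F q i) = f i := lift_mk h _
@[simp] theorem lift_K (h : IsRep q e f k l) (i : Fin n) : lift h (K q i) = k i := lift_mk h _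
@[simp] theorem lift_L (h : IsRep q e f k l) (i : Fin n) : lift h (L q i) = l i := lift_mk h _

end Uq

end Pool.Agent.H387.QT
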