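import Pool.Agent.H387.QT.FunRep2

/-!
# Evaluation of nested brackets
-/

open scoped TensorProduct

namespace Pool.Agent.H387.QT

/-- one factor -/
noncomputable def kf (q : ℂ) (s p : Bool) : ℂ := if s = p then q⁻¹ else -1

theorem kf_ne {q : ℂ} (hq : q ≠ 0) (s p : Bool) : kf q s p ≠ 0 := by
  unfold kf
  split_ifs
  · exact inv_ne_zero hq
  · norm_num

/-- product of the factors over the interior sites -/
noncomputable def kp (q : ℂ) (s : ℕ → Bool) (P : St) (a m : ℕ) : ℂ :=
  ∏ i ∈ Finset.range m, kf q (s (a + i + 1)) (P (a + i + 1))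

/-- product of parameters -/
noncomputable def cp (c : ℕ → ℂ) (a m : ℕ) : ℂ := ∏ i ∈ Finset.range (m + 1), c (a + i)

theorem kp_ne {q : ℂ} (hq : q ≠ 0) (s : ℕ → Bool) (P : St) (a m : ℕ) : kp q s P a m ≠ 0 :=
  Finset.prod_ne_zero_iff.mpr fun _ _ => kf_ne hq _ _

theorem kp_succ (q : ℂ) (s : ℕ → Bool) (P : St) (a m : ℕ) :
    kp q s P a (m + 1) = kp q s P a m * kf q (s (a + m + 1)) (P (a + m + 1)) :=
  Finset.prod_range_succ _ _

theorem cp_succ (c : ℕ → ℂ) (a m : ℕ) : cp c a (m + 1) = cp c a m * c (a + m + 1) :=
  Finset.prod_range_succ _ _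

theorem cp_zero (c : ℕ → ℂ) (a : ℕ) : cp c a 0 = c a := by simp [cp]

theorem kp_congr (q : ℂ) {s s' : ℕ → Bool} {P P' : St} {a m : ℕ}
    (h : ∀ z, a < z → z < a + m + 1 → s z = s' z ∧ P z = P' z) : kp q s P a m = kp q s' P' a m := by
  unfold kp
  refine Finset.prod_congr rfl fun i hi => ?_
  have := Finset.mem_range.mp hi
  rw [(h (a + i + 1) (by omega) (by omega)).1, (h (a + i + 1) (by omega) (by omega)).2]

theorem mv_step1 {a c : ℕ} (hac : a < c) {P : St} (h : P c = P (c + 1)) :
    mv c (c + 1) (mv a c P) = mv a (c + 1) P := by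
  funext x
  by_cases h1 : x = a
  · subst h1
    rw [mv_ne _ (by omega) (by omega), mv_left, mv_left, h]
  · by_cases h2 : x = c
    · subst h2
      rw [mv_left, mv_ne _ (by omega) (by omega), mv_ne _ (by omega) (by omega), h]
    · by_cases h3 : x = c + 1
      · subst h3
        rw [mv_right, mv_right, mv_right]
      · rw [mv_ne _ h2 h3, mv_ne _ h1 h2, mv_ne _ h1 h3]

theorem mv_step2 {a c : ℕ} (hac : a < c) {P : St} (h : P c = P a) :
    mv a c (mv c (c + 1) P) = mv a (c + 1) P := by
  funext x
  by_cases h1 : x = a
  · subst h1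
    rw [mv_left, mv_left, mv_left]
  · by_cases h2 : x = c
    · subst h2
      rw [mv_right, mv_ne _ (by omega) (by omega), mv_ne _ (by omega) (by omega), h]
    · by_cases h3 : x = c + 1
      · subst h3
        rw [mv_ne _ (by omega) (by omega), mv_right, mv_right, h]
      · rw [mv_ne _ h1 h2, mv_ne _ h2 h3, mv_ne _ h1 h3]

/-- evaluation on functions of one subset -/
theorem eval1 (q : ℂ) (c : ℕ → ℂ) (s : ℕ → Bool) (a m : ℕ) (g : St → ℂ) (P : St) :
    bv q (eo1 c) s a m g P = if P a = true ∧ P (a + m + 1) = false then
      kp q s P a m * cp c a m * g (mv a (a + m + 1) P) else 0 := by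
  induction m generalizing g P with
  | zero =>
    rw [bv_zero, eo1_apply, cp_zero, kp, Finset.prod_range_zero, one_mul]
  | succ m ih =>
    set t := a + m + 1 with ht
    have e1 : a + (m + 1) + 1 = t + 1 := by omega
    have hxe : bv q (eo1 c) s a m (eo1 c t g) P = if P a = true ∧ P t = false ∧ P (t + 1) = false
        then kp q s P a m * cp c a (m + 1) * g (mv a (t + 1) P) else 0 := by
      rw [ih, eo1_apply, mv_right, mv_ne (x := t + 1) P (by omega) (by omega), cp_succ]
      by_cases h1 : P a = true
      · by_cases h2 : P t = false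
        · by_cases h3 : P (t + 1) = false
          · rw [if_pos ⟨h1, h2⟩, if_pos ⟨h1, h3⟩, if_pos ⟨h1, h2, h3⟩,
              mv_step1 (by omega) (by rw [h2, h3])]
            ring
          · rw [if_pos ⟨h1, h2⟩, if_neg (by tauto), if_neg (by tauto), mul_zero]
        · rw [if_neg (by tauto), if_neg (by tauto)]
      · rw [if_neg (by tauto), if_neg (by tauto)]
    have hex : eo1 c t (bv q (eo1 c) s a m g) P = if P a = true ∧ P t = true ∧ P (t + 1) = false
        then kp q s P a m * cp c a (m + 1) * g (mv a (t + 1) P) else 0 := by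
      rw [eo1_apply, ih, mv_left, mv_ne (x := a) P (by omega) (by omega), cp_succ]
      by_cases h1 : P a = true
      · by_cases h2 : P t = true
        · by_cases h3 : P (t + 1) = false
          · rw [if_pos ⟨h2, h3⟩, if_pos ⟨h1, h3⟩, if_pos ⟨h1, h2, h3⟩,
              mv_step2 (by omega) (by rw [h2, h1])]
            have : kp q s (mv t (t + 1) P) a m = kp q s P a m := kp_congr q fun z h4 h5 =>
              ⟨rfl, mv_ne P (by omega) (by omega)⟩
            rw [this]
            ring
          · rw [if_neg (by tauto), if_neg (by tauto)]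
        · rw [if_neg (by tauto), if_neg (by tauto)]
      · have hn : ¬ (P a = true ∧ P t = true ∧ P (t + 1) = false) := by tauto
        rw [if_neg hn]
        have hn' : ¬ (P a = true ∧ P (t + 1) = false) := by tauto
        rw [if_neg hn', mul_zero, ite_self]
    rw [e1]
    rcases hs : s t with _ | _
    · rw [bv_succ_false hs, QT.qb]
      simp only [LinearMap.neg_apply, LinearMap.sub_apply, LinearMap.smul_apply,
        Module.End.mul_apply, Pi.neg_apply, Pi.sub_apply, Pi.smul_apply]
      rw [hxe, hex, kp_succ, ← ht, hs]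
      rcases h2 : P t with _ | _
      · simp only [kf]
        by_cases h1 : P a = true <;> by_cases h3 : P (t + 1) = false <;> simp [h1, h3]
        ring
      · simp only [kf]
        by_cases h1 : P a = true <;> by_cases h3 : P (t + 1) = false <;> simp [h1, h3]
    · rw [bv_succ_true hs, QT.qb]
      simp only [LinearMap.neg_apply, LinearMap.sub_apply, LinearMap.smul_apply,
        Module.End.mul_apply, Pi.neg_apply, Pi.sub_apply, Pi.smul_apply]
      rw [hxe, hex, kp_succ, ← ht, hs]
      rcases h2 : P t with _ | _
      · simp only [kf]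
        by_cases h1 : P a = true <;> by_cases h3 : P (t + 1) = false <;> simp [h1, h3]
      · simp only [kf]
        by_cases h1 : P a = true <;> by_cases h3 : P (t + 1) = false <;> simp [h1, h3]
        ring

/-- evaluation on functions of two subsets, without interior particles -/
theorem eval2 {q : ℂ} (hq : q ≠ 0) (c d : ℕ → ℂ) (s : ℕ → Bool) (a m : ℕ) (g : St × St → ℂ)
    (P Q : St) (hP : ∀ z, a < z → z < a + m + 1 → P z = false)
    (hQ : ∀ z, a < z → z < a + m + 1 → Q z = false) :
    bv q (eo2 q c d) s a m g (P, Q) = kp q s (fun _ => false) a m *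
      ((if P a = true ∧ P (a + m + 1) = false then
        cp c a m * q ^ (bit (Q a) - bit (Q (a + m + 1))) * g (mv a (a + m + 1) P, Q) else 0)
      + (if Q a = true ∧ Q (a + m + 1) = false then
        cp d a m * g (P, mv a (a + m + 1) Q) else 0)) := by
  induction m generalizing g P Q with
  | zero =>
    rw [bv_zero, eo2_apply, cp_zero, cp_zero, kp, Finset.prod_range_zero, one_mul]
    simp only [add_zero, wt]
  | succ m ih =>
    set t := a + m + 1 with ht
    have e1 : a + (m + 1) + 1 = t + 1 := by omega
    rw [e1] at hP hQ ⊢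
    have hPt := hP t (by omega) (by omega)
    have hQt := hQ t (by omega) (by omega)
    have hex : eo2 q c d t (bv q (eo2 q c d) s a m g) (P, Q) = 0 := by
      rw [eo2_apply, hPt, hQt]; simp
    have hxe : bv q (eo2 q c d) s a m (eo2 q c d t g) (P, Q) = kp q s (fun _ => false) a m *
        ((if P a = true ∧ P (t + 1) = false then
          cp c a (m + 1) * q ^ (bit (Q a) - bit (Q (t + 1))) * g (mv a (t + 1) P, Q) else 0)
        + (if Q a = true ∧ Q (t + 1) = false then
          cp d a (m + 1) * g (P, mv a (t + 1) Q) else 0)) := by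
      rw [ih _ _ _ (fun z h1 h2 => hP z h1 (by omega)) (fun z h1 h2 => hQ z h1 (by omega)),
        eo2_apply, eo2_apply, mv_right, mv_right, mv_ne (x := t + 1) P (by omega) (by omega),
        mv_ne (x := t + 1) Q (by omega) (by omega), hPt, hQt, cp_succ, cp_succ, ← ht]
      congr 1
      by_cases h1 : P a = true
      · by_cases h3 : P (t + 1) = false
        · rw [mv_step1 (by omega) (by rw [hPt, h3])]
          by_cases h4 : Q a = true
          · by_cases h5 : Q (t + 1) = false
            · rw [mv_step1 (by omega) (by rw [hQt, h5])]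
              simp [h1, h3, h4, h5, wt, hQt, bit]
              ring
            · simp [h1, h3, h4, h5, wt, hQt, bit]
              field_simp
          · simp [h1, h3, h4, wt, hQt, bit, zpow_neg]
            ring
        · by_cases h4 : Q a = true
          · by_cases h5 : Q (t + 1) = false
            · rw [mv_step1 (P := Q) (by omega) (by rw [hQt, h5])]
              simp [h1, h3, h4, h5]
              ring
            · simp [h1, h3, h4, h5]
          · simp [h1, h3, h4]
      · by_cases h4 : Q a = true
        · by_cases h5 : Q (t + 1) = false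
          · rw [mv_step1 (P := Q) (by omega) (by rw [hQt, h5])]
            simp [h1, h4, h5]
            ring
          · simp [h1, h4, h5]
        · simp [h1, h4]
    rcases hs : s t with _ | _
    · rw [bv_succ_false hs, QT.qb]
      simp only [LinearMap.neg_apply, LinearMap.sub_apply, LinearMap.smul_apply,
        Module.End.mul_apply, Pi.neg_apply, Pi.sub_apply, Pi.smul_apply]
      rw [hxe, hex, kp_succ, ← ht, hs]
      simp only [kf, if_true, smul_eq_mul]
      ring
    · rw [bv_succ_true hs, QT.qb]
      simp only [LinearMap.neg_apply, LinearMap.sub_apply, LinearMap.smul_apply,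
        Module.End.mul_apply, Pi.neg_apply, Pi.sub_apply, Pi.smul_apply]
      rw [hxe, hex, kp_succ, ← ht, hs]
      simp only [kf, if_neg (show ¬ (true = false) by decide), smul_eq_mul]
      ring

end Pool.Agent.H387.QT
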