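import Mathlib

/-!
# Combinatorics of the two patterns
-/

namespace Pool.Agent.H387.QT

/-- the right pattern, for signs with values `true` and `false` -/
def RPat (n : ℕ) (σ : ℕ → ℕ → ℕ → Bool) : Prop := ∀ a b c d, a < b → b < c → c < d → d ≤ n →
  ¬ (σ a b d = false ∧ σ a c d = true) ∧ (σ a c d = false → σ a b c = σ a b d) ∧
    (σ a b d = true → σ b c d = σ a c d)

/-- signs given by a priority on the gaps -/
def PSign (p : ℕ → ℕ) (a b c : ℕ) : Prop := ∃ y, b ≤ y ∧ y < c ∧ ∀ x, a ≤ x → x < b → p x < p y

theorem rpat_of_prior {n : ℕ} {σ : ℕ → ℕ → ℕ → Bool} {p : ℕ → ℕ}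
    (h : ∀ a b c, a < b → b < c → c ≤ n → (σ a b c = true ↔ PSign p a b c)) : RPat n σ := by
  intro a b c d hab hbc hcd hd
  have h1 := h a b c hab hbc (by omega)
  have h2 := h a b d hab (by omega) hd
  have h3 := h a c d (by omega) hcd hd
  have h4 := h b c d hbc hcd hd
  refine ⟨?_, ?_, ?_⟩
  · rintro ⟨e1, e2⟩
    obtain ⟨v, hv1, hv2, hv3⟩ := h3.mp e2
    have : σ a b d = true := h2.mpr ⟨v, by omega, hv2, fun x hx1 hx2 => hv3 x hx1 (by omega)⟩
    rw [e1] at this
    exact absurd this (by decide)
  · intro e
    have key : σ a b c = true ↔ σ a b d = true := by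
      rw [h1, h2]
      constructor
      · rintro ⟨v, hv1, hv2, hv3⟩
        exact ⟨v, hv1, by omega, hv3⟩
      · rintro ⟨v, hv1, hv2, hv3⟩
        by_cases hvc : v < c
        · exact ⟨v, hv1, hvc, hv3⟩
        · by_contra hcon
          have : ¬ PSign p a c d := fun hp => by
            rw [← h3, e] at hp; exact absurd hp (by decide)
          apply this
          refine ⟨v, by omega, hv2, fun x hx1 hx2 => ?_⟩
          by_contra hxv
          by_cases hxb : x < b
          · exact hxv (hv3 x hx1 hxb)
          · exact hcon ⟨x, by omega, hx2, fun x' h5 h6 => by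
              have := hv3 x' h5 h6
              omega⟩
    cases h5 : σ a b c <;> cases h6 : σ a b d <;> rw [h5, h6] at key <;> simp_all
  · intro e
    obtain ⟨v', hv1', hv2', hv3'⟩ := h2.mp e
    have key : σ b c d = true ↔ σ a c d = true := by
      rw [h4, h3]
      constructor
      · rintro ⟨v, hv1, hv2, hv3⟩
        by_cases hvv : p v' ≤ p v
        · refine ⟨v, hv1, hv2, fun x hx1 hx2 => ?_⟩
          by_cases hxb : x < b
          · have := hv3' x hx1 hxb
            omega
          · exact hv3 x (by omega) hx2
        · have hvc : c ≤ v' := by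
            by_contra hlt
            have := hv3 v' hv1' (by omega)
            omega
          refine ⟨v', hvc, hv2', fun x hx1 hx2 => ?_⟩
          by_cases hxb : x < b
          · exact hv3' x hx1 hxb
          · have := hv3 x (by omega) hx2
            omega
      · rintro ⟨v, hv1, hv2, hv3⟩
        exact ⟨v, hv1, hv2, fun x hx1 hx2 => hv3 x (by omega) hx2⟩
    cases h5 : σ b c d <;> cases h6 : σ a c d <;> rw [h5, h6] at key <;> simp_all

/-- structure of the signs under the right pattern -/
theorem rpat_peak {n : ℕ} {σ : ℕ → ℕ → ℕ → Bool} (h : RPat n σ) {a d : ℕ} (had : a < d)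
    (hd : d ≤ n) :
    ∃ M, a ≤ M ∧ M < d ∧ ∀ x y z, a ≤ x → x ≤ M → M < y → y ≤ d → x < z → z < y →
      σ x z y = decide (z ≤ M) := by
  classical
  -- the last positive sign
  obtain ⟨M, haM, hMd, hM⟩ : ∃ M, a ≤ M ∧ M < d ∧ ∀ z, a < z → z < d →
      σ a z d = decide (z ≤ M) := by
    by_cases hex : ∃ z, a < z ∧ z < d ∧ σ a z d = true
    · -- greatest such
      obtain ⟨z0, hz0⟩ := hex
      let Pz : ℕ → Prop := fun z => a < z ∧ z < d ∧ σ a z d = true
      have hP : Pz (Nat.findGreatest Pz d) := Nat.findGreatest_spec (P := Pz) (by omega) hz0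
      refine ⟨Nat.findGreatest Pz d, hP.1.le, hP.2.1, fun z h1 h2 => ?_⟩
      by_cases hzM : z ≤ Nat.findGreatest Pz d
      · rw [decide_eq_true hzM]
        by_contra hcon
        have hcon' : σ a z d = false := by simpa using hcon
        rcases hzM.eq_or_lt with heq | hlt
        · rw [heq, hP.2.2] at hcon'; exact absurd hcon' (by decide)
        · exact (h a z _ d h1 hlt hP.2.1 hd).1 ⟨hcon', hP.2.2⟩
      · rw [decide_eq_false hzM]
        by_contra hcon
        have hcon' : σ a z d = true := by simpa using hcon
        exact Nat.findGreatest_is_greatest (P := Pz) (n := d) (by omega) (by omega)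
          ⟨h1, h2, hcon'⟩
    · refine ⟨a, le_rfl, had, fun z h1 h2 => ?_⟩
      rw [decide_eq_false (by omega)]
      by_contra hcon
      exact hex ⟨z, h1, h2, by simpa using hcon⟩
  refine ⟨M, haM, hMd, ?_⟩
  have h1 : ∀ y z, M < y → y ≤ d → a < z → z < y → σ a z y = decide (z ≤ M) := by
    intro y z hMy hyd haz hzy
    rcases hyd.eq_or_lt with rfl | hlt
    · exact hM z haz hzy
    · have h2 := (h a z y d haz hzy hlt hd).2.1
      rw [hM y (by omega) hlt, hM z haz (by omega)] at h2
      exact h2 (decide_eq_false (by omega))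
  intro x y z hax hxM hMy hyd hxz hzy
  rcases hax.eq_or_lt with rfl | hlt
  · exact h1 y z hMy hyd hxz hzy
  · have h2 := (h a x z y hlt hxz hzy (by omega)).2.2
    rw [h1 y x hMy hyd hlt (by omega), h1 y z hMy hyd (by omega) hzy] at h2
    exact h2 (decide_eq_true hxM)

theorem prior_of_rpat_aux {n : ℕ} {σ : ℕ → ℕ → ℕ → Bool} (h : RPat n σ) (L : ℕ) :
    ∀ a c, a ≤ c → c ≤ n → c - a ≤ L → ∃ (p : ℕ → ℕ) (B : ℕ),
      (∀ x, a ≤ x → x < c → p x < B) ∧
      (∀ x y, a ≤ x → x < c → a ≤ y → y < c → p x = p y → x = y) ∧
      ∀ x y z, a ≤ x → x < y → y < z → z ≤ c → (σ x y z = true ↔ PSign p x y z) := by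
  induction L with
  | zero =>
    intro a c hac hc hL
    exact ⟨id, c, fun x _ h2 => h2, fun x y _ _ _ _ e => e, fun x y z h1 h2 h3 h4 => by omega⟩
  | succ L ih =>
    intro a c hac hc hL
    rcases hac.eq_or_lt with rfl | hlt
    · exact ⟨id, a, fun x _ h2 => h2, fun x y _ _ _ _ e => e, fun x y z h1 h2 h3 h4 => by omega⟩
    · obtain ⟨M, haM, hMc, hM⟩ := rpat_peak h hlt hc
      obtain ⟨p1, B1, hB1, hi1, hs1⟩ := ih a M haM (by omega) (by omega)
      obtain ⟨p2, B2, hB2, hi2, hs2⟩ := ih (M + 1) c (by omega) hc (by omega)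
      let p : ℕ → ℕ := fun x => if x < M then p1 x else if x = M then B1 + B2 else B1 + p2 x
      have pl : ∀ x, x < M → p x = p1 x := fun x hx => if_pos hx
      have pm : p M = B1 + B2 := by
        show (if M < M then p1 M else if M = M then B1 + B2 else B1 + p2 M) = _
        rw [if_neg (lt_irrefl _), if_pos rfl]
      have pr : ∀ x, M < x → p x = B1 + p2 x := fun x hx => by
        show (if x < M then p1 x else if x = M then B1 + B2 else B1 + p2 x) = _
        rw [if_neg (by omega), if_neg (by omega)]
      have hlow : ∀ x, a ≤ x → x < M → p x < B1 := fun x h1 h2 => by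
        rw [pl x h2]; exact hB1 x h1 h2
      have hmax : ∀ x, a ≤ x → x < c → x ≠ M → p x < p M := by
        intro x h1 h2 h3
        by_cases h4 : x < M
        · have := hlow x h1 h4
          rw [pm]; omega
        · have := hB2 x (by omega) h2
          rw [pm, pr x (by omega)]; omega
      refine ⟨p, B1 + B2 + 1, ?_, ?_, ?_⟩
      · intro x h1 h2
        by_cases h3 : x = M
        · rw [h3, pm]; omega
        · have := hmax x h1 h2 h3
          rw [pm] at this; omega
      · intro x y h1 h2 h3 h4 e
        by_cases hx : x = M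
        · by_cases hy : y = M
          · rw [hx, hy]
          · have := hmax y h3 h4 hy
            rw [← e, hx] at this; omega
        · by_cases hy : y = M
          · have := hmax x h1 h2 hx
            rw [e, hy] at this; omega
          · by_cases hx' : x < M
            · by_cases hy' : y < M
              · rw [pl x hx', pl y hy'] at e
                exact hi1 x y h1 hx' h3 hy' e
              · have := hlow x h1 hx'
                rw [e, pr y (by omega)] at this; omega
            · by_cases hy' : y < M
              · have := hlow y h3 hy'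
                rw [← e, pr x (by omega)] at this; omega
              · rw [pr x (by omega), pr y (by omega)] at e
                exact hi2 x y (by omega) h2 (by omega) h4 (by omega)
      · intro x y z hax hxy hyz hzc
        by_cases hzM : z ≤ M
        · rw [hs1 x y z hax hxy hyz hzM]
          unfold PSign
          constructor
          · rintro ⟨v, hv1, hv2, hv3⟩
            refine ⟨v, hv1, hv2, fun u h1 h2 => ?_⟩
            rw [pl u (by omega), pl v (by omega)]; exact hv3 u h1 h2
          · rintro ⟨v, hv1, hv2, hv3⟩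
            refine ⟨v, hv1, hv2, fun u h1 h2 => ?_⟩
            have := hv3 u h1 h2
            rwa [pl u (by omega), pl v (by omega)] at this
        · by_cases hxM : M < x
          · rw [hs2 x y z (by omega) hxy hyz hzc]
            unfold PSign
            constructor
            · rintro ⟨v, hv1, hv2, hv3⟩
              refine ⟨v, hv1, hv2, fun u h1 h2 => ?_⟩
              rw [pr u (by omega), pr v (by omega)]
              have := hv3 u h1 h2
              omega
            · rintro ⟨v, hv1, hv2, hv3⟩
              refine ⟨v, hv1, hv2, fun u h1 h2 => ?_⟩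
              have := hv3 u h1 h2
              rw [pr u (by omega), pr v (by omega)] at this
              omega
          · rw [hM x z y hax (by omega) (by omega) hzc hxy hyz, decide_eq_true_eq]
            unfold PSign
            constructor
            · intro hyM
              exact ⟨M, hyM, by omega, fun u h1 h2 => hmax u (by omega) (by omega) (by omega)⟩
            · rintro ⟨v, hv1, hv2, hv3⟩
              by_contra hcon
              have h1 := hv3 M (by omega) (by omega)
              have h2 := hmax v (by omega) (by omega) (by omega)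
              omega

theorem prior_iff {n : ℕ} {σ : ℕ → ℕ → ℕ → Bool} : RPat n σ ↔ ∃ p : ℕ → ℕ,
    (∀ x y, x < n → y < n → p x = p y → x = y) ∧
    ∀ a b c, a < b → b < c → c ≤ n → (σ a b c = true ↔ PSign p a b c) := by
  constructor
  · intro h
    obtain ⟨p, B, _, h2, h3⟩ := prior_of_rpat_aux h n 0 n (Nat.zero_le _) le_rfl (by omega)
    exact ⟨p, fun x y hx hy => h2 x y (Nat.zero_le _) hx (Nat.zero_le _) hy,
      fun a b c h4 h5 h6 => h3 a b c (Nat.zero_le _) h4 h5 h6⟩
  · rintro ⟨p, _, h⟩
    exact rpat_of_prior h

theorem quad_eq {n : ℕ} {σ : ℕ → ℕ → ℕ → Bool} (h1 : RPat n σ)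
    (h2 : RPat n (fun a b c => !σ a b c)) {a b c d : ℕ} (hab : a < b) (hbc : b < c) (hcd : c < d)
    (hd : d ≤ n) : σ a b c = σ a b d ∧ σ a b d = σ a c d ∧ σ b c d = σ a c d := by
  obtain ⟨x1, x2, x3⟩ := h1 a b c d hab hbc hcd hd
  obtain ⟨y1, y2, y3⟩ := h2 a b c d hab hbc hcd hd
  simp only at y1 y2 y3
  cases e1 : σ a b c <;> cases e2 : σ a b d <;> cases e3 : σ a c d <;> cases e4 : σ b c d <;>
    simp_all

theorem two_sided {n : ℕ} {σ : ℕ → ℕ → ℕ → Bool} :
    (RPat n σ ∧ RPat n (fun a b c => !σ a b c)) ↔
      ∀ a b c a' b' c', a < b → b < c → c ≤ n → a' < b' → b' < c' → c' ≤ n →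
        σ a b c = σ a' b' c' := by
  constructor
  · rintro ⟨h1, h2⟩
    have key : ∀ a b c, a < b → b < c → c ≤ n → σ a b c = σ 0 1 2 := by
      intro a b c hab hbc hc
      have e1 : σ a b c = σ 0 b c := by
        rcases Nat.eq_zero_or_pos a with rfl | ha
        · rfl
        · exact (quad_eq h1 h2 ha hab hbc hc).2.2
      have e2 : σ 0 b c = σ 0 1 c := by
        rcases Nat.lt_or_ge 1 b with hb | hb
        · exact (quad_eq h1 h2 (by omega) hb hbc hc).2.1.symm
        · have : b = 1 := by omega
          rw [this]
      have e3 : σ 0 1 c = σ 0 1 2 := by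
        rcases Nat.lt_or_ge 2 c with hc' | hc'
        · exact (quad_eq h1 h2 (by omega) (by omega) hc' hc).1.symm
        · have : c = 2 := by omega
          rw [this]
      rw [e1, e2, e3]
    intro a b c a' b' c' k1 k2 k3 k4 k5 k6
    rw [key a b c k1 k2 k3, key a' b' c' k4 k5 k6]
  · intro h
    constructor
    · intro a b c d hab hbc hcd hd
      have e1 := h a b c a b d hab hbc (by omega) hab (by omega) hd
      have e2 := h a b d a c d hab (by omega) hd (by omega) hcd hd
      have e3 := h b c d a c d hbc hcd hd (by omega) hcd hd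
      refine ⟨?_, fun _ => e1, fun _ => e3⟩
      rintro ⟨f1, f2⟩
      rw [f1, f2] at e2
      exact absurd e2 (by decide)
    · intro a b c d hab hbc hcd hd
      have e1 := h a b c a b d hab hbc (by omega) hab (by omega) hd
      have e2 := h a b d a c d hab (by omega) hd (by omega) hcd hd
      have e3 := h b c d a c d hbc hcd hd (by omega) hcd hd
      simp only
      refine ⟨?_, fun _ => by rw [e1], fun _ => by rw [e3]⟩
      rintro ⟨f1, f2⟩
      rw [e2, f2] at f1
      exact absurd f1 (by decide)

end Pool.Agent.H387.QT
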