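import Pool.Agent.H387.QT.LRoot
import Pool.Agent.H387.QT.Prior

/-!
# Reduced decompositions of the longest element and their tangent spaces
-/

open scoped TensorProduct

namespace Pool.Agent.H387.QT

variable {n : ℕ}

/-- The element `s_{i_1} ⋯ s_{i_k}` of the symmetric group of `{0, …, n}`; the letter `i : Fin n`
stands for the simple transposition of `i` and `i + 1`. -/
def perm (w : List (Fin n)) : Equiv.Perm (Fin (n + 1)) :=
  (w.map fun i => Equiv.swap i.castSucc i.succ).prod

/-- `w` is a reduced decomposition of the longest element `w₀ : x ↦ n - x`: its product is `w₀` and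
no shorter word has this product. -/
def IsReducedW0 (w : List (Fin n)) : Prop :=
  perm w = Fin.revPerm ∧ ∀ w' : List (Fin n), perm w' = Fin.revPerm → w.length ≤ w'.length

theorem perm_val (w : List (Fin n)) (z : Fin (n + 1)) : ((perm w z : Fin (n + 1)) : ℕ) = permN w z := by
  induction w with
  | nil => rfl
  | cons j u ih =>
    have e : perm (j :: u) = Equiv.swap j.castSucc j.succ * perm u := by simp [perm]
    rw [e, permN_cons_apply, ← ih, Equiv.Perm.mul_apply]
    set y := perm u z
    rw [Equiv.swap_apply_def, Equiv.swap_apply_def]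
    by_cases h1 : y = j.castSucc
    · rw [if_pos h1, if_pos (by rw [h1]; rfl)]; rfl
    · have h1' : (y : ℕ) ≠ j := fun h => h1 (Fin.ext h)
      by_cases h2 : y = j.succ
      · rw [if_neg h1, if_pos h2, if_neg h1', if_pos (by rw [h2]; rfl)]; rfl
      · have h2' : (y : ℕ) ≠ j + 1 := fun h => h2 (Fin.ext h)
        rw [if_neg h1, if_neg h2, if_neg h1', if_neg h2']

theorem perm_rev_iff (w : List (Fin n)) : perm w = Fin.revPerm ↔ ∀ z ≤ n, permN w z = n - z := by
  constructor
  · intro h z hz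
    have := perm_val w ⟨z, by omega⟩
    rw [h, Fin.revPerm_apply, Fin.val_rev] at this
    simp only at this
    omega
  · intro h
    ext z
    rw [perm_val, Fin.revPerm_apply, Fin.val_rev, h z (by omega)]
    omega

/-- a decreasing family of cycles -/
theorem exists_word (n : ℕ) : ∀ m ≤ n, ∃ w : List (Fin n), w.length = m * (m + 1) / 2 ∧
    (∀ z ≤ m, permN w z = m - z) ∧ ∀ z, m < z → permN w z = z := by
  -- the cycles
  have cyc : ∀ m ≤ n, ∃ v : List (Fin n), v.length = m ∧ (∀ z < m, permN v z = z + 1) ∧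
      permN v m = 0 ∧ ∀ z, m < z → permN v z = z := by
    intro m
    induction m with
    | zero =>
      intro _
      exact ⟨[], rfl, fun z hz => absurd hz (Nat.not_lt_zero _), rfl, fun z _ => rfl⟩
    | succ m ih =>
      intro hm
      obtain ⟨v, h1, h2, h3, h4⟩ := ih (by omega)
      have ea : permN (v ++ [⟨m, by omega⟩]) = permN v * Equiv.swap m (m + 1) := by
        rw [permN_append]
        simp [permN]
      refine ⟨v ++ [⟨m, by omega⟩], by simp [h1], ?_, ?_, ?_⟩
      · intro z hz
        rw [ea, Equiv.Perm.mul_apply]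
        rcases Nat.lt_or_ge z m with h | h
        · rw [Equiv.swap_apply_of_ne_of_ne (by omega) (by omega), h2 z h]
        · have : z = m := by omega
          rw [this, Equiv.swap_apply_left, h4 _ (by omega)]
      · rw [ea, Equiv.Perm.mul_apply, Equiv.swap_apply_right, h3]
      · intro z hz
        rw [ea, Equiv.Perm.mul_apply, Equiv.swap_apply_of_ne_of_ne (by omega) (by omega),
          h4 z (by omega)]
  intro m
  induction m with
  | zero =>
    intro _
    exact ⟨[], rfl, fun z hz => by simp [permN]; omega, fun z _ => rfl⟩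
  | succ m ih =>
    intro hm
    obtain ⟨w, h1, h2, h3⟩ := ih (by omega)
    obtain ⟨v, g1, g2, g3, g4⟩ := cyc (m + 1) hm
    refine ⟨v ++ w, ?_, ?_, ?_⟩
    · rw [List.length_append, g1, h1]
      have e : (m + 1) * (m + 1 + 1) = m * (m + 1) + (m + 1) * 2 := by ring
      rw [e, Nat.add_mul_div_right _ _ (by norm_num)]
      omega
    · intro z hz
      rw [permN_append, Equiv.Perm.mul_apply]
      rcases Nat.lt_or_ge m z with h | h
      · have : z = m + 1 := by omega
        rw [h3 z h, this, g3]; omega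
      · rw [h2 z h, g2 _ (by omega)]; omega
    · intro z hz
      rw [permN_append, Equiv.Perm.mul_apply, h3 z (by omega), g4 z (by omega)]

/-- every pair of lines crosses -/
theorem exists_crs' {w : List (Fin n)} (hrev : ∀ z ≤ n, permN w z = n - z) {a b : ℕ} (hab : a < b)
    (hb : b ≤ n) : ∃ k, crs w k a b := by
  by_contra hno
  push Not at hno
  have h0 : bef w 0 a b := by
    unfold bef; simpa [permN] using hab
  have hN : ¬ bef w w.length a b := by
    unfold bef
    rw [List.take_length]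
    have e1 : (permN w)⁻¹ a = n - a := by
      rw [Equiv.Perm.inv_eq_iff_eq, hrev _ (by omega)]; omega
    have e2 : (permN w)⁻¹ b = n - b := by
      rw [Equiv.Perm.inv_eq_iff_eq, hrev _ (by omega)]; omega
    rw [e1, e2]; omega
  have key : ∀ k, k ≤ w.length → bef w k a b := by
    intro k
    induction k with
    | zero => intro _; exact h0
    | succ k ih =>
      intro hk
      have hb1 := ih (by omega)
      by_contra hb2
      have hk' : k < w.length := by omega
      unfold bef at hb1 hb2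
      rw [take_succ_perm w hk', mul_inv_rev, Equiv.swap_inv, Equiv.Perm.mul_apply,
        Equiv.Perm.mul_apply] at hb2
      by_cases hc : (permN (w.take k))⁻¹ a = w[k] ∧ (permN (w.take k))⁻¹ b = w[k] + 1
      · exact hno k ⟨hk', by rw [← hc.1]; simp, by rw [← hc.2]; simp⟩
      · rw [swap_lt hc (by omega)] at hb2
        exact hb2 hb1
  exact hN (key _ le_rfl)

theorem length_ge {w : List (Fin n)} (hrev : ∀ z ≤ n, permN w z = n - z) :
    n * (n + 1) / 2 ≤ w.length := by
  classical
  have hex : ∀ x : (Σ b : Fin (n + 1), Fin b), ∃ k, crs w k x.2 x.1 := fun x =>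
    exists_crs' hrev x.2.2 (by have := x.1.2; omega)
  choose g hg using hex
  let G : (Σ b : Fin (n + 1), Fin b) → Fin w.length := fun x => ⟨g x, (hg x).1⟩
  have hinj : Function.Injective G := by
    intro x y hxy
    have e : g x = g y := by simpa [G] using hxy
    obtain ⟨_, x1, x2⟩ := hg x
    obtain ⟨_, y1, y2⟩ := hg y
    have f1 : (x.2 : ℕ) = y.2 := by
      rw [← x1, ← y1]; simp only [e]
    have f2 : (x.1 : ℕ) = y.1 := by
      rw [← x2, ← y2]; simp only [e]
    obtain ⟨b, a⟩ := x
    obtain ⟨b', a'⟩ := y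
    obtain rfl : b = b' := Fin.ext f2
    obtain rfl : a = a' := Fin.ext f1
    rfl
  have hcard := Fintype.card_le_of_injective G hinj
  rw [Fintype.card_sigma, Fintype.card_fin] at hcard
  simp only [Fintype.card_fin] at hcard
  rw [Fin.sum_univ_eq_sum_range (fun i => i) (n + 1), Finset.sum_range_id, Nat.add_sub_cancel,
      mul_comm] at hcard
  exact hcard

theorem IsReducedW0.w0 {w : List (Fin n)} (h : IsReducedW0 w) : W0 w where
  rev := (perm_rev_iff w).mp h.1
  len := by
    obtain ⟨w', h1, h2, _⟩ := exists_word n n le_rfl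
    have e1 := h.2 w' ((perm_rev_iff w').mpr h2)
    have e2 := length_ge ((perm_rev_iff w).mp h.1)
    omega

/-- At the `k`-th letter of `w` the lines `a` and `b` cross: they occupy the positions `i_k` and
`i_k + 1` before this letter (the line at position `x` after `k` letters is
`s_{i_1} ⋯ s_{i_k} (x)`). -/
def Crosses (w : List (Fin n)) (k : ℕ) (a b : Fin (n + 1)) : Prop :=
  ∃ h : k < w.length, perm (w.take k) (w[k]).castSucc = a ∧ perm (w.take k) (w[k]).succ = b

theorem crosses_iff (w : List (Fin n)) (k : ℕ) (a b : Fin (n + 1)) :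
    Crosses w k a b ↔ crs w k a b := by
  unfold Crosses crs
  constructor
  · rintro ⟨h, h1, h2⟩
    refine ⟨h, ?_, ?_⟩
    · rw [← h1, perm_val]; rfl
    · rw [← h2, perm_val]; rfl
  · rintro ⟨h, h1, h2⟩
    refine ⟨h, ?_, ?_⟩
    · apply Fin.ext; rw [perm_val]; exact h1
    · apply Fin.ext; rw [perm_val]; exact h2

open Classical in
/-- The sign of three lines `a < b < c`: `true` when `a` and `b` cross before `b` and `c`, `false`
when they cross after. -/
noncomputable def sign (w : List (Fin n)) (a b c : Fin (n + 1)) : Bool :=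
  decide (∃ j k, j < k ∧ Crosses w j a b ∧ Crosses w k b c)

theorem sign_eq (w : List (Fin n)) (a b c : Fin (n + 1)) : sign w a b c = sgn w a b c := by
  rw [sign, sgn, decide_eq_decide]
  constructor
  · rintro ⟨j, k, h, h1, h2⟩
    exact ⟨j, k, h, (crosses_iff w j a b).mp h1, (crosses_iff w k b c).mp h2⟩
  · rintro ⟨j, k, h, h1, h2⟩
    exact ⟨j, k, h, (crosses_iff w j a b).mpr h1, (crosses_iff w k b c).mpr h2⟩

/-- The root vector `E_{β_k} = T_{i_1} ⋯ T_{i_{k-1}} (E_{i_k})` (with `k` counted from `0`). -/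
noncomputable def rootVec {q : ℂ} (hq : NRU q) (w : List (Fin n)) (k : Fin w.length) : Uq n q :=
  Uq.Tw hq (w.take k) (Uq.E q (w.get k))

/-- The twisted root vector `E_{β_k} K_{β_k}⁻¹ = T_{i_1} ⋯ T_{i_{k-1}} (E_{i_k} K_{i_k}⁻¹)`. -/
noncomputable def rootVecTw {q : ℂ} (hq : NRU q) (w : List (Fin n)) (k : Fin w.length) : Uq n q :=
  Uq.Tw hq (w.take k) (Uq.E q (w.get k) * Uq.L q (w.get k))

/-- The space `𝔫⁺_𝐢`, the span of the root vectors. -/
noncomputable def nplus {q : ℂ} (hq : NRU q) (w : List (Fin n)) : Submodule ℂ (Uq n q) :=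
  Submodule.span ℂ (Set.range (rootVec hq w))

/-- The span of the twisted root vectors `E_β K_β⁻¹`. -/
noncomputable def nplusTw {q : ℂ} (hq : NRU q) (w : List (Fin n)) : Submodule ℂ (Uq n q) :=
  Submodule.span ℂ (Set.range (rootVecTw hq w))

theorem rootVec_eq {q : ℂ} (hq : NRU q) {w : List (Fin n)} (hw : W0 w) (k : Fin w.length) :
    crs w k (permN (w.take k) (w[(k : ℕ)])) (permN (w.take k) ((w[(k : ℕ)] : ℕ) + 1)) ∧
    rootVec hq w k = rootv n q (sgn w) (permN (w.take k) (w[(k : ℕ)]))
      (permN (w.take k) ((w[(k : ℕ)] : ℕ) + 1)) ∧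
    rootVecTw hq w k = rootvL n q (sgn w) (permN (w.take k) (w[(k : ℕ)]))
      (permN (w.take k) ((w[(k : ℕ)] : ℕ) + 1)) := by
  have hc : crs w k (permN (w.take k) (w[(k : ℕ)])) (permN (w.take k) ((w[(k : ℕ)] : ℕ) + 1)) :=
    ⟨k.2, rfl, rfl⟩
  have hlt := hw.crs_lt hc
  have h1 := Uq.root_formula hq (w.take k) (hw.ok_take k k.2.le) (w[(k : ℕ)]) hlt
  have h2 := Uq.root_formula_L hq (w.take k) (hw.ok_take k k.2.le) (w[(k : ℕ)]) hlt
  have h3 : rootv n q (sgn w) (permN (w.take k) (w[(k : ℕ)]))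
      (permN (w.take k) ((w[(k : ℕ)] : ℕ) + 1)) = Uq.Tw hq (w.take k) (Uq.E q (w[(k : ℕ)])) := by
    rw [h1]
    unfold rootv
    refine bv_congr _ _ _ fun z h3 h4 => ?_
    exact hw.sgn_iff hc h3 (by omega)
  refine ⟨hc, h3.symm, ?_⟩
  unfold rootVecTw rootvL
  rw [h3, map_mul, ← h2]
  rfl

theorem nplus_eq {q : ℂ} (hq : NRU q) {w : List (Fin n)} (hw : W0 w) :
    nplus hq w = TT n q (sgn w) := by
  apply le_antisymm
  · apply Submodule.span_le.mpr
    rintro x ⟨k, rfl⟩
    obtain ⟨hc, h1, _⟩ := rootVec_eq hq hw k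
    rw [h1]
    exact rootv_mem (hw.crs_lt hc) (hw.crs_le hc)
  · apply Submodule.span_le.mpr
    rintro x ⟨a, c, hac, hc, rfl⟩
    obtain ⟨k, hk⟩ := hw.exists_crs hac hc
    refine Submodule.subset_span ⟨⟨k, hk.1⟩, ?_⟩
    obtain ⟨_, h1, _⟩ := rootVec_eq hq hw ⟨k, hk.1⟩
    rw [h1]
    exact congrArg₂ (fun x y => rootv n q (sgn w) x y) hk.2.1 hk.2.2

theorem nplusTw_eq {q : ℂ} (hq : NRU q) {w : List (Fin n)} (hw : W0 w) :
    nplusTw hq w = TTL n q (sgn w) := by
  apply le_antisymm
  · apply Submodule.span_le.mpr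
    rintro x ⟨k, rfl⟩
    obtain ⟨hc, _, h1⟩ := rootVec_eq hq hw k
    rw [h1]
    exact Submodule.subset_span ⟨_, _, hw.crs_lt hc, hw.crs_le hc, rfl⟩
  · apply Submodule.span_le.mpr
    rintro x ⟨a, c, hac, hc, rfl⟩
    obtain ⟨k, hk⟩ := hw.exists_crs hac hc
    refine Submodule.subset_span ⟨⟨k, hk.1⟩, ?_⟩
    obtain ⟨_, _, h1⟩ := rootVec_eq hq hw ⟨k, hk.1⟩
    rw [h1]
    exact congrArg₂ (fun x y => rootvL n q (sgn w) x y) hk.2.1 hk.2.2

/-- The five sign vectors `(abc, abd, acd, bcd)` of the right pattern. -/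
def rightSigns : List (List Bool) :=
  [[true, true, true, true], [false, true, true, true], [true, true, false, false],
    [false, false, false, false], [false, false, false, true]]

/-- The five sign vectors `(abc, abd, acd, bcd)` of the left pattern. -/
def leftSigns : List (List Bool) :=
  [[true, true, true, true], [true, true, true, false], [true, false, false, false],
    [false, false, false, false], [false, false, true, true]]

/-- All four-line subarrangements are of one of the five right types. -/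
def RightPattern (w : List (Fin n)) : Prop := ∀ a b c d : Fin (n + 1), a < b → b < c → c < d →
  [sign w a b c, sign w a b d, sign w a c d, sign w b c d] ∈ rightSigns

/-- All four-line subarrangements are of one of the five left types. -/
def LeftPattern (w : List (Fin n)) : Prop := ∀ a b c d : Fin (n + 1), a < b → b < c → c < d →
  [sign w a b c, sign w a b d, sign w a c d, sign w b c d] ∈ leftSigns

theorem bool_right (x y z t : Bool) : [x, y, z, t] ∈ rightSigns ↔
    (¬ (y = false ∧ z = true) ∧ (z = false → x = y) ∧ (y = true → t = z)) := by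
  revert x y z t; decide

theorem bool_left (x y z t : Bool) : [x, y, z, t] ∈ leftSigns ↔
    (¬ ((!y) = false ∧ (!z) = true) ∧ ((!z) = false → (!x) = (!y)) ∧ ((!y) = true → (!t) = (!z))) := by
  revert x y z t; decide

theorem rightPattern_iff (w : List (Fin n)) : RightPattern w ↔ RPat n (sgn w) := by
  constructor
  · intro h a b c d hab hbc hcd hd
    have := h ⟨a, by omega⟩ ⟨b, by omega⟩ ⟨c, by omega⟩ ⟨d, by omega⟩ (Fin.mk_lt_mk.mpr hab)
      (Fin.mk_lt_mk.mpr hbc) (Fin.mk_lt_mk.mpr hcd)
    rw [bool_right, sign_eq, sign_eq, sign_eq, sign_eq] at this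
    exact this
  · intro h a b c d hab hbc hcd
    rw [bool_right, sign_eq, sign_eq, sign_eq, sign_eq]
    exact h a b c d hab hbc hcd (by have := d.2; omega)

theorem leftPattern_iff (w : List (Fin n)) :
    LeftPattern w ↔ RPat n (fun a b c => !sgn w a b c) := by
  constructor
  · intro h a b c d hab hbc hcd hd
    have := h ⟨a, by omega⟩ ⟨b, by omega⟩ ⟨c, by omega⟩ ⟨d, by omega⟩ (Fin.mk_lt_mk.mpr hab)
      (Fin.mk_lt_mk.mpr hbc) (Fin.mk_lt_mk.mpr hcd)
    rw [bool_left, sign_eq, sign_eq, sign_eq, sign_eq] at this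
    exact this
  · intro h a b c d hab hbc hcd
    rw [bool_left, sign_eq, sign_eq, sign_eq, sign_eq]
    exact h a b c d hab hbc hcd (by have := d.2; omega)

/-- `max p` over the gaps in `[a, b)` is smaller than `max p` over the gaps in `[b, c)`; the gap
`x` lies between the lines `x` and `x + 1`. -/
def MaxLT (p : Fin n → ℕ) (a b c : ℕ) : Prop :=
  ∃ y : Fin n, b ≤ y ∧ y < c ∧ ∀ x : Fin n, a ≤ x → x < b → p x < p y

/-- `max p` over the gaps in `[a, b)` is larger than `max p` over the gaps in `[b, c)`. -/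
def MaxGT (p : Fin n → ℕ) (a b c : ℕ) : Prop :=
  ∃ x : Fin n, a ≤ x ∧ x < b ∧ ∀ y : Fin n, b ≤ y → y < c → p y < p x

theorem max_tri {p : Fin n → ℕ} (hp : Function.Injective p) {a b c : ℕ} (hab : a < b) (hbc : b < c)
    (hc : c ≤ n) : MaxGT p a b c ↔ ¬ MaxLT p a b c := by
  classical
  constructor
  · rintro ⟨x, h1, h2, h3⟩ ⟨y, h4, h5, h6⟩
    have := h3 y h4 h5
    have := h6 x h1 h2
    omega
  · intro h
    -- the maximum over `[a, c)`
    obtain ⟨m, hm, hmax⟩ := Finset.exists_max_image
      (Finset.univ.filter fun x : Fin n => a ≤ x ∧ (x : ℕ) < c) p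
      ⟨⟨a, by omega⟩, by simp; omega⟩
    simp only [Finset.mem_filter, Finset.mem_univ, true_and] at hm hmax
    have hlt : ∀ x : Fin n, a ≤ x → (x : ℕ) < c → x ≠ m → p x < p m := by
      intro x h1 h2 h3
      have := hmax x ⟨h1, h2⟩
      have h4 : p x ≠ p m := fun e => h3 (hp e)
      omega
    by_cases hmb : (m : ℕ) < b
    · refine ⟨m, hm.1, hmb, fun y h1 h2 => hlt y (by omega) h2 ?_⟩
      rintro rfl; omega
    · exfalso
      apply h
      refine ⟨m, by omega, hm.2, fun x h1 h2 => hlt x h1 (by omega) ?_⟩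
      rintro rfl; omega

theorem rpat_fin {σ : ℕ → ℕ → ℕ → Bool} : RPat n σ ↔ ∃ p : Fin n → ℕ,
    Function.Injective p ∧ ∀ a b c : ℕ, a < b → b < c → c ≤ n →
      (σ a b c = true ↔ MaxLT p a b c) := by
  rw [prior_iff]
  constructor
  · rintro ⟨p, h1, h2⟩
    refine ⟨fun x => p x, fun x y e => Fin.ext (h1 x y x.2 y.2 e), fun a b c hab hbc hc => ?_⟩
    rw [h2 a b c hab hbc hc]
    unfold PSign MaxLT
    constructor
    · rintro ⟨y, h3, h4, h5⟩
      exact ⟨⟨y, by omega⟩, h3, h4, fun x h6 h7 => h5 x h6 h7⟩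
    · rintro ⟨y, h3, h4, h5⟩
      refine ⟨y, h3, h4, fun x h6 h7 => h5 ⟨x, by have := y.2; omega⟩ h6 h7⟩
  · rintro ⟨p, h1, h2⟩
    let p' : ℕ → ℕ := fun x => if h : x < n then p ⟨x, h⟩ else 0
    have hp' : ∀ x : Fin n, p' x = p x := fun x => by
      show (if h : (x : ℕ) < n then p ⟨x, h⟩ else 0) = p x
      rw [dif_pos x.2]
    refine ⟨p', fun x y hx hy e => ?_, fun a b c hab hbc hc => ?_⟩
    · have := h1 (a₁ := ⟨x, hx⟩) (a₂ := ⟨y, hy⟩) (by rw [← hp', ← hp']; exact e)
      exact Fin.mk.inj_iff.mp this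
    · rw [h2 a b c hab hbc hc]
      unfold PSign MaxLT
      constructor
      · rintro ⟨y, h4, h5, h6⟩
        refine ⟨y, h4, h5, fun x h7 h8 => ?_⟩
        have hy := y.2
        have := h6 ⟨x, by omega⟩ h7 h8
        rw [← hp' y, ← hp' ⟨x, by omega⟩] at this
        exact this
      · rintro ⟨y, h4, h5, h6⟩
        refine ⟨⟨y, by omega⟩, h4, h5, fun x h7 h8 => ?_⟩
        rw [← hp', ← hp']
        exact h6 x h7 h8

theorem rightPattern_prior (w : List (Fin n)) : RightPattern w ↔ ∃ p : Fin n → ℕ,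
    Function.Injective p ∧ ∀ a b c : Fin (n + 1), a < b → b < c →
      (sign w a b c = true ↔ MaxLT p a b c) := by
  rw [rightPattern_iff, rpat_fin]
  constructor
  · rintro ⟨p, h1, h2⟩
    refine ⟨p, h1, fun a b c hab hbc => ?_⟩
    rw [sign_eq]
    exact h2 a b c hab hbc (by have := c.2; omega)
  · rintro ⟨p, h1, h2⟩
    refine ⟨p, h1, fun a b c hab hbc hc => ?_⟩
    have h3 := h2 ⟨a, by omega⟩ ⟨b, by omega⟩ ⟨c, by omega⟩ (Fin.mk_lt_mk.mpr hab)
      (Fin.mk_lt_mk.mpr hbc)
    rw [sign_eq] at h3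
    exact h3

theorem leftPattern_prior (w : List (Fin n)) : LeftPattern w ↔ ∃ p : Fin n → ℕ,
    Function.Injective p ∧ ∀ a b c : Fin (n + 1), a < b → b < c →
      (sign w a b c = true ↔ MaxGT p a b c) := by
  rw [leftPattern_iff, rpat_fin]
  constructor
  · rintro ⟨p, h1, h2⟩
    refine ⟨p, h1, fun a b c hab hbc => ?_⟩
    have hc : (c : ℕ) ≤ n := by have := c.2; omega
    have h3 := h2 a b c hab hbc hc
    rw [sign_eq, max_tri h1 hab hbc hc, ← h3]
    simp
  · rintro ⟨p, h1, h2⟩
    refine ⟨p, h1, fun a b c hab hbc hc => ?_⟩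
    have h3 := h2 ⟨a, by omega⟩ ⟨b, by omega⟩ ⟨c, by omega⟩ (Fin.mk_lt_mk.mpr hab)
      (Fin.mk_lt_mk.mpr hbc)
    rw [sign_eq] at h3
    have h4 : sgn w a b c = true ↔ MaxGT p a b c := h3
    rw [max_tri h1 hab hbc hc] at h4
    have h5 : (!sgn w a b c) = true ↔ ¬ (sgn w a b c = true) := by simp
    rw [h5, h4, not_not]

theorem two_sided_iff (w : List (Fin n)) : (RightPattern w ∧ LeftPattern w) ↔
    ∀ a b c a' b' c' : Fin (n + 1), a < b → b < c → a' < b' → b' < c' →
      sign w a b c = sign w a' b' c' := by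
  rw [rightPattern_iff, leftPattern_iff, two_sided]
  constructor
  · intro h a b c a' b' c' h1 h2 h3 h4
    rw [sign_eq, sign_eq]
    exact h a b c a' b' c' h1 h2 (by have := c.2; omega) h3 h4 (by have := c'.2; omega)
  · intro h a b c a' b' c' h1 h2 h3 h4 h5 h6
    have := h ⟨a, by omega⟩ ⟨b, by omega⟩ ⟨c, by omega⟩ ⟨a', by omega⟩ ⟨b', by omega⟩
      ⟨c', by omega⟩ (Fin.mk_lt_mk.mpr h1) (Fin.mk_lt_mk.mpr h2) (Fin.mk_lt_mk.mpr h4)
      (Fin.mk_lt_mk.mpr h5)
    rw [sign_eq, sign_eq] at this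
    exact this

/-- a diagonal matrix coefficient -/
noncomputable def dg (n : ℕ) {q : ℂ} (hq : NRU q) (P R : St) : Uq n q →ₗ[ℂ] ℂ :=
  (LinearMap.proj (P, R)).comp ((LinearMap.applyₗ (ind P R)).comp (rho n hq).toLinearMap)

theorem dg_apply {q : ℂ} (hq : NRU q) (P R : St) (u : Uq n q) :
    dg n hq P R u = rho n hq u (ind P R) (P, R) := rfl

theorem dg_one {q : ℂ} (hq : NRU q) (P R : St) : dg n hq P R 1 = 1 := by
  rw [dg_apply, map_one, Module.End.one_apply]
  unfold ind
  rw [if_pos ⟨rfl, rfl⟩]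

theorem dg_root {q : ℂ} (hq : NRU q) (P R : St) (s : ℕ → Bool) {x y : ℕ} (hxy : x < y)
    (hy : y ≤ n) : dg n hq P R (bv q (Uq.E' n q) s x (y - x - 1)) = 0 := by
  have hF : F1 n R (ind P R) := by
    intro P' R' hR
    unfold ind
    rw [if_neg]
    rintro ⟨_, h⟩
    have h' : R' = R := h
    rw [h'] at hR
    exact lt_irrefl _ hR
  have h1 := (int1_bv n hq R (s := s) (a := x) (m := y - x - 1) (by omega) (ind P R) hF).2
  have h2 := congrFun h1 P
  have e : x + (y - x - 1) + 1 = y := by omega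
  rw [dg_apply]
  change rho n hq (bv q (Uq.E' n q) s x (y - x - 1)) (ind P R) (P, R) = _ at h2
  rw [h2, eval1, e]
  split_ifs with h3
  · have h4 : mv x y P ≠ P := by
      intro h
      have := congrFun h x
      rw [mv_left, h3.1, h3.2] at this
      exact absurd this (by decide)
    unfold ind
    rw [if_neg (fun h => h4 h.1), mul_zero]
  · rfl

/-- The root vectors never span a left tangent space inside `U`. -/
theorem not_left {q : ℂ} (hq : NRU q) (hn : 1 ≤ n) (σ : ℕ → ℕ → ℕ → Bool) :
    ¬ IsLeftTangent hq (TT n q σ) := by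
  intro h
  have hE : Uq.E' n q 0 ∈ TT n q σ := Submodule.subset_span ⟨0, 1, by omega, hn, rfl⟩
  have h1 := h.2 _ (Submodule.mem_sup_left hE)
  let P : St := fun x => decide (x = 0)
  let P0 : St := fun x => decide (x = 1)
  let R : St := fun _ => false
  have h2 : tf (phi n hq P0 P) (dg n hq P R - dg n hq R R) (Uq.comul n hq (Uq.E' n q 0)) = 0 := by
    refine tf_kill (A := ⊥) (B := TT n q σ ⊔ Submodule.span ℂ {1}) ?_ ?_
      (Submodule.mem_sup_right h1)
    · intro x hx
      rw [Submodule.mem_bot] at hx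
      rw [hx, map_zero]
    · have : TT n q σ ⊔ Submodule.span ℂ {1} ≤ LinearMap.ker (dg n hq P R - dg n hq R R) := by
        apply sup_le
        · apply Submodule.span_le.mpr
          rintro z ⟨x, y, hxy, hy, rfl⟩
          change (dg n hq P R - dg n hq R R) (rootv n q σ x y) = 0
          unfold rootv
          rw [LinearMap.sub_apply, dg_root hq P R _ hxy hy, dg_root hq R R _ hxy hy, sub_zero]
        · apply Submodule.span_le.mpr
          intro z hz
          rw [Set.mem_singleton_iff.mp hz]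
          change (dg n hq P R - dg n hq R R) 1 = 0
          rw [LinearMap.sub_apply, dg_one, dg_one, sub_self]
      exact fun x hx => this hx
  rw [Uq.comul_E', map_add, tf_tmul, tf_tmul, phi_one hq, zero_mul, add_zero] at h2
  · have h3 := phi_root hq P0 P (fun _ => true) (x := 0) (y := 1) (by omega) hn
    have h4 : mv 0 1 P = P0 := by
      funext x
      by_cases h5 : x = 0
      · subst h5; rw [mv_left]; rfl
      · by_cases h6 : x = 1
        · subst h6; rw [mv_right]; rfl
        · rw [mv_ne _ h5 h6]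
          simp [P, P0, h5, h6]
    rw [if_pos ⟨rfl, rfl, h4⟩] at h3
    change phi n hq P0 P (Uq.E' n q 0) = _ at h3
    have h5 : (dg n hq P R - dg n hq R R) (Uq.K' n q 0) = q - 1 := by
      rw [LinearMap.sub_apply, dg_apply, dg_apply, rho_K hq (by omega), rho_K hq (by omega)]
      unfold ind
      rw [if_pos ⟨rfl, rfl⟩, if_pos ⟨rfl, rfl⟩]
      have e1 : wt 0 P = 1 := by simp [wt, P, bit]
      have e2 : wt 0 R = 0 := by simp [wt, R]
      rw [e1, e2]
      simp
    rw [h3, h5] at h2
    have h6 : q - 1 ≠ 0 := sub_ne_zero.mpr (by simpa using hq.ru 1 (by norm_num))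
    exact mul_ne_zero (mul_ne_zero (kp_ne hq.ne _ _ _ _) (zpow_ne_zero _ hq.ne)) h6 h2
  · intro he
    have := congrFun he 0
    simp [P, P0] at this

end Pool.Agent.H387.QT
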