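import Pool.Agent.H387.QT.If

/-!
# Representations on functions
-/

open scoped TensorProduct

namespace Pool.Agent.H387.QT

theorem Serre.map {R R' : Type*} [Ring R] [Algebra ℂ R] [Ring R'] [Algebra ℂ R'] {q : ℂ}
    {x y : R} (h : Serre q x y) (φ : R →ₐ[ℂ] R') : Serre q (φ x) (φ y) := by
  unfold Serre at *
  have := congrArg φ h
  simpa only [map_mul, map_smul, map_sub, map_add, map_zero] using this

theorem IsRep.map {n : ℕ} {A B : Type*} [Ring A] [Algebra ℂ A] [Ring B] [Algebra ℂ B] {q : ℂ}
    {e f k l : Fin n → A} (h : IsRep q e f k l) (φ : A →ₐ[ℂ] B) :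
    IsRep q (fun i => φ (e i)) (fun i => φ (f i)) (fun i => φ (k i)) (fun i => φ (l i)) where
  kl i := by rw [← map_mul, h.kl, map_one]
  lk i := by rw [← map_mul, h.lk, map_one]
  kk i j := by rw [← map_mul, h.kk, map_mul]
  ke i j := by rw [← map_mul, h.ke, map_smul, map_mul]
  kf i j := by rw [← map_mul, h.kf, map_smul, map_mul]
  ef i j := by
    rw [← map_mul, ← map_mul, ← map_sub, h.ef]
    split_ifs
    · rw [map_smul, map_sub]
    · rw [map_zero]
  ee i j hc := by rw [← map_mul, h.ee i j hc, map_mul]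
  ff i j hc := by rw [← map_mul, h.ff i j hc, map_mul]
  se i j hc := (h.se i j hc).map φ
  sf i j hc := (h.sf i j hc).map φ

namespace Uq

variable {n : ℕ} {q : ℂ}

theorem induction {C : Uq n q → Prop} (halg : ∀ r : ℂ, C (algebraMap ℂ _ r))
    (hE : ∀ i, C (E q i)) (hF : ∀ i, C (F q i)) (hK : ∀ i, C (K q i)) (hL : ∀ i, C (L q i))
    (hmul : ∀ x y, C x → C y → C (x * y)) (hadd : ∀ x y, C x → C y → C (x + y)) (x : Uq n q) :
    C x := by
  obtain ⟨y, rfl⟩ := mk_surjective n q x
  induction y using FreeAlgebra.induction with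
  | grade0 r => rw [AlgHom.commutes]; exact halg r
  | grade1 g =>
    cases g with
    | E i => exact hE i
    | F i => exact hF i
    | K i => exact hK i
    | L i => exact hL i
  | mul a b ha hb => rw [map_mul]; exact hmul _ _ ha hb
  | add a b ha hb => rw [map_add]; exact hadd _ _ ha hb

theorem commute_of_gens {A : Type*} [Ring A] [Algebra ℂ A] (ρ : Uq n q →ₐ[ℂ] A) (y : A)
    (hE : ∀ i, Commute (ρ (E q i)) y) (hF : ∀ i, Commute (ρ (F q i)) y)
    (hK : ∀ i, Commute (ρ (K q i)) y) (hL : ∀ i, Commute (ρ (L q i)) y) (x : Uq n q) :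
    Commute (ρ x) y := by
  induction x using induction with
  | halg r => rw [AlgHom.commutes]; exact Algebra.commutes r y
  | hE i => exact hE i
  | hF i => exact hF i
  | hK i => exact hK i
  | hL i => exact hL i
  | hmul a b ha hb => rw [map_mul]; exact ha.mul_left hb
  | hadd a b ha hb => rw [map_add]; exact ha.add_left hb

end Uq

/-- four families -/
structure Fam (n : ℕ) (A : Type*) where
  e : Fin n → A
  f : Fin n → A
  k : Fin n → A
  l : Fin n → A

/-- all pairs commute -/
structure AllComm {n : ℕ} {A : Type*} [Ring A] (x : Fin n → A) (e f k l : Fin n → A) : Prop where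
  e : ∀ i j, Commute (x i) (e j)
  f : ∀ i j, Commute (x i) (f j)
  k : ∀ i j, Commute (x i) (k j)
  l : ∀ i j, Commute (x i) (l j)

/-- the product of two commuting representations -/
theorem IsRep.mix {n : ℕ} {A : Type*} [Ring A] [Algebra ℂ A] {q : ℂ} (hq : NRU q)
    {e f k l e' f' k' l' : Fin n → A} (h : IsRep q e f k l) (h' : IsRep q e' f' k' l')
    (ce : AllComm e e' f' k' l') (cf : AllComm f e' f' k' l') (ck : AllComm k e' f' k' l')
    (cl : AllComm l e' f' k' l') :
    IsRep q (fun i => e i * k' i + e' i) (fun i => f i + l i * f' i) (fun i => k i * k' i)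
      (fun i => l i * l' i) := by
  have comm : ∀ x y, Commute (Uq.lift h x) (Uq.lift h' y) := by
    intro x y
    refine Uq.commute_of_gens _ _ ?_ ?_ ?_ ?_ x
    · intro i
      refine (Uq.commute_of_gens _ _ ?_ ?_ ?_ ?_ y).symm <;> intro j
      · rw [Uq.lift_E, Uq.lift_E]; exact (ce.e i j).symm
      · rw [Uq.lift_F, Uq.lift_E]; exact (ce.f i j).symm
      · rw [Uq.lift_K, Uq.lift_E]; exact (ce.k i j).symm
      · rw [Uq.lift_L, Uq.lift_E]; exact (ce.l i j).symm
    · intro i
      refine (Uq.commute_of_gens _ _ ?_ ?_ ?_ ?_ y).symm <;> intro j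
      · rw [Uq.lift_E, Uq.lift_F]; exact (cf.e i j).symm
      · rw [Uq.lift_F, Uq.lift_F]; exact (cf.f i j).symm
      · rw [Uq.lift_K, Uq.lift_F]; exact (cf.k i j).symm
      · rw [Uq.lift_L, Uq.lift_F]; exact (cf.l i j).symm
    · intro i
      refine (Uq.commute_of_gens _ _ ?_ ?_ ?_ ?_ y).symm <;> intro j
      · rw [Uq.lift_E, Uq.lift_K]; exact (ck.e i j).symm
      · rw [Uq.lift_F, Uq.lift_K]; exact (ck.f i j).symm
      · rw [Uq.lift_K, Uq.lift_K]; exact (ck.k i j).symm
      · rw [Uq.lift_L, Uq.lift_K]; exact (ck.l i j).symm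
    · intro i
      refine (Uq.commute_of_gens _ _ ?_ ?_ ?_ ?_ y).symm <;> intro j
      · rw [Uq.lift_E, Uq.lift_L]; exact (cl.e i j).symm
      · rw [Uq.lift_F, Uq.lift_L]; exact (cl.f i j).symm
      · rw [Uq.lift_K, Uq.lift_L]; exact (cl.k i j).symm
      · rw [Uq.lift_L, Uq.lift_L]; exact (cl.l i j).symm
  have hh := ((Uq.isRep n q).tensor (Uq.isRep n q) hq.ne).map
    (Algebra.TensorProduct.lift (Uq.lift h) (Uq.lift h') comm)
  simpa only [map_add, Algebra.TensorProduct.lift_tmul, Uq.lift_E, Uq.lift_F, Uq.lift_K,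
    Uq.lift_L, map_one, one_mul, mul_one] using hh

/-! ### The representation on functions of subsets -/

/-- occupation of a site, as an integer -/
def bit (b : Bool) : ℤ := if b then 1 else 0

/-- exchange the sites `i` and `j` -/
def mv (i j : ℕ) (P : ℕ → Bool) : ℕ → Bool := fun x => P (Equiv.swap i j x)

theorem mv_left (i j : ℕ) (P : ℕ → Bool) : mv i j P i = P j := by simp [mv]
theorem mv_right (i j : ℕ) (P : ℕ → Bool) : mv i j P j = P i := by simp [mv]
theorem mv_ne {i j x : ℕ} (P : ℕ → Bool) (h1 : x ≠ i) (h2 : x ≠ j) : mv i j P x = P x := by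
  simp [mv, Equiv.swap_apply_of_ne_of_ne h1 h2]
theorem mv_mv (i j : ℕ) (P : ℕ → Bool) : mv i j (mv i j P) = P := by
  funext x; simp [mv]

/-- weight -/
def wt (i : ℕ) (P : ℕ → Bool) : ℤ := bit (P i) - bit (P (i + 1))

section

variable (q : ℂ)

/-- action of `E_i` -/
noncomputable def fe (i : ℕ) : Module.End ℂ ((ℕ → Bool) → ℂ) where
  toFun g := fun P => if P i = true ∧ P (i + 1) = false then g (mv i (i + 1) P) else 0
  map_add' g g' := by funext P; simp only [Pi.add_apply]; split_ifs <;> simp
  map_smul' c g := by funext P; simp only [Pi.smul_apply, RingHom.id_apply]; split_ifs <;> simp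

/-- action of `F_i` -/
noncomputable def ff (i : ℕ) : Module.End ℂ ((ℕ → Bool) → ℂ) where
  toFun g := fun P => if P i = false ∧ P (i + 1) = true then g (mv i (i + 1) P) else 0
  map_add' g g' := by funext P; simp only [Pi.add_apply]; split_ifs <;> simp
  map_smul' c g := by funext P; simp only [Pi.smul_apply, RingHom.id_apply]; split_ifs <;> simp

/-- action of `K_i` -/
noncomputable def fk (i : ℕ) : Module.End ℂ ((ℕ → Bool) → ℂ) where
  toFun g := fun P => q ^ wt i P * g P
  map_add' g g' := by funext P; simp only [Pi.add_apply, mul_add]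
  map_smul' c g := by
    funext P; simp only [Pi.smul_apply, RingHom.id_apply, smul_eq_mul]; ring

/-- action of `K_i⁻¹` -/
noncomputable def fl (i : ℕ) : Module.End ℂ ((ℕ → Bool) → ℂ) where
  toFun g := fun P => q ^ (-wt i P) * g P
  map_add' g g' := by funext P; simp only [Pi.add_apply, mul_add]
  map_smul' c g := by
    funext P; simp only [Pi.smul_apply, RingHom.id_apply, smul_eq_mul]; ring

end

theorem fe_apply (i : ℕ) (g : (ℕ → Bool) → ℂ) (P : ℕ → Bool) :
    fe i g P = if P i = true ∧ P (i + 1) = false then g (mv i (i + 1) P) else 0 := rfl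
theorem ff_apply (i : ℕ) (g : (ℕ → Bool) → ℂ) (P : ℕ → Bool) :
    ff i g P = if P i = false ∧ P (i + 1) = true then g (mv i (i + 1) P) else 0 := rfl
theorem fk_apply (q : ℂ) (i : ℕ) (g : (ℕ → Bool) → ℂ) (P : ℕ → Bool) :
    fk q i g P = q ^ wt i P * g P := rfl
theorem fl_apply (q : ℂ) (i : ℕ) (g : (ℕ → Bool) → ℂ) (P : ℕ → Bool) :
    fl q i g P = q ^ (-wt i P) * g P := rfl

/-- The weight changes by the Cartan integer. -/
theorem wt_mv {n : ℕ} (i j : Fin n) (P : ℕ → Bool) (h1 : P j = true) (h2 : P ((j : ℕ) + 1) = false) :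
    wt i P = wt i (mv j (j + 1) P) + cartan i j := by
  have e1 := mv_left (j : ℕ) (j + 1) P
  have e2 := mv_right (j : ℕ) (j + 1) P
  rcases cartan_cases i j with h | h | h
  · subst h
    rw [cartan_self, wt, wt, e1, e2, h1, h2]
    simp [bit]
  · rw [h]
    rw [cartan_adj_iff] at h
    rcases h with h | h
    · have e3 : mv (j : ℕ) (j + 1) P i = P i := mv_ne P (by omega) (by omega)
      rw [wt, wt, h, e1, e3, h1, h2]
      simp [bit]
      ring
    · have e3 : mv (j : ℕ) (j + 1) P (i + 1) = P (i + 1) := mv_ne P (by omega) (by omega)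
      rw [← h] at e3 ⊢
      rw [wt, wt, e2, e3, h1, h2]
      simp [bit]
      ring
  · rw [h]
    rw [cartan_far_iff, Ne, Fin.ext_iff] at h
    have e3 : mv (j : ℕ) (j + 1) P i = P i := mv_ne P (by omega) (by omega)
    have e4 : mv (j : ℕ) (j + 1) P (i + 1) = P (i + 1) := mv_ne P (by omega) (by omega)
    rw [wt, wt, e3, e4]
    simp

theorem wt_mv' {n : ℕ} (i j : Fin n) (P : ℕ → Bool) (h1 : P j = false)
    (h2 : P ((j : ℕ) + 1) = true) : wt i P = wt i (mv j (j + 1) P) - cartan i j := by
  have := wt_mv i j (mv j (j + 1) P) (by rw [mv_left]; exact h2) (by rw [mv_right]; exact h1)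
  rw [mv_mv] at this
  omega

theorem mv_comm {i j : ℕ} (h : i + 1 < j ∨ j + 1 < i) (P : ℕ → Bool) :
    mv i (i + 1) (mv j (j + 1) P) = mv j (j + 1) (mv i (i + 1) P) := by
  funext x
  simp only [mv]
  congr 1
  simp only [Equiv.swap_apply_def]
  split_ifs <;> omega

theorem fe_fe (i : ℕ) : fe i * fe i = 0 := by
  apply LinearMap.ext; intro g; funext P
  rw [Module.End.mul_apply, fe_apply, fe_apply, mv_left, mv_right]
  by_cases h : P i = true
  · simp [h]
  · simp [h]

theorem ff_ff (i : ℕ) : ff i * ff i = 0 := by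
  apply LinearMap.ext; intro g; funext P
  rw [Module.End.mul_apply, ff_apply, ff_apply, mv_left, mv_right]
  by_cases h : P i = true
  · simp [h]
  · simp [h]

theorem fe_up_down (i : ℕ) : fe i * fe (i + 1) * fe i = 0 := by
  apply LinearMap.ext; intro g; funext P
  have e1 := mv_right i (i + 1) P
  have e2 : mv i (i + 1) P (i + 1 + 1) = P (i + 1 + 1) := mv_ne P (by omega) (by omega)
  have e3 : mv (i + 1) (i + 1 + 1) (mv i (i + 1) P) i = mv i (i + 1) P i :=
    mv_ne _ (by omega) (by omega)
  have e4 := mv_left i (i + 1) P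
  rw [Module.End.mul_apply, Module.End.mul_apply, fe_apply, fe_apply, fe_apply, e3, e4]
  by_cases h : P (i + 1) = true
  · simp [h]
  · simp [h]

theorem fe_down_up (i : ℕ) : fe (i + 1) * fe i * fe (i + 1) = 0 := by
  apply LinearMap.ext; intro g; funext P
  have e1 := mv_left (i + 1) (i + 1 + 1) P
  have e2 := mv_right (i + 1) (i + 1 + 1) P
  have e3 : mv i (i + 1) (mv (i + 1) (i + 1 + 1) P) (i + 1 + 1) = mv (i + 1) (i + 1 + 1) P (i + 1 + 1) :=
    mv_ne _ (by omega) (by omega)
  rw [Module.End.mul_apply, Module.End.mul_apply, fe_apply, fe_apply, fe_apply, e3, e2]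
  by_cases h : P (i + 1) = true
  · simp [h]
  · simp [h]

theorem ff_up_down (i : ℕ) : ff i * ff (i + 1) * ff i = 0 := by
  apply LinearMap.ext; intro g; funext P
  have e3 : mv (i + 1) (i + 1 + 1) (mv i (i + 1) P) i = mv i (i + 1) P i :=
    mv_ne _ (by omega) (by omega)
  have e4 := mv_left i (i + 1) P
  rw [Module.End.mul_apply, Module.End.mul_apply, ff_apply, ff_apply, ff_apply, e3, e4]
  by_cases h : P (i + 1) = true
  · simp [h]
  · simp [h]

theorem ff_down_up (i : ℕ) : ff (i + 1) * ff i * ff (i + 1) = 0 := by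
  apply LinearMap.ext; intro g; funext P
  have e2 := mv_right (i + 1) (i + 1 + 1) P
  have e3 : mv i (i + 1) (mv (i + 1) (i + 1 + 1) P) (i + 1 + 1) = mv (i + 1) (i + 1 + 1) P (i + 1 + 1) :=
    mv_ne _ (by omega) (by omega)
  rw [Module.End.mul_apply, Module.End.mul_apply, ff_apply, ff_apply, ff_apply, e3, e2]
  by_cases h : P (i + 1) = true
  · simp [h]
  · simp [h]

theorem fe_comm_far {i j : ℕ} (h : i + 1 < j ∨ j + 1 < i) : fe i * fe j = fe j * fe i := by
  apply LinearMap.ext; intro g; funext P
  have e1 : mv i (i + 1) P j = P j := mv_ne P (by omega) (by omega)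
  have e2 : mv i (i + 1) P (j + 1) = P (j + 1) := mv_ne P (by omega) (by omega)
  have e3 : mv j (j + 1) P i = P i := mv_ne P (by omega) (by omega)
  have e4 : mv j (j + 1) P (i + 1) = P (i + 1) := mv_ne P (by omega) (by omega)
  rw [Module.End.mul_apply, Module.End.mul_apply, fe_apply, fe_apply, fe_apply, fe_apply, e1, e2,
    e3, e4, mv_comm h]
  split_ifs <;> rfl

theorem ff_comm_far {i j : ℕ} (h : i + 1 < j ∨ j + 1 < i) : ff i * ff j = ff j * ff i := by
  apply LinearMap.ext; intro g; funext P
  have e1 : mv i (i + 1) P j = P j := mv_ne P (by omega) (by omega)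
  have e2 : mv i (i + 1) P (j + 1) = P (j + 1) := mv_ne P (by omega) (by omega)
  have e3 : mv j (j + 1) P i = P i := mv_ne P (by omega) (by omega)
  have e4 : mv j (j + 1) P (i + 1) = P (i + 1) := mv_ne P (by omega) (by omega)
  rw [Module.End.mul_apply, Module.End.mul_apply, ff_apply, ff_apply, ff_apply, ff_apply, e1, e2,
    e3, e4, mv_comm h]
  split_ifs <;> rfl

theorem fe_ff_comm {i j : ℕ} (h : i ≠ j) : fe i * ff j = ff j * fe i := by
  apply LinearMap.ext; intro g; funext P
  rw [Module.End.mul_apply, Module.End.mul_apply, fe_apply, ff_apply, ff_apply, fe_apply]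
  by_cases h1 : j = i + 1
  · subst h1
    have e1 := mv_right i (i + 1) P
    have e2 := mv_left (i + 1) (i + 1 + 1) P
    rw [e1, e2]
    by_cases h2 : P i = true <;> by_cases h3 : P (i + 1 + 1) = true <;> simp [h2, h3]
  · by_cases h2 : i = j + 1
    · subst h2
      have e1 := mv_left (j + 1) (j + 1 + 1) P
      have e2 := mv_right j (j + 1) P
      rw [e1, e2]
      by_cases h2 : P j = true <;> by_cases h3 : P (j + 1 + 1) = true <;> simp [h2, h3]
    · have e1 : mv i (i + 1) P j = P j := mv_ne P (by omega) (by omega)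
      have e2 : mv i (i + 1) P (j + 1) = P (j + 1) := mv_ne P (by omega) (by omega)
      have e3 : mv j (j + 1) P i = P i := mv_ne P (by omega) (by omega)
      have e4 : mv j (j + 1) P (i + 1) = P (i + 1) := mv_ne P (by omega) (by omega)
      rw [e1, e2, e3, e4, mv_comm (by omega)]
      split_ifs <;> rfl

/-- the representation of `U_q(sl_{n+1})` on functions of subsets -/
theorem funRep (n : ℕ) {q : ℂ} (hq : NRU q) : IsRep (n := n) q (fun i => fe i) (fun i => ff i)
    (fun i => fk q i) (fun i => fl q i) where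
  kl i := by
    apply LinearMap.ext; intro g; funext P
    rw [Module.End.mul_apply, fk_apply, fl_apply, ← mul_assoc, ← zpow_add₀ hq.ne, add_neg_cancel]
    simp
  lk i := by
    apply LinearMap.ext; intro g; funext P
    rw [Module.End.mul_apply, fl_apply, fk_apply, ← mul_assoc, ← zpow_add₀ hq.ne, neg_add_cancel]
    simp
  kk i j := by
    apply LinearMap.ext; intro g; funext P
    rw [Module.End.mul_apply, Module.End.mul_apply, fk_apply, fk_apply, fk_apply, fk_apply]
    ring
  ke i j := by
    apply LinearMap.ext; intro g; funext P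
    rw [Module.End.mul_apply, fk_apply, fe_apply, LinearMap.smul_apply, Pi.smul_apply,
      Module.End.mul_apply, fe_apply]
    split_ifs with hc
    · rw [fk_apply, wt_mv i j P hc.1 hc.2, zpow_add₀ hq.ne, smul_eq_mul]
      ring
    · simp
  kf i j := by
    apply LinearMap.ext; intro g; funext P
    rw [Module.End.mul_apply, fk_apply, ff_apply, LinearMap.smul_apply, Pi.smul_apply,
      Module.End.mul_apply, ff_apply]
    split_ifs with hc
    · rw [fk_apply, wt_mv' i j P hc.1 hc.2, sub_eq_add_neg, zpow_add₀ hq.ne, smul_eq_mul]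
      ring
    · simp
  ef i j := by
    by_cases hij : i = j
    · subst hij
      rw [if_pos rfl]
      apply LinearMap.ext; intro g; funext P
      rw [LinearMap.sub_apply, Pi.sub_apply, Module.End.mul_apply, fe_apply, ff_apply,
        Module.End.mul_apply, ff_apply, fe_apply, mv_left, mv_right, mv_mv, LinearMap.smul_apply,
        Pi.smul_apply, LinearMap.sub_apply, Pi.sub_apply, fk_apply, fl_apply, wt]
      have hqq := qsub_ne hq.ne hq.q2
      have hne := hq.ne
      have hq2 := hq.q2
      rcases h1 : P i with _ | _ <;> rcases h2 : P ((i : ℕ) + 1) with _ | _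
      · simp [bit]
      · simp [bit]
        field_simp
        ring
      · simp [bit]
        field_simp
      · simp [bit]
    · rw [if_neg hij, sub_eq_zero]
      exact fe_ff_comm (fun h => hij (Fin.ext h))
  ee i j hc := by
    rw [cartan_far_iff, Ne, Fin.ext_iff] at hc
    exact fe_comm_far (by omega)
  ff i j hc := by
    rw [cartan_far_iff, Ne, Fin.ext_iff] at hc
    exact ff_comm_far (by omega)
  se i j hc := by
    rw [cartan_adj_iff] at hc
    have : fe i * fe j * fe i = 0 := by
      rcases hc with hc | hc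
      · rw [← hc]; exact fe_up_down _
      · rw [← hc]; exact fe_down_up _
    unfold Serre
    rw [fe_fe, zero_mul, this, mul_assoc, fe_fe, mul_zero]
    simp
  sf i j hc := by
    rw [cartan_adj_iff] at hc
    have : ff i * ff j * ff i = 0 := by
      rcases hc with hc | hc
      · rw [← hc]; exact ff_up_down _
      · rw [← hc]; exact ff_down_up _
    unfold Serre
    rw [ff_ff, zero_mul, this, mul_assoc, ff_ff, mul_zero]
    simp

end Pool.Agent.H387.QT
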