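import Pool.Agent.H387.QT.FunRep

/-!
# The representation on functions of pairs of subsets, and functionals
-/

open scoped TensorProduct

namespace Pool.Agent.H387.QT

/-- states -/
abbrev St := ℕ → Bool

/-- act on the first variable -/
noncomputable def leg1 : Module.End ℂ (St → ℂ) →ₐ[ℂ] Module.End ℂ (St × St → ℂ) where
  toFun A :=
    { toFun := fun g => fun p => A (fun x => g (x, p.2)) p.1
      map_add' := fun g g' => by
        funext p
        have : (fun x => (g + g') (x, p.2)) = (fun x => g (x, p.2)) + fun x => g' (x, p.2) := rfl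
        rw [this, map_add]; rfl
      map_smul' := fun c g => by
        funext p
        have : (fun x => (c • g) (x, p.2)) = c • (fun x => g (x, p.2)) := rfl
        rw [this, map_smul]; rfl }
  map_one' := rfl
  map_mul' A B := rfl
  map_zero' := rfl
  map_add' A B := rfl
  commutes' r := rfl

/-- act on the second variable -/
noncomputable def leg2 : Module.End ℂ (St → ℂ) →ₐ[ℂ] Module.End ℂ (St × St → ℂ) where
  toFun A :=
    { toFun := fun g => fun p => A (fun x => g (p.1, x)) p.2
      map_add' := fun g g' => by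
        funext p
        have : (fun x => (g + g') (p.1, x)) = (fun x => g (p.1, x)) + fun x => g' (p.1, x) := rfl
        rw [this, map_add]; rfl
      map_smul' := fun c g => by
        funext p
        have : (fun x => (c • g) (p.1, x)) = c • (fun x => g (p.1, x)) := rfl
        rw [this, map_smul]; rfl }
  map_one' := rfl
  map_mul' A B := rfl
  map_zero' := rfl
  map_add' A B := rfl
  commutes' r := rfl

theorem leg1_apply (A : Module.End ℂ (St → ℂ)) (g : St × St → ℂ) (p : St × St) :
    leg1 A g p = A (fun x => g (x, p.2)) p.1 := rfl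

theorem leg2_apply (A : Module.End ℂ (St → ℂ)) (g : St × St → ℂ) (p : St × St) :
    leg2 A g p = A (fun x => g (p.1, x)) p.2 := rfl

theorem allComm_e (n : ℕ) (q : ℂ) : AllComm (n := n) (fun i : Fin n => leg1 (fe i))
    (fun i : Fin n => leg2 (fe i)) (fun i => leg2 (ff i)) (fun i => leg2 (fk q i))
    (fun i => leg2 (fl q i)) := by
  constructor <;> intro i j <;> apply LinearMap.ext <;> intro g <;> funext p <;>
    simp only [Module.End.mul_apply, leg1_apply, leg2_apply, fe_apply, ff_apply, fk_apply,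
      fl_apply] <;> split_ifs <;> simp

theorem allComm_f (n : ℕ) (q : ℂ) : AllComm (n := n) (fun i : Fin n => leg1 (ff i))
    (fun i : Fin n => leg2 (fe i)) (fun i => leg2 (ff i)) (fun i => leg2 (fk q i))
    (fun i => leg2 (fl q i)) := by
  constructor <;> intro i j <;> apply LinearMap.ext <;> intro g <;> funext p <;>
    simp only [Module.End.mul_apply, leg1_apply, leg2_apply, fe_apply, ff_apply, fk_apply,
      fl_apply] <;> split_ifs <;> simp

theorem allComm_k (n : ℕ) (q : ℂ) : AllComm (n := n) (fun i : Fin n => leg1 (fk q i))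
    (fun i : Fin n => leg2 (fe i)) (fun i => leg2 (ff i)) (fun i => leg2 (fk q i))
    (fun i => leg2 (fl q i)) := by
  constructor <;> intro i j <;> apply LinearMap.ext <;> intro g <;> funext p <;>
    simp only [Module.End.mul_apply, leg1_apply, leg2_apply, fe_apply, ff_apply, fk_apply,
      fl_apply] <;> (try split_ifs) <;> (try simp) <;> ring

theorem allComm_l (n : ℕ) (q : ℂ) : AllComm (n := n) (fun i : Fin n => leg1 (fl q i))
    (fun i : Fin n => leg2 (fe i)) (fun i => leg2 (ff i)) (fun i => leg2 (fk q i))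
    (fun i => leg2 (fl q i)) := by
  constructor <;> intro i j <;> apply LinearMap.ext <;> intro g <;> funext p <;>
    simp only [Module.End.mul_apply, leg1_apply, leg2_apply, fe_apply, ff_apply, fk_apply,
      fl_apply] <;> (try split_ifs) <;> (try simp) <;> ring

theorem funRep2 (n : ℕ) {q : ℂ} (hq : NRU q) : IsRep (n := n) q
    (fun i => leg1 (fe i) * leg2 (fk q i) + leg2 (fe i))
    (fun i => leg1 (ff i) + leg1 (fl q i) * leg2 (ff i))
    (fun i => leg1 (fk q i) * leg2 (fk q i)) (fun i => leg1 (fl q i) * leg2 (fl q i)) :=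
  IsRep.mix hq ((funRep n hq).map leg1) ((funRep n hq).map leg2) (allComm_e n q) (allComm_f n q)
    (allComm_k n q) (allComm_l n q)

/-- The representation of `U_q(sl_{n+1})` on functions of two subsets. -/
noncomputable def rho (n : ℕ) {q : ℂ} (hq : NRU q) : Uq n q →ₐ[ℂ] Module.End ℂ (St × St → ℂ) :=
  Uq.lift (funRep2 n hq)

theorem rho_E {n : ℕ} {q : ℂ} (hq : NRU q) {i : ℕ} (hi : i < n) (g : St × St → ℂ) (P R : St) :
    rho n hq (Uq.E' n q i) g (P, R) =
      (if P i = true ∧ P (i + 1) = false then q ^ wt i R * g (mv i (i + 1) P, R) else 0)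
      + (if R i = true ∧ R (i + 1) = false then g (P, mv i (i + 1) R) else 0) := by
  rw [rho, Uq.E'_of_lt hi, Uq.lift_E]
  rfl

theorem rho_K {n : ℕ} {q : ℂ} (hq : NRU q) {i : ℕ} (hi : i < n) (g : St × St → ℂ) (P R : St) :
    rho n hq (Uq.K' n q i) g (P, R) = q ^ wt i P * (q ^ wt i R * g (P, R)) := by
  rw [rho, Uq.K'_of_lt hi, Uq.lift_K]
  rfl

/-- energy of a state -/
def en (n : ℕ) (R : St) : ℕ := ∑ x ∈ Finset.range (n + 1), if R x = true then x else 0

theorem en_mv {n i : ℕ} (hi : i < n) {R : St} (h1 : R i = true) (h2 : R (i + 1) = false) :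
    en n R < en n (mv i (i + 1) R) := by
  have key : en n (mv i (i + 1) R) =
      ∑ y ∈ Finset.range (n + 1), if R y = true then Equiv.swap i (i + 1) y else 0 := by
    unfold en
    refine Finset.sum_equiv (Equiv.swap i (i + 1)) ?_ ?_
    · intro x
      simp only [Finset.mem_range, Equiv.swap_apply_def]
      split_ifs <;> omega
    · intro x _
      have hx : Equiv.swap i (i + 1) (Equiv.swap i (i + 1) x) = x := by simp
      rw [hx]
      rfl
  rw [key]
  unfold en
  apply Finset.sum_lt_sum
  · intro y _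
    by_cases hy : R y = true
    · rw [if_pos hy, if_pos hy]
      by_cases h3 : y = i
      · subst h3; rw [Equiv.swap_apply_left]; omega
      · by_cases h4 : y = i + 1
        · subst h4; rw [h2] at hy; exact absurd hy (by decide)
        · rw [Equiv.swap_apply_of_ne_of_ne h3 h4]
    · rw [if_neg hy, if_neg hy]
  · refine ⟨i, Finset.mem_range.mpr (by omega), ?_⟩
    rw [if_pos h1, if_pos h1, Equiv.swap_apply_left]; omega

/-- `E_i` with a parameter, on functions of one subset -/
noncomputable def eo1 (c : ℕ → ℂ) (i : ℕ) : Module.End ℂ (St → ℂ) where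
  toFun g := fun P => if P i = true ∧ P (i + 1) = false then c i * g (mv i (i + 1) P) else 0
  map_add' g g' := by funext P; simp only [Pi.add_apply]; split_ifs <;> simp [mul_add]
  map_smul' c g := by
    funext P; simp only [Pi.smul_apply, RingHom.id_apply, smul_eq_mul]; split_ifs
    · ring
    · simp

/-- `E_i` with parameters, on functions of two subsets -/
noncomputable def eo2 (q : ℂ) (c d : ℕ → ℂ) (i : ℕ) : Module.End ℂ (St × St → ℂ) where
  toFun g := fun p =>
    (if p.1 i = true ∧ p.1 (i + 1) = false then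
      c i * q ^ wt i p.2 * g (mv i (i + 1) p.1, p.2) else 0)
    + (if p.2 i = true ∧ p.2 (i + 1) = false then d i * g (p.1, mv i (i + 1) p.2) else 0)
  map_add' g g' := by funext P; simp only [Pi.add_apply]; split_ifs <;> simp [mul_add] <;> ring
  map_smul' c g := by
    funext P; simp only [Pi.smul_apply, RingHom.id_apply, smul_eq_mul]; split_ifs
    · ring
    · ring
    · ring
    · simp

theorem eo1_apply (c : ℕ → ℂ) (i : ℕ) (g : St → ℂ) (P : St) : eo1 c i g P =
    if P i = true ∧ P (i + 1) = false then c i * g (mv i (i + 1) P) else 0 := rfl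

theorem eo2_apply (q : ℂ) (c d : ℕ → ℂ) (i : ℕ) (g : St × St → ℂ) (P Q : St) :
    eo2 q c d i g (P, Q) =
    (if P i = true ∧ P (i + 1) = false then c i * q ^ wt i Q * g (mv i (i + 1) P, Q) else 0)
    + (if Q i = true ∧ Q (i + 1) = false then d i * g (P, mv i (i + 1) Q) else 0) := rfl

section slice1

variable (n : ℕ) {q : ℂ} (hq : NRU q) (P2 : St)

/-- functions vanishing above the energy of `P2` in the second variable -/
def F1 (h : St × St → ℂ) : Prop := ∀ P R, en n P2 < en n R → h (P, R) = 0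

/-- `u` acts through `O` on slices -/
def Int1 (u : Uq n q) (O : Module.End ℂ (St → ℂ)) : Prop :=
  ∀ h, F1 n P2 h → F1 n P2 (rho n hq u h) ∧
    (fun P => rho n hq u h (P, P2)) = O (fun P => h (P, P2))

theorem int1_E {i : ℕ} (hi : i < n) :
    Int1 n hq P2 (Uq.E' n q i) (eo1 (fun i => q ^ wt i P2) i) := by
  intro h hh
  constructor
  · intro P R hR
    rw [rho_E hq hi]
    rw [hh _ R hR]
    split_ifs with h1 h2 h2
    · rw [hh P _ (hR.trans (en_mv hi h2.1 h2.2))]; simp
    · simp
    · rw [hh P _ (hR.trans (en_mv hi h2.1 h2.2))]; simp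
    · simp
  · funext P
    rw [rho_E hq hi, eo1_apply]
    by_cases h2 : P2 i = true ∧ P2 (i + 1) = false
    · rw [hh P _ (en_mv hi h2.1 h2.2)]
      simp
    · rw [if_neg h2, add_zero]

theorem Int1.qb {n : ℕ} {hq : NRU q} {P2 : St} {u v : Uq n q} {O O' : Module.End ℂ (St → ℂ)}
    (hu : Int1 n hq P2 u O) (hv : Int1 n hq P2 v O') :
    Int1 n hq P2 (qb q u v) (qb q O O') := by
  intro h hh
  obtain ⟨f1, e1⟩ := hu h hh
  obtain ⟨f2, e2⟩ := hv h hh
  obtain ⟨f3, e3⟩ := hu _ f2
  obtain ⟨f4, e4⟩ := hv _ f1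
  have key : rho n hq (QT.qb q u v) h = -(rho n hq u (rho n hq v h)
      - q⁻¹ • rho n hq v (rho n hq u h)) := by
    simp only [QT.qb, map_neg, map_sub, map_mul, map_smul, LinearMap.neg_apply,
      LinearMap.sub_apply, LinearMap.smul_apply, Module.End.mul_apply]
  rw [key]
  constructor
  · intro P R hR
    simp only [Pi.neg_apply, Pi.sub_apply, Pi.smul_apply, f3 P R hR, f4 P R hR]
    simp
  · simp only [QT.qb, LinearMap.neg_apply, LinearMap.sub_apply, LinearMap.smul_apply,
      Module.End.mul_apply]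
    rw [← e2, ← e1, ← e3, ← e4]
    rfl

theorem int1_bv {s : ℕ → Bool} {a m : ℕ} (h : a + m < n) :
    Int1 n hq P2 (bv q (Uq.E' n q) s a m) (bv q (eo1 (fun i => q ^ wt i P2)) s a m) := by
  induction m with
  | zero => exact int1_E n hq P2 h
  | succ m ih =>
    have ih := ih (by omega)
    have h1 := int1_E n hq P2 (i := a + m + 1) h
    rw [bv, bv]
    split_ifs
    · exact ih.qb h1
    · exact h1.qb ih

end slice1

section slice2

variable (n : ℕ) {q : ℂ} (hq : NRU q) (f g : St × St → ℂ)

/-- the functional `u ⊗ u' ↦ (u f)(p) (u' g)(r)` -/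
noncomputable def pr (p r : St × St) : Uq n q ⊗[ℂ] Uq n q →ₗ[ℂ] ℂ :=
  TensorProduct.lift
    ((LinearMap.mul ℂ ℂ).compl₁₂
      ((LinearMap.proj p).comp ((LinearMap.applyₗ f).comp (rho n hq).toLinearMap))
      ((LinearMap.proj r).comp ((LinearMap.applyₗ g).comp (rho n hq).toLinearMap)))

theorem pr_tmul (p r : St × St) (u v : Uq n q) :
    pr n hq f g p r (u ⊗ₜ[ℂ] v) = rho n hq u f p * rho n hq v g r := rfl

theorem pr_E {i : ℕ} (hi : i < n) (z : Uq n q ⊗[ℂ] Uq n q) (P R Q S : St) :
    pr n hq f g (P, R) (Q, S) (Uq.comul n hq (Uq.E' n q i) * z) =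
      (if P i = true ∧ P (i + 1) = false then
        (q ^ wt i R * (q ^ wt i Q * q ^ wt i S)) * pr n hq f g (mv i (i + 1) P, R) (Q, S) z else 0)
      + (if R i = true ∧ R (i + 1) = false then
        (q ^ wt i Q * q ^ wt i S) * pr n hq f g (P, mv i (i + 1) R) (Q, S) z else 0)
      + (if Q i = true ∧ Q (i + 1) = false then
        q ^ wt i S * pr n hq f g (P, R) (mv i (i + 1) Q, S) z else 0)
      + (if S i = true ∧ S (i + 1) = false then
        pr n hq f g (P, R) (Q, mv i (i + 1) S) z else 0) := by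
  induction z using TensorProduct.induction_on with
  | zero => simp
  | add z z' h1 h2 =>
    rw [mul_add]
    simp only [map_add, h1, h2]
    split_ifs <;> ring
  | tmul u v =>
    rw [Uq.comul_E', add_mul, Algebra.TensorProduct.tmul_mul_tmul,
      Algebra.TensorProduct.tmul_mul_tmul, one_mul, map_add, pr_tmul, pr_tmul, map_mul, map_mul,
      map_mul, Module.End.mul_apply, Module.End.mul_apply, Module.End.mul_apply, rho_E hq hi,
      rho_E hq hi, rho_K hq hi]
    simp only [pr_tmul]
    split_ifs <;> ring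

variable (P2 Q2 : St)

/-- vanishing above the energies of `P2`, `Q2` -/
def F2 (z : Uq n q ⊗[ℂ] Uq n q) : Prop :=
  ∀ P R Q S, (en n P2 < en n R ∨ en n Q2 < en n S) → pr n hq f g (P, R) (Q, S) z = 0

/-- the slice -/
noncomputable def sl2 (z : Uq n q ⊗[ℂ] Uq n q) : St × St → ℂ :=
  fun p => pr n hq f g (p.1, P2) (p.2, Q2) z

/-- `u` acts through `O` on slices -/
def Int2 (u : Uq n q) (O : Module.End ℂ (St × St → ℂ)) : Prop :=
  ∀ z, F2 n hq f g P2 Q2 z → F2 n hq f g P2 Q2 (Uq.comul n hq u * z) ∧
    sl2 n hq f g P2 Q2 (Uq.comul n hq u * z) = O (sl2 n hq f g P2 Q2 z)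

theorem int2_E {i : ℕ} (hi : i < n) : Int2 n hq f g P2 Q2 (Uq.E' n q i)
    (eo2 q (fun i => q ^ wt i P2 * q ^ wt i Q2) (fun i => q ^ wt i Q2) i) := by
  intro z hz
  constructor
  · intro P R Q S hRS
    rw [pr_E n hq f g hi, hz _ R _ S hRS, hz P R _ S hRS]
    have t1 : (if R i = true ∧ R (i + 1) = false then
        (q ^ wt i Q * q ^ wt i S) * pr n hq f g (P, mv i (i + 1) R) (Q, S) z else 0) = 0 := by
      split_ifs with h2
      · rw [hz P _ Q S (hRS.imp (fun h => h.trans (en_mv hi h2.1 h2.2)) id), mul_zero]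
      · rfl
    have t2 : (if S i = true ∧ S (i + 1) = false then
        pr n hq f g (P, R) (Q, mv i (i + 1) S) z else 0) = 0 := by
      split_ifs with h2
      · rw [hz P R Q _ (hRS.imp id (fun h => h.trans (en_mv hi h2.1 h2.2)))]
      · rfl
    rw [t1, t2]
    simp
  · funext ⟨P, Q⟩
    rw [sl2, pr_E n hq f g hi, eo2_apply]
    have t1 : (if P2 i = true ∧ P2 (i + 1) = false then
        (q ^ wt i Q * q ^ wt i Q2) * pr n hq f g (P, mv i (i + 1) P2) (Q, Q2) z else 0) = 0 := by
      split_ifs with h2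
      · rw [hz P _ Q Q2 (Or.inl (en_mv hi h2.1 h2.2)), mul_zero]
      · rfl
    have t2 : (if Q2 i = true ∧ Q2 (i + 1) = false then
        pr n hq f g (P, P2) (Q, mv i (i + 1) Q2) z else 0) = 0 := by
      split_ifs with h2
      · rw [hz P P2 Q _ (Or.inr (en_mv hi h2.1 h2.2))]
      · rfl
    rw [t1, t2]
    simp only [sl2]
    split_ifs <;> ring

theorem Int2.qb {n : ℕ} {hq : NRU q} {f g : St × St → ℂ} {P2 Q2 : St} {u v : Uq n q}
    {O O' : Module.End ℂ (St × St → ℂ)}
    (hu : Int2 n hq f g P2 Q2 u O) (hv : Int2 n hq f g P2 Q2 v O') :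
    Int2 n hq f g P2 Q2 (qb q u v) (qb q O O') := by
  intro z hz
  obtain ⟨f1, e1⟩ := hu z hz
  obtain ⟨f2, e2⟩ := hv z hz
  obtain ⟨f3, e3⟩ := hu _ f2
  obtain ⟨f4, e4⟩ := hv _ f1
  have key : Uq.comul n hq (QT.qb q u v) * z = -(Uq.comul n hq u * (Uq.comul n hq v * z)
      - q⁻¹ • (Uq.comul n hq v * (Uq.comul n hq u * z))) := by
    simp only [QT.qb, map_neg, map_sub, map_mul, map_smul, neg_mul, sub_mul, smul_mul_assoc,
      mul_assoc]
  rw [key]
  constructor
  · intro P R Q S hR
    rw [map_neg, map_sub, map_smul, f3 P R Q S hR, f4 P R Q S hR]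
    simp
  · simp only [QT.qb, LinearMap.neg_apply, LinearMap.sub_apply, LinearMap.smul_apply,
      Module.End.mul_apply]
    rw [← e2, ← e1, ← e3, ← e4]
    funext p
    simp only [sl2, map_neg, map_sub, map_smul]
    rfl

theorem int2_bv {s : ℕ → Bool} {a m : ℕ} (h : a + m < n) :
    Int2 n hq f g P2 Q2 (bv q (Uq.E' n q) s a m)
      (bv q (eo2 q (fun i => q ^ wt i P2 * q ^ wt i Q2) (fun i => q ^ wt i Q2)) s a m) := by
  induction m with
  | zero => exact int2_E n hq f g P2 Q2 h
  | succ m ih =>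
    have ih := ih (by omega)
    have h1 := int2_E n hq f g P2 Q2 (i := a + m + 1) h
    rw [bv, bv]
    split_ifs
    · exact ih.qb h1
    · exact h1.qb ih

end slice2

end Pool.Agent.H387.QT
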