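import Pool.Agent.H387.QT.Words

/-!
# The coproduct of root vectors: sufficiency
-/

open scoped TensorProduct

namespace Pool.Agent.H387.QT

namespace Uq

variable {n : ℕ} {q : ℂ}

/-- The generator `K_x`, `x : ℕ`, with value `1` when `x` is out of range. -/
noncomputable def K' (n : ℕ) (q : ℂ) (x : ℕ) : Uq n q := if h : x < n then K q ⟨x, h⟩ else 1

theorem K'_of_lt {x : ℕ} (h : x < n) : K' n q x = K q ⟨x, h⟩ := by rw [K', dif_pos h]
theorem K'_of_ge {x : ℕ} (h : n ≤ x) : K' n q x = 1 := by rw [K', dif_neg (by omega)]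

theorem K'_comm_E' (x y : ℕ) (h : y + 1 < x ∨ x + 1 < y) :
    K' n q x * E' n q y = E' n q y * K' n q x := by
  by_cases hx : x < n
  · rw [K'_of_lt hx]
    exact K_comm_E' ⟨x, hx⟩ y (by simp only; omega) (by simp only; omega) (by simp only; omega)
  · rw [K'_of_ge (by omega)]; simp

theorem K'_E'_pred {x : ℕ} (hx : x + 1 < n) :
    K' n q (x + 1) * E' n q x = q⁻¹ • (E' n q x * K' n q (x + 1)) := by
  rw [K'_of_lt hx]
  exact K_E'_pred ⟨x + 1, hx⟩ x rfl

theorem K'_E'_succ (x : ℕ) :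
    K' n q x * E' n q (x + 1) = q⁻¹ • (E' n q (x + 1) * K' n q x) := by
  by_cases hx : x < n
  · rw [K'_of_lt hx]
    exact K_E'_succ ⟨x, hx⟩ (x + 1) rfl
  · rw [E'_of_ge (by omega)]; simp

theorem K'_comm_K' (x y : ℕ) : K' n q x * K' n q y = K' n q y * K' n q x := by
  by_cases hx : x < n
  · by_cases hy : y < n
    · rw [K'_of_lt hx, K'_of_lt hy]; exact (isRep n q).kk _ _
    · rw [K'_of_ge (by omega : n ≤ y)]; simp
  · rw [K'_of_ge (by omega : n ≤ x)]; simp

theorem K'_comm_bv {s : ℕ → Bool} {a m x : ℕ} (h : a + m + 1 < x) :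
    K' n q x * bv q (E' n q) s a m = bv q (E' n q) s a m * K' n q x :=
  comm_bv m fun z _ h2 => K'_comm_E' x z (by omega)

theorem K'_bv_pred {s : ℕ → Bool} {a m : ℕ} (h : a + m + 1 < n) :
    K' n q (a + m + 1) * bv q (E' n q) s a m
      = q⁻¹ • (bv q (E' n q) s a m * K' n q (a + m + 1)) := by
  rw [K'_of_lt h]
  exact K_bv_pred ⟨a + m + 1, h⟩ s a m rfl

theorem E'_comm_bv {s : ℕ → Bool} {a m x : ℕ} (h : a + m + 1 < x) :
    E' n q x * bv q (E' n q) s a m = bv q (E' n q) s a m * E' n q x :=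
  comm_bv m fun z _ h2 => (E'_comm z x (by omega)).symm

theorem comul_E' (hq : NRU q) (x : ℕ) :
    comul n hq (E' n q x) = E' n q x ⊗ₜ[ℂ] K' n q x + 1 ⊗ₜ[ℂ] E' n q x := by
  by_cases hx : x < n
  · rw [E'_of_lt hx, K'_of_lt hx, comul_E]
  · rw [E'_of_ge (by omega)]; simp

end Uq

open Uq Algebra.TensorProduct

variable {n : ℕ} {q : ℂ}

theorem qb_add_left {R : Type*} [Ring R] [Algebra ℂ R] (x x' y : R) :
    qb q (x + x') y = qb q x y + qb q x' y := by
  simp only [qb, add_mul, mul_add, smul_add]; abel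

theorem qb_add_right {R : Type*} [Ring R] [Algebra ℂ R] (x y y' : R) :
    qb q x (y + y') = qb q x y + qb q x y' := by
  simp only [qb, add_mul, mul_add, smul_add]; abel

theorem qb_smul_left {R : Type*} [Ring R] [Algebra ℂ R] (c : ℂ) (x y : R) :
    qb q (c • x) y = c • qb q x y := by
  simp only [qb, smul_mul_assoc, mul_smul_comm, smul_neg, smul_sub, smul_comm c q⁻¹]

theorem qb_smul_right {R : Type*} [Ring R] [Algebra ℂ R] (c : ℂ) (x y : R) :
    qb q x (c • y) = c • qb q x y := by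
  simp only [qb, smul_mul_assoc, mul_smul_comm, smul_neg, smul_sub, smul_comm c q⁻¹]

theorem qb_zero_left {R : Type*} [Ring R] [Algebra ℂ R] (y : R) : qb q 0 y = 0 := by
  simp [qb]

theorem qb_zero_right {R : Type*} [Ring R] [Algebra ℂ R] (y : R) : qb q y 0 = 0 := by
  simp [qb]

/-- `z ↦ [z, y]` maps the span of `S` to `V` if it does so on `S`. -/
theorem qb_span_left {R : Type*} [Ring R] [Algebra ℂ R] {S : Set R} {V : Submodule ℂ R} {y : R}
    (h : ∀ z ∈ S, qb q z y ∈ V) : ∀ z ∈ Submodule.span ℂ S, qb q z y ∈ V := by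
  intro z hz
  induction hz using Submodule.span_induction with
  | mem z hz => exact h z hz
  | zero => rw [qb_zero_left]; exact V.zero_mem
  | add z z' _ _ h1 h2 => rw [qb_add_left]; exact V.add_mem h1 h2
  | smul c z _ h1 => rw [qb_smul_left]; exact V.smul_mem c h1

theorem qb_span_right {R : Type*} [Ring R] [Algebra ℂ R] {S : Set R} {V : Submodule ℂ R} {y : R}
    (h : ∀ z ∈ S, qb q y z ∈ V) : ∀ z ∈ Submodule.span ℂ S, qb q y z ∈ V := by
  intro z hz
  induction hz using Submodule.span_induction with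
  | mem z hz => exact h z hz
  | zero => rw [qb_zero_right]; exact V.zero_mem
  | add z z' _ _ h1 h2 => rw [qb_add_right]; exact V.add_mem h1 h2
  | smul c z _ h1 => rw [qb_smul_right]; exact V.smul_mem c h1

/-- conditions on the second leg in the first phase -/
structure G1 (n : ℕ) (q : ℂ) (t : ℕ) (u : Uq n q) : Prop where
  k : ∀ y, t < y → K' n q y * u = u * K' n q y
  e : u * E' n q (t + 1) = q⁻¹ • (E' n q (t + 1) * u)
  e' : ∀ y, t + 1 < y → u * E' n q y = E' n q y * u

/-- first phase: all signs positive -/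
theorem phase1 (hq : NRU q) (s : ℕ → Bool) (a : ℕ) (m : ℕ) (hm : a + m < n)
    (hs : ∀ z, a < z → z ≤ a + m → s z = true) :
    comul n hq (bv q (E' n q) s a m) - 1 ⊗ₜ[ℂ] bv q (E' n q) s a m ∈
      Submodule.span ℂ {z | ∃ i u, i ≤ m ∧ G1 n q (a + m) u ∧
        z = bv q (E' n q) s (a + i) (m - i) ⊗ₜ[ℂ] u} := by
  induction m with
  | zero =>
    rw [bv_zero, comul_E', add_sub_cancel_right]
    refine Submodule.subset_span ⟨0, K' n q a, le_rfl, ⟨?_, ?_, ?_⟩, rfl⟩
    · intro y _; exact K'_comm_K' _ _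
    · exact K'_E'_succ a
    · intro y hy; exact K'_comm_E' _ _ (by omega)
  | succ m ih =>
    have ih := ih (by omega) (fun z h1 h2 => hs z h1 (by omega))
    set p := bv q (E' n q) s a m with hp
    set S := {z | ∃ i u, i ≤ m ∧ G1 n q (a + m) u ∧
        z = bv q (E' n q) s (a + i) (m - i) ⊗ₜ[ℂ] u} with hS
    set V := Submodule.span ℂ {z | ∃ i u, i ≤ m + 1 ∧ G1 n q (a + (m + 1)) u ∧
        z = bv q (E' n q) s (a + i) (m + 1 - i) ⊗ₜ[ℂ] u} with hV
    set y := comul n hq (E' n q (a + m + 1)) with hy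
    have hstep : ∀ z ∈ S, qb q z y ∈ V := by
      rintro z ⟨i, u, hi, hu, rfl⟩
      refine Submodule.subset_span ⟨i, u * K' n q (a + m + 1), by omega, ?_, ?_⟩
      · constructor
        · intro y hy
          rw [← mul_assoc, hu.k y (by omega), mul_assoc, K'_comm_K', mul_assoc]
        · show u * K' n q (a + m + 1) * E' n q (a + m + 1 + 1) = _
          rw [mul_assoc, K'_E'_succ, mul_smul_comm, ← mul_assoc, hu.e' _ (by omega), mul_assoc]
          rfl
        · intro y hy
          rw [mul_assoc, K'_comm_E' _ _ (by omega), ← mul_assoc, hu.e' _ (by omega), mul_assoc]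
      · have e1 : m + 1 - i = (m - i) + 1 := by omega
        have e2 : a + i + (m - i) + 1 = a + m + 1 := by omega
        rw [e1, bv_succ_true (by rw [e2]; exact hs _ (by omega) (by omega)), e2, hy, comul_E',
          qb_add_right]
        have f1 : qb q (bv q (E' n q) s (a + i) (m - i) ⊗ₜ[ℂ] u) (1 ⊗ₜ[ℂ] E' n q (a + m + 1))
            = 0 := by
          have := hu.e
          simp only [qb, tmul_mul_tmul, mul_one, one_mul]
          rw [this, TensorProduct.tmul_smul, sub_self, neg_zero]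
        rw [f1, add_zero]
        simp only [qb, tmul_mul_tmul]
        rw [hu.k _ (by omega), TensorProduct.neg_tmul, TensorProduct.sub_tmul,
          ← TensorProduct.smul_tmul']
    have h1 : comul n hq p = 1 ⊗ₜ[ℂ] p + (comul n hq p - 1 ⊗ₜ[ℂ] p) := by abel
    have h2 : qb q (1 ⊗ₜ[ℂ] p) y = 1 ⊗ₜ[ℂ] qb q p (E' n q (a + m + 1))
        + E' n q (a + m + 1) ⊗ₜ[ℂ] (-(1 - q⁻¹ * q⁻¹) • (p * K' n q (a + m + 1))) := by
      rw [hy, comul_E', qb_add_right]
      simp only [qb, tmul_mul_tmul, mul_one, one_mul, K'_bv_pred (show a + m + 1 < n by omega),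
        TensorProduct.tmul_smul, TensorProduct.tmul_neg, TensorProduct.tmul_sub, hp]
      match_scalars <;> ring
    have hpp : bv q (E' n q) s a (m + 1) = qb q p (E' n q (a + m + 1)) :=
      bv_succ_true (hs _ (by omega) (by omega))
    rw [hpp, map_qb, ← hy, h1, qb_add_left, h2]
    have h3 : E' n q (a + m + 1) ⊗ₜ[ℂ] (-(1 - q⁻¹ * q⁻¹) • (p * K' n q (a + m + 1))) ∈ V := by
      rw [TensorProduct.tmul_smul]
      apply V.smul_mem
      refine Submodule.subset_span ⟨m + 1, p * K' n q (a + m + 1), le_rfl, ?_, ?_⟩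
      · constructor
        · intro y hy
          rw [← mul_assoc, K'_comm_bv (by omega), mul_assoc, K'_comm_K', mul_assoc]
        · show p * K' n q (a + m + 1) * E' n q (a + m + 1 + 1) = _
          rw [mul_assoc, K'_E'_succ, mul_smul_comm, ← mul_assoc, ← E'_comm_bv (by omega), mul_assoc]
          rfl
        · intro y hy
          rw [mul_assoc, K'_comm_E' _ _ (by omega), ← mul_assoc, ← E'_comm_bv (by omega), mul_assoc]
      · rw [Nat.sub_self, bv_zero]; rfl
    have h4 := qb_span_left hstep _ ih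
    convert V.add_mem h3 h4 using 1
    abel

/-- conditions on the second leg in the second phase -/
def H2 (n : ℕ) (q : ℂ) (d y : ℕ) (u : Uq n q) : Prop :=
  ∀ z, d ≤ z → z < n → K' n q z * u = (if z = d ∧ y < d then q⁻¹ else 1) • (u * K' n q z)

theorem H2.step {d y : ℕ} {u : Uq n q} (hyd : y ≤ d) (h : H2 n q d y u) (hd : d < n) :
    H2 n q (d + 1) y (qb q (E' n q d) u) := by
  intro z hz hzn
  have h1 : K' n q z * u = u * K' n q z := by
    have := h z (by omega) hzn
    rwa [if_neg (by omega), one_smul] at this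
  have h1' : ∀ t, K' n q z * (u * t) = u * (K' n q z * t) := fun t => by
    rw [← mul_assoc, h1, mul_assoc]
  by_cases hz1 : z = d + 1
  · subst hz1
    rw [if_pos ⟨rfl, by omega⟩]
    have h2 := K'_E'_pred (q := q) hzn
    have h2' : ∀ t, K' n q (d + 1) * (E' n q d * t) = q⁻¹ • (E' n q d * (K' n q (d + 1) * t)) :=
      fun t => by rw [← mul_assoc, h2, smul_mul_assoc, mul_assoc]
    simp only [qb, mul_sub, sub_mul, mul_neg, neg_mul, mul_smul_comm, smul_mul_assoc,
      smul_sub, smul_neg, smul_smul, mul_assoc, h1, h2, h1', h2']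
  · rw [if_neg (by omega), one_smul]
    have h2 : K' n q z * E' n q d = E' n q d * K' n q z := K'_comm_E' _ _ (by omega)
    exact comm_qb h2 h1

theorem phase2 (hq : NRU q) (a M : ℕ) (haM : a ≤ M) (r : ℕ) (hd : M + r < n) (s : ℕ → Bool)
    (hs : ∀ z, s z = decide (z ≤ M)) :
    comul n hq (bv q (E' n q) s a (M + r - a)) - 1 ⊗ₜ[ℂ] bv q (E' n q) s a (M + r - a) ∈
      Submodule.span ℂ {z | ∃ x y u, a ≤ x ∧ x ≤ M ∧ M < y ∧ y ≤ M + r + 1 ∧
        H2 n q (M + r + 1) y u ∧ z = bv q (E' n q) s x (y - x - 1) ⊗ₜ[ℂ] u} := by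
  induction r with
  | zero =>
    have h1 := phase1 (n := n) hq s a (M - a) (by omega) (fun z h1 h2 => by
      rw [hs, decide_eq_true_eq]; omega)
    rw [add_zero]
    refine Submodule.span_mono ?_ h1
    rintro z ⟨i, u, hi, hu, rfl⟩
    have e0 : a + (M - a) = M := by omega
    rw [e0] at hu
    refine ⟨a + i, M + 1, u, by omega, by omega, by omega, by omega, ?_, ?_⟩
    · intro z hz _
      rw [if_neg (by omega), one_smul]
      exact hu.k z (by omega)
    · congr 2
      omega
  | succ r ih =>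
    have ih := ih (by omega)
    set m := M + r - a with hm
    set d := M + r + 1 with hdd
    have e1 : M + (r + 1) - a = m + 1 := by omega
    have e2 : a + m + 1 = d := by omega
    have e3 : M + (r + 1) + 1 = d + 1 := by omega
    have hdn : d < n := by omega
    have hsd : s d = false := by rw [hs, decide_eq_false_iff_not]; omega
    rw [e1, e3]
    set b := bv q (E' n q) s a m with hb
    have hb' : bv q (E' n q) s a (m + 1) = qb q (E' n q d) b := by
      rw [bv_succ_false (by rw [e2]; exact hsd), e2]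
    set V := Submodule.span ℂ {z | ∃ x y u, a ≤ x ∧ x ≤ M ∧ M < y ∧ y ≤ d + 1 ∧
        H2 n q (d + 1) y u ∧ z = bv q (E' n q) s x (y - x - 1) ⊗ₜ[ℂ] u} with hV
    have hstep : ∀ z ∈ {z | ∃ x y u, a ≤ x ∧ x ≤ M ∧ M < y ∧ y ≤ d ∧
        H2 n q d y u ∧ z = bv q (E' n q) s x (y - x - 1) ⊗ₜ[ℂ] u},
        qb q (comul n hq (E' n q d)) z ∈ V := by
      rintro z ⟨x, y, u, h1, h2, h3, h4, hu, rfl⟩
      set c := bv q (E' n q) s x (y - x - 1) with hc
      have f1 : qb q ((1 : Uq n q) ⊗ₜ[ℂ] E' n q d) (c ⊗ₜ[ℂ] u) = c ⊗ₜ[ℂ] qb q (E' n q d) u := by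
        simp only [qb, tmul_mul_tmul, mul_one, one_mul, TensorProduct.tmul_neg,
          TensorProduct.tmul_sub, TensorProduct.tmul_smul]
      have f2 : c ⊗ₜ[ℂ] qb q (E' n q d) u ∈ V :=
        Submodule.subset_span ⟨x, y, _, h1, h2, h3, by omega, hu.step h4 hdn, rfl⟩
      rw [comul_E', qb_add_left, f1]
      refine V.add_mem ?_ f2
      have hk := hu d le_rfl hdn
      by_cases hyd : y = d
      · rw [if_neg (by omega), one_smul] at hk
        have f3 : qb q (E' n q d ⊗ₜ[ℂ] K' n q d) (c ⊗ₜ[ℂ] u)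
            = bv q (E' n q) s x (d + 1 - x - 1) ⊗ₜ[ℂ] (K' n q d * u) := by
          have e4 : d + 1 - x - 1 = (d - x - 1) + 1 := by omega
          have e5 : x + (d - x - 1) + 1 = d := by omega
          rw [e4, bv_succ_false (by rw [e5]; exact hsd), e5]
          simp only [qb, tmul_mul_tmul, ← hk]
          rw [TensorProduct.neg_tmul, TensorProduct.sub_tmul, ← TensorProduct.smul_tmul', hc, hyd]
        rw [f3]
        refine Submodule.subset_span ⟨x, d + 1, _, h1, h2, by omega, le_rfl, ?_, rfl⟩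
        intro z hz hzn
        have := hu z (by omega) hzn
        rw [if_neg (by omega), one_smul] at this ⊢
        rw [← mul_assoc, K'_comm_K', mul_assoc, this, mul_assoc]
      · rw [if_pos ⟨rfl, by omega⟩] at hk
        have hEc : E' n q d * c = c * E' n q d := E'_comm_bv (by omega)
        have f3 : qb q (E' n q d ⊗ₜ[ℂ] K' n q d) (c ⊗ₜ[ℂ] u) = 0 := by
          simp only [qb, tmul_mul_tmul, hk, hEc, TensorProduct.tmul_smul, sub_self, neg_zero]
        rw [f3]
        exact V.zero_mem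
    have h1 : comul n hq b = 1 ⊗ₜ[ℂ] b + (comul n hq b - 1 ⊗ₜ[ℂ] b) := by abel
    have hkb : K' n q d * b = q⁻¹ • (b * K' n q d) := by
      rw [← e2]
      exact K'_bv_pred (by omega)
    have h2 : qb q (comul n hq (E' n q d)) (1 ⊗ₜ[ℂ] b) = 1 ⊗ₜ[ℂ] qb q (E' n q d) b := by
      rw [comul_E', qb_add_left]
      simp only [qb, tmul_mul_tmul, mul_one, one_mul, hkb, TensorProduct.tmul_smul,
        TensorProduct.tmul_neg, TensorProduct.tmul_sub, sub_self, neg_zero, zero_add]
    have h4 := qb_span_right hstep _ ih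
    rw [hb', map_qb]
    rw [h1, qb_add_right, h2]
    convert h4 using 1
    abel

end Pool.Agent.H387.QT
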