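import Pool.Agent.H387.QT.Left

/-!
# The torus part of the root vectors
-/

open scoped TensorProduct

namespace Pool.Agent.H387.QT

theorem map_lv {R R' : Type*} [Ring R] [Algebra ℂ R] [Ring R'] [Algebra ℂ R'] (T : R →ₐ[ℂ] R')
    (l : ℕ → R) (a m : ℕ) : T (lv l a m) = lv (fun i => T (l i)) a m := by
  induction m with
  | zero => rfl
  | succ m ih => rw [lv, lv, map_mul, ih]

theorem lv_congr {R : Type*} [Ring R] {l l' : ℕ → R} (a m : ℕ)
    (h : ∀ z, a ≤ z → z ≤ a + m → l z = l' z) : lv l a m = lv l' a m := by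
  induction m with
  | zero => exact h a le_rfl le_rfl
  | succ m ih =>
    rw [lv, lv, ih (fun z h1 h2 => h z h1 (by omega)), h (a + m + 1) (by omega) (by omega)]

/-- What is needed of the automorphism `T = T_j` on the torus. -/
structure LJ {R : Type*} [Ring R] [Algebra ℂ R] (n : ℕ) (l : ℕ → R) (j : ℕ) (g : R)
    (T : R →ₐ[ℂ] R) : Prop where
  far : ∀ x, (x + 1 < j ∨ j + 1 < x) → T (l x) = l x
  up : j + 1 < n → T (l (j + 1)) = l j * l (j + 1)
  down : ∀ x, x + 1 = j → T (l x) = l j * l x
  self : T (l j) = g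
  gl : g * l j = 1
  lg : l j * g = 1
  comm : ∀ x y, l x * l y = l y * l x

namespace LJ

variable {R : Type*} [Ring R] [Algebra ℂ R] {n : ℕ} {l : ℕ → R} {j : ℕ} {g : R} {T : R →ₐ[ℂ] R}
  (h : LJ n l j g T)
include h

theorem comm_lv' (x a m : ℕ) : l x * lv l a m = lv l a m * l x :=
  comm_lv m fun z _ _ => h.comm x z

theorem lv_far {a m : ℕ} (hj : a + m + 1 < j ∨ j + 1 < a) : T (lv l a m) = lv l a m := by
  rw [map_lv]
  exact lv_congr a m fun z h1 h2 => h.far z (by omega)

theorem lv_end {a m : ℕ} (hj : a + m + 1 = j) : T (lv l a m) = lv l a (m + 1) := by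
  rw [lv, hj]
  cases m with
  | zero => rw [lv, h.down a hj]; exact h.comm _ _
  | succ m =>
    have h1 : T (lv l a m) = lv l a m := h.lv_far (by omega)
    rw [lv, map_mul, h1, h.down (a + m + 1) (by omega), h.comm j, mul_assoc]

theorem lv_start {m : ℕ} (hm : j + 1 + m < n) : T (lv l (j + 1) m) = lv l j (m + 1) := by
  induction m with
  | zero => rw [lv, lv, lv]; exact h.up (by omega)
  | succ m ih =>
    have h2 : T (l (j + 1 + m + 1)) = l (j + 1 + m + 1) := h.far _ (by omega)
    have : j + (m + 1) + 1 = j + 1 + m + 1 := by omega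
    rw [lv, map_mul, ih (by omega), h2, lv, lv, lv, this]

theorem lv_first {m : ℕ} (hm : j + 1 + m < n) : T (lv l j (m + 1)) = lv l (j + 1) m := by
  induction m with
  | zero =>
    show T (l j * l (j + 1)) = l (j + 1)
    rw [map_mul, h.self, h.up (by omega), ← mul_assoc, h.gl, one_mul]
  | succ m ih =>
    have h2 : T (l (j + 1 + m + 1)) = l (j + 1 + m + 1) := h.far _ (by omega)
    have : j + (m + 1) + 1 = j + 1 + m + 1 := by omega
    have e1 : lv l j (m + 1 + 1) = lv l j (m + 1) * l (j + 1 + m + 1) := by
      rw [lv, this]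
    have e2 : lv l (j + 1) (m + 1) = lv l (j + 1) m * l (j + 1 + m + 1) := rfl
    rw [e1, e2, map_mul, ih (by omega), h2]

theorem lv_last {a m : ℕ} (hj : a + m + 1 = j) : T (lv l a (m + 1)) = lv l a m := by
  rw [lv, hj, map_mul, h.self, h.lv_end hj, lv, hj, mul_assoc, h.lg, mul_one]

theorem lv_mid {a m r : ℕ} (hj : a + m + 1 = j) (hr : a + (m + 2 + r) < n) :
    T (lv l a (m + 2 + r)) = lv l a (m + 2 + r) := by
  induction r with
  | zero =>
    have e2 : a + (m + 1) + 1 = j + 1 := by omega
    show T (lv l a (m + 1) * l (a + (m + 1) + 1)) = lv l a m * l (a + m + 1) * l (a + (m + 1) + 1)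
    rw [map_mul, h.lv_last hj, e2, h.up (by omega), hj, mul_assoc]
  | succ r ih =>
    have e1 : m + 2 + (r + 1) = (m + 2 + r) + 1 := by omega
    have h3 : T (l (a + (m + 2 + r) + 1)) = l (a + (m + 2 + r) + 1) := h.far _ (by omega)
    rw [e1, lv, map_mul, ih (by omega), h3]

end LJ

namespace Uq

variable {n : ℕ} {q : ℂ} (hq : NRU q)

theorem lj (j : Fin n) : LJ n (L' n q) j (K q j) (T hq j) where
  far x hx := by
    by_cases hxn : x < n
    · rw [L'_of_lt hxn, T_L, TL_far]
      rw [cartan_far_iff]
      refine ⟨?_, ?_, ?_⟩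
      · rw [Ne, Fin.ext_iff]; show (j : ℕ) ≠ x; omega
      · show (j : ℕ) + 1 ≠ x; omega
      · show x + 1 ≠ j; omega
    · rw [L'_of_ge (by omega), map_one]
  up hx := by
    rw [L'_of_lt j.2, L'_of_lt hx, T_L, TL_adj]
    rw [cartan_adj_iff]
    exact Or.inl rfl
  down x hx := by
    have hxn : x < n := by have := j.2; omega
    rw [L'_of_lt hxn, L'_of_lt j.2, T_L, TL_adj]
    rw [cartan_adj_iff]
    exact Or.inr hx
  self := by rw [L'_of_lt j.2, T_L, TL_self]
  gl := by rw [L'_of_lt j.2]; exact (isRep n q).kl j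
  lg := by rw [L'_of_lt j.2]; exact (isRep n q).lk j
  comm := L'_comm_L'

theorem root_formula_L (u : List (Fin n)) (hu : Ok u) (i : Fin n)
    (hi : permN u i < permN u (i + 1)) :
    Tw hq u (L q i) = lv (L' n q) (permN u i) (permN u (i + 1) - permN u i - 1) := by
  induction u with
  | nil =>
    simp only [permN_nil, Equiv.Perm.coe_one, id]
    have : (i : ℕ) + 1 - i - 1 = 0 := by omega
    rw [this, lv, L'_of_lt i.2]
    rfl
  | cons j u ih =>
    obtain ⟨hu, hj⟩ := hu
    rw [Tw_cons]
    simp only [permN_cons_apply] at hi ⊢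
    have hcn : permN u (i + 1) ≤ n := permN_le u i.2
    set a := permN u i with ha
    set c := permN u (i + 1) with hc
    have pa : (permN u)⁻¹ a = i := by rw [ha]; simp
    have pc : (permN u)⁻¹ c = i + 1 := by rw [hc]; simp
    set p : ℕ → ℕ := fun x => (permN u)⁻¹ x with hp
    have pa' : p a = i := pa
    have pc' : p c = i + 1 := pc
    have hj' : p j < p (j + 1) := hj
    have swl : Equiv.swap (j : ℕ) (j + 1) j = j + 1 := Equiv.swap_apply_left _ _
    have swr : Equiv.swap (j : ℕ) (j + 1) (j + 1) = j := Equiv.swap_apply_right _ _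
    have swn : ∀ z : ℕ, z ≠ (j : ℕ) → z ≠ (j : ℕ) + 1 →
        Equiv.swap (j : ℕ) (j + 1) z = z := fun z h1 h2 =>
      Equiv.swap_apply_of_ne_of_ne h1 h2
    have hne : a ≠ c := fun h => by rw [h, pc'] at pa'; omega
    -- `a < c`
    have hac : a < c := by
      by_contra hlt
      have hca : c < a := by omega
      by_cases h1 : c = j
      · by_cases h2 : a = j + 1
        · rw [← h1] at hj'
          have : p (c + 1) = p a := by rw [h1, h2]
          omega
        · rw [h1, swl, swn a (by omega) h2] at hi
          omega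
      · by_cases h3 : c = j + 1
        · rw [h3, swr, swn a (by omega) (by omega)] at hi
          omega
        · rw [swn c h1 h3] at hi
          by_cases h4 : a = j
          · rw [h4, swl] at hi; omega
          · by_cases h5 : a = j + 1
            · rw [h5, swr] at hi
              omega
            · rw [swn a h4 h5] at hi; omega
    have hT := ih hu hac
    rw [hT]
    have tj := lj hq j
    have hjn := j.2
    set m := c - a - 1 with hm
    have hcm : c = a + m + 1 := by omega
    by_cases c1 : c < j ∨ (j : ℕ) + 1 < a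
    · rw [tj.lv_far (by omega), swn a (by omega) (by omega), swn c (by omega) (by omega)]
    · by_cases c2 : (j : ℕ) + 1 = a
      · rw [← c2, swr, swn c (by omega) (by omega)]
        have hm' : c - j - 1 = m + 1 := by omega
        rw [hm']
        exact tj.lv_start (by omega)
      · by_cases c3 : (j : ℕ) = a
        · have hc3 : c ≠ j + 1 := by
            intro h
            rw [h, ← c3, swl, swr] at hi
            omega
          rw [← c3, swl, swn c (by omega) (by omega)]
          obtain ⟨m', hm'⟩ : ∃ m', m = m' + 1 := ⟨m - 1, by omega⟩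
          have hm'' : c - (j + 1) - 1 = m' := by omega
          rw [hm', hm'', tj.lv_first (by omega)]
        · by_cases c4 : (j : ℕ) = c
          · have hm'' : j + 1 - a - 1 = m + 1 := by omega
            have hcj : Equiv.swap (j : ℕ) (j + 1) c = j + 1 := by rw [← c4]; exact swl
            rw [hcj, swn a (by omega) (by omega), hm'']
            exact tj.lv_end (by omega)
          · by_cases c5 : (j : ℕ) + 1 = c
            · rw [← c5, swr, swn a (by omega) (by omega)]
              obtain ⟨m', hm'⟩ : ∃ m', m = m' + 1 := ⟨m - 1, by omega⟩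
              have hm'' : j - a - 1 = m' := by omega
              rw [hm'', hm', tj.lv_last (by omega)]
            · rw [swn a (by omega) (by omega), swn c (by omega) (by omega)]
              obtain ⟨m1, hm1⟩ : ∃ m1, a + m1 + 1 = j := ⟨j - a - 1, by omega⟩
              obtain ⟨r, hr⟩ : ∃ r, m = m1 + 2 + r := ⟨m - m1 - 2, by omega⟩
              have e0 : c - a - 1 = m := by omega
              rw [e0, hr]
              exact tj.lv_mid hm1 (by omega)

end Uq

end Pool.Agent.H387.QT
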