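import Pool.Agent.H387.QT.Theta

/-!
# Left tangent spaces
-/

open scoped TensorProduct

namespace Pool.Agent.H387.QT

/-- product of `l a, …, l (a + m)` -/
def lv {R : Type*} [Ring R] (l : ℕ → R) (a : ℕ) : ℕ → R
  | 0 => l a
  | m + 1 => lv l a m * l (a + m + 1)

theorem comm_lv {R : Type*} [Ring R] {l : ℕ → R} {x : R} {a : ℕ} (m : ℕ)
    (h : ∀ z, a ≤ z → z ≤ a + m → x * l z = l z * x) : x * lv l a m = lv l a m * x := by
  induction m with
  | zero => exact h a le_rfl le_rfl
  | succ m ih =>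
    have ih := ih (fun z h1 h2 => h z h1 (by omega))
    have h' := h (a + m + 1) (by omega) (by omega)
    rw [lv, ← mul_assoc, ih, mul_assoc, h', mul_assoc]

namespace Uq

variable {n : ℕ} {q : ℂ}

/-- The generator `K_x⁻¹`, `x : ℕ`, with value `1` when `x` is out of range. -/
noncomputable def L' (n : ℕ) (q : ℂ) (x : ℕ) : Uq n q := if h : x < n then L q ⟨x, h⟩ else 1

theorem L'_of_lt {x : ℕ} (h : x < n) : L' n q x = L q ⟨x, h⟩ := by rw [L', dif_pos h]
theorem L'_of_ge {x : ℕ} (h : n ≤ x) : L' n q x = 1 := by rw [L', dif_neg (by omega)]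

theorem L'_comm_E' (hq : NRU q) (x y : ℕ) (h : y + 1 < x ∨ x + 1 < y) :
    L' n q x * E' n q y = E' n q y * L' n q x := by
  by_cases hx : x < n
  · by_cases hy : y < n
    · rw [L'_of_lt hx, E'_of_lt hy, (isRep n q).wt_l hq.ne ((isRep n q).wt_e _)]
      have : cartan (⟨x, hx⟩ : Fin n) ⟨y, hy⟩ = 0 := by
        rw [cartan_far_iff]
        refine ⟨?_, ?_, ?_⟩
        · rw [Ne, Fin.ext_iff]; show x ≠ y; omega
        · show x + 1 ≠ y; omega
        · show y + 1 ≠ x; omega
      rw [this]; simp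
    · rw [E'_of_ge (by omega)]; simp
  · rw [L'_of_ge (by omega)]; simp

theorem L'_comm_L' (x y : ℕ) : L' n q x * L' n q y = L' n q y * L' n q x := by
  by_cases hx : x < n
  · by_cases hy : y < n
    · rw [L'_of_lt hx, L'_of_lt hy]; exact (isRep n q).ll _ _
    · rw [L'_of_ge (by omega : n ≤ y)]; simp
  · rw [L'_of_ge (by omega : n ≤ x)]; simp

theorem L'_E'_pred (hq : NRU q) {x : ℕ} (hx : x + 1 < n) :
    L' n q (x + 1) * E' n q x = q • (E' n q x * L' n q (x + 1)) := by
  rw [L'_of_lt hx, E'_of_lt (by omega : x < n)]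
  apply (isRep n q).l_e_adj hq.ne
  rw [cartan_adj_iff]
  exact Or.inr rfl

theorem L'_E'_succ (hq : NRU q) {x : ℕ} (hx : x + 1 < n) :
    L' n q x * E' n q (x + 1) = q • (E' n q (x + 1) * L' n q x) := by
  rw [L'_of_lt (by omega : x < n), E'_of_lt hx]
  apply (isRep n q).l_e_adj hq.ne
  rw [cartan_adj_iff]
  exact Or.inl rfl

theorem L'_bv_pred (hq : NRU q) {s : ℕ → Bool} {a m : ℕ} (h : a + m + 1 < n) :
    L' n q (a + m + 1) * bv q (E' n q) s a m
      = q • (bv q (E' n q) s a m * L' n q (a + m + 1)) := by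
  cases m with
  | zero => exact L'_E'_pred hq h
  | succ m =>
    have h1 : L' n q (a + (m + 1) + 1) * bv q (E' n q) s a m
        = bv q (E' n q) s a m * L' n q (a + (m + 1) + 1) :=
      comm_bv m fun z h1 h2 => L'_comm_E' hq _ z (by omega)
    have h2 : L' n q (a + (m + 1) + 1) * E' n q (a + m + 1)
        = q • (E' n q (a + m + 1) * L' n q (a + (m + 1) + 1)) :=
      L'_E'_pred hq h
    have h3 : ∀ y, L' n q (a + (m + 1) + 1) * (bv q (E' n q) s a m * y)
        = bv q (E' n q) s a m * (L' n q (a + (m + 1) + 1) * y) :=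
      fun y => by rw [← mul_assoc, h1, mul_assoc]
    have h4 : ∀ y, L' n q (a + (m + 1) + 1) * (E' n q (a + m + 1) * y)
        = q • (E' n q (a + m + 1) * (L' n q (a + (m + 1) + 1) * y)) :=
      fun y => by rw [← mul_assoc, h2, smul_mul_assoc, mul_assoc]
    rw [bv_succ]
    split_ifs
    · simp only [qb, mul_sub, sub_mul, mul_neg, neg_mul, mul_smul_comm, smul_mul_assoc,
        smul_sub, smul_neg, smul_smul, mul_assoc, h1, h2, h3, h4, mul_comm q q⁻¹]
    · simp only [qb, mul_sub, sub_mul, mul_neg, neg_mul, mul_smul_comm, smul_mul_assoc,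
        smul_sub, smul_neg, smul_smul, mul_assoc, h1, h2, h3, h4, mul_comm q q⁻¹]

theorem lv_E' (hq : NRU q) {a m : ℕ} (h : a + m + 1 < n) :
    lv (L' n q) a m * E' n q (a + m + 1) = q • (E' n q (a + m + 1) * lv (L' n q) a m) := by
  cases m with
  | zero => exact L'_E'_succ hq h
  | succ m =>
    have h1 : E' n q (a + (m + 1) + 1) * lv (L' n q) a m
        = lv (L' n q) a m * E' n q (a + (m + 1) + 1) :=
      comm_lv m fun z h1 h2 => (L'_comm_E' hq z _ (by omega)).symm
    have h2 : L' n q (a + m + 1) * E' n q (a + (m + 1) + 1)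
        = q • (E' n q (a + (m + 1) + 1) * L' n q (a + m + 1)) := L'_E'_succ hq h
    rw [lv, mul_assoc, h2, mul_smul_comm, ← mul_assoc, ← mul_assoc, h1]

theorem theta_E' {p : ℂ} (hq : NRU q) (hpq : p = q⁻¹) (x : ℕ) :
    theta n hq hpq (E' n p x) = E' n q x * L' n q x := by
  by_cases hx : x < n
  · rw [E'_of_lt hx, E'_of_lt hx, L'_of_lt hx, theta_E]
  · rw [E'_of_ge (by omega), E'_of_ge (by omega), map_zero, zero_mul]

theorem theta_bv {p : ℂ} (hq : NRU q) (hpq : p = q⁻¹) (s : ℕ → Bool) (a m : ℕ) (h : a + m < n) :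
    theta n hq hpq (bv p (E' n p) s a m) =
      (-(q * q)) ^ m • (bv q (E' n q) (fun z => !s z) a m * lv (L' n q) a m) := by
  have hne := hq.ne
  induction m with
  | zero => rw [bv_zero, theta_E', pow_zero, one_smul]; rfl
  | succ m ih =>
    have ih := ih (by omega)
    set B := bv q (E' n q) (fun z => !s z) a m with hB
    set Λ := lv (L' n q) a m with hΛ
    set e := E' n q (a + m + 1) with he
    set l := L' n q (a + m + 1) with hl
    have h1 : Λ * e = q • (e * Λ) := lv_E' hq (by omega)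
    have h2 : l * B = q • (B * l) := L'_bv_pred hq (by omega)
    have h3 : l * Λ = Λ * l := comm_lv m fun z _ _ => L'_comm_L' _ _
    have h1' : ∀ y, Λ * (e * y) = q • (e * (Λ * y)) := fun y => by
      rw [← mul_assoc, h1, smul_mul_assoc, mul_assoc]
    have h2' : ∀ y, l * (B * y) = q • (B * (l * y)) := fun y => by
      rw [← mul_assoc, h2, smul_mul_assoc, mul_assoc]
    rcases hs : s (a + m + 1) with _ | _
    · rw [bv_succ_false hs, bv_succ_true (by rw [hs]; rfl), map_qb, ih, theta_E', ← he, ← hl,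
        ← hB, lv, ← hΛ, ← hl, hpq]
      simp only [qb, inv_inv, mul_sub, sub_mul, mul_neg, neg_mul, mul_smul_comm, smul_mul_assoc,
        smul_sub, smul_neg, smul_smul, mul_assoc, h1, h1', h2, h2', h3]
      match_scalars <;> field_simp <;> ring
    · rw [bv_succ_true hs, bv_succ_false (by rw [hs]; rfl), map_qb, ih, theta_E', ← he, ← hl,
        ← hB, lv, ← hΛ, ← hl, hpq]
      simp only [qb, inv_inv, mul_sub, sub_mul, mul_neg, neg_mul, mul_smul_comm, smul_mul_assoc,
        smul_sub, smul_neg, smul_smul, mul_assoc, h1, h1', h2, h2', h3]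
      match_scalars <;> field_simp <;> ring

end Uq

variable {n : ℕ} {q : ℂ}

/-- opposite signs -/
def neg3 (σ : ℕ → ℕ → ℕ → Bool) : ℕ → ℕ → ℕ → Bool := fun a b c => !σ a b c

/-- The left pattern. -/
def LP (n : ℕ) (σ : ℕ → ℕ → ℕ → Bool) : Prop := RP n (neg3 σ)

/-- the twisted root vector `E_β K_β⁻¹` -/
noncomputable def rootvL (n : ℕ) (q : ℂ) (σ : ℕ → ℕ → ℕ → Bool) (a c : ℕ) : Uq n q :=
  rootv n q σ a c * lv (Uq.L' n q) a (c - a - 1)

/-- The span of the twisted root vectors. -/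
noncomputable def TTL (n : ℕ) (q : ℂ) (σ : ℕ → ℕ → ℕ → Bool) : Submodule ℂ (Uq n q) :=
  Submodule.span ℂ {x | ∃ a c, a < c ∧ c ≤ n ∧ x = rootvL n q σ a c}

theorem theta_rootv {p : ℂ} (hq : NRU q) (hpq : p = q⁻¹) (σ : ℕ → ℕ → ℕ → Bool) {a c : ℕ}
    (hac : a < c) (hc : c ≤ n) : Uq.theta n hq hpq (rootv n p (neg3 σ) a c) =
      (-(q * q)) ^ (c - a - 1) • rootvL n q σ a c := by
  unfold rootv rootvL rootv
  rw [Uq.theta_bv hq hpq _ _ _ (by omega)]
  simp [neg3]

theorem map_theta_TT {p : ℂ} (hq : NRU q) (hpq : p = q⁻¹) (σ : ℕ → ℕ → ℕ → Bool) :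
    (TT n p (neg3 σ)).map (Uq.theta n hq hpq).toLinearMap = TTL n q σ := by
  have hne : ∀ m : ℕ, (-(q * q)) ^ m ≠ 0 := fun m =>
    pow_ne_zero _ (neg_ne_zero.mpr (mul_ne_zero hq.ne hq.ne))
  apply le_antisymm
  · rw [TT, Submodule.map_span_le]
    rintro x ⟨a, c, hac, hc, rfl⟩
    change Uq.theta n hq hpq _ ∈ _
    rw [theta_rootv hq hpq σ hac hc]
    exact Submodule.smul_mem _ _ (Submodule.subset_span ⟨a, c, hac, hc, rfl⟩)
  · apply Submodule.span_le.mpr
    rintro x ⟨a, c, hac, hc, rfl⟩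
    refine ⟨((-(q * q)) ^ (c - a - 1))⁻¹ • rootv n p (neg3 σ) a c,
      Submodule.smul_mem _ _ (rootv_mem hac hc), ?_⟩
    change Uq.theta n hq hpq _ = _
    rw [map_smul, theta_rootv hq hpq σ hac hc, smul_smul, inv_mul_cancel₀ (hne _), one_smul]

theorem tens_theta {p : ℂ} (hq : NRU q) (hpq : p = q⁻¹) {A B : Submodule ℂ (Uq n p)}
    {z : Uq n p ⊗[ℂ] Uq n p} (hz : z ∈ tens A B) :
    Algebra.TensorProduct.comm ℂ _ _
      (Algebra.TensorProduct.map (Uq.theta n hq hpq) (Uq.theta n hq hpq) z) ∈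
      tens (B.map (Uq.theta n hq hpq).toLinearMap) (A.map (Uq.theta n hq hpq).toLinearMap) := by
  induction hz using Submodule.span_induction with
  | mem z hz =>
    obtain ⟨s, hs, t, ht, rfl⟩ := hz
    rw [Algebra.TensorProduct.map_tmul, Algebra.TensorProduct.comm_tmul]
    exact tmul_mem_tens ⟨t, ht, rfl⟩ ⟨s, hs, rfl⟩
  | zero => rw [map_zero, map_zero]; exact Submodule.zero_mem _
  | add x y _ _ h1 h2 => rw [map_add, map_add]; exact Submodule.add_mem _ h1 h2
  | smul r x _ h1 => rw [map_smul, map_smul]; exact Submodule.smul_mem _ _ h1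

theorem map_one_sup {p : ℂ} (hq : NRU q) (hpq : p = q⁻¹) (T : Submodule ℂ (Uq n p)) :
    (T ⊔ Submodule.span ℂ {1}).map (Uq.theta n hq hpq).toLinearMap =
      T.map (Uq.theta n hq hpq).toLinearMap ⊔ Submodule.span ℂ {1} := by
  rw [Submodule.map_sup, Submodule.map_span, Set.image_singleton]
  change _ ⊔ Submodule.span ℂ {Uq.theta n hq hpq 1} = _
  rw [map_one]

theorem left_of_right {p : ℂ} (hq : NRU q) (hp : NRU p) (hpq : p = q⁻¹)
    {T : Submodule ℂ (Uq n p)} (h : IsRightTangent hp T) :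
    IsLeftTangent hq (T.map (Uq.theta n hq hpq).toLinearMap) := by
  constructor
  · rintro x ⟨y, hy, rfl⟩
    change Uq.counit n q (Uq.theta n hq hpq y) = 0
    rw [Uq.theta_counit]
    exact h.1 y hy
  · intro x hx
    rw [← map_one_sup] at hx ⊢
    obtain ⟨y, hy, rfl⟩ := hx
    change Uq.comul n hq (Uq.theta n hq hpq y) ∈ _
    rw [Uq.theta_comul hq hpq hp]
    exact tens_mono le_top le_rfl (tens_theta hq hpq (h.2 y hy))

theorem right_of_left {p : ℂ} (hq : NRU q) (hp : NRU p) (hpq : p = q⁻¹)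
    {T : Submodule ℂ (Uq n p)} (h : IsLeftTangent hp T) :
    IsRightTangent hq (T.map (Uq.theta n hq hpq).toLinearMap) := by
  constructor
  · rintro x ⟨y, hy, rfl⟩
    change Uq.counit n q (Uq.theta n hq hpq y) = 0
    rw [Uq.theta_counit]
    exact h.1 y hy
  · intro x hx
    rw [← map_one_sup] at hx ⊢
    obtain ⟨y, hy, rfl⟩ := hx
    change Uq.comul n hq (Uq.theta n hq hpq y) ∈ _
    rw [Uq.theta_comul hq hpq hp]
    exact tens_mono le_rfl le_top (tens_theta hq hpq (h.2 y hy))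

/-- `θ` is an involution on subspaces -/
theorem map_map_theta {p : ℂ} (hq : NRU q) (hp : NRU p) (hpq : p = q⁻¹) (hqp : q = p⁻¹)
    (T : Submodule ℂ (Uq n p)) :
    (T.map (Uq.theta n hq hpq).toLinearMap).map (Uq.theta n hp hqp).toLinearMap = T := by
  rw [← Submodule.map_comp]
  have : (Uq.theta n hp hqp).toLinearMap.comp (Uq.theta n hq hpq).toLinearMap = LinearMap.id := by
    apply LinearMap.ext
    intro x
    exact Uq.theta_theta hq hpq hp hqp x
  rw [this, Submodule.map_id]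

/-- **The criterion for left tangent spaces** (for the span of the `E_β K_β⁻¹`). -/
theorem left_iff (hq : NRU q) (σ : ℕ → ℕ → ℕ → Bool) : IsLeftTangent hq (TTL n q σ) ↔ LP n σ := by
  have hp : NRU q⁻¹ := hq.inv
  have hqp : q = q⁻¹⁻¹ := (inv_inv q).symm
  constructor
  · intro h
    have h1 := right_of_left hp hq hqp h
    rw [← map_theta_TT hq rfl σ, map_map_theta hq hp rfl hqp] at h1
    exact (right_iff hp (neg3 σ)).1.mp h1
  · intro h
    have h1 := left_of_right hq hp rfl ((right_iff hp (neg3 σ)).1.mpr h)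
    rwa [map_theta_TT hq rfl σ] at h1

/-- the flag version of the left tangent condition -/
def FlagLeft (hq : NRU q) (T : Submodule ℂ (Uq n q)) : Prop :=
  ∀ x ∈ T, Uq.comul n hq x ∈ tens ⊤ (T ⊔ Submodule.span ℂ {1} ⊔ J n q) ⊔ tens (J n q) ⊤

theorem mul_L_sub_one_mem (u : Uq n q) (i : Fin n) : u * (Uq.L q i - 1) ∈ J n q := by
  have : u * (Uq.L q i - 1) = -(u * Uq.L q i * (Uq.K q i - 1)) := by
    rw [mul_sub, mul_assoc, mul_sub, (Uq.isRep n q).lk]
    simp only [mul_sub, mul_one]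
    abel
  rw [this]
  exact Submodule.neg_mem _ (Submodule.subset_span ⟨_, i, rfl⟩)

theorem mul_lv_sub_one_mem (u : Uq n q) (a m : ℕ) (h : a + m < n) :
    u * (lv (Uq.L' n q) a m - 1) ∈ J n q := by
  induction m generalizing u with
  | zero =>
    rw [lv, Uq.L'_of_lt (show a < n from h)]
    exact mul_L_sub_one_mem u _
  | succ m ih =>
    have e : u * (lv (Uq.L' n q) a (m + 1) - 1) =
        (u * lv (Uq.L' n q) a m) * (Uq.L' n q (a + m + 1) - 1)
        + u * (lv (Uq.L' n q) a m - 1) := by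
      rw [lv]
      simp only [mul_sub, mul_one, mul_assoc]
      abel
    rw [e]
    refine Submodule.add_mem _ ?_ (ih u (by omega))
    rw [Uq.L'_of_lt (show a + m + 1 < n from h)]
    exact mul_L_sub_one_mem _ _

theorem TTL_sup_J (σ : ℕ → ℕ → ℕ → Bool) : TTL n q σ ⊔ J n q = TT n q σ ⊔ J n q := by
  apply le_antisymm
  · apply sup_le _ le_sup_right
    apply Submodule.span_le.mpr
    rintro x ⟨a, c, hac, hc, rfl⟩
    have e : rootvL n q σ a c = rootv n q σ a c +
        rootv n q σ a c * (lv (Uq.L' n q) a (c - a - 1) - 1) := by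
      rw [rootvL, mul_sub, mul_one]; abel
    rw [e]
    exact Submodule.add_mem _ (Submodule.mem_sup_left (rootv_mem hac hc))
      (Submodule.mem_sup_right (mul_lv_sub_one_mem _ _ _ (by omega)))
  · apply sup_le _ le_sup_right
    apply Submodule.span_le.mpr
    rintro x ⟨a, c, hac, hc, rfl⟩
    have e : rootv n q σ a c = rootvL n q σ a c -
        rootv n q σ a c * (lv (Uq.L' n q) a (c - a - 1) - 1) := by
      rw [rootvL, mul_sub, mul_one]; abel
    rw [e]
    exact Submodule.sub_mem _ (Submodule.mem_sup_left (Submodule.subset_span ⟨a, c, hac, hc, rfl⟩))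
      (Submodule.mem_sup_right (mul_lv_sub_one_mem _ _ _ (by omega)))

theorem comul_J (hq : NRU q) {x : Uq n q} (hx : x ∈ J n q) :
    Uq.comul n hq x ∈ tens ⊤ (J n q) ⊔ tens (J n q) ⊤ := by
  unfold J at hx
  induction hx using Submodule.span_induction with
  | mem x hx =>
    obtain ⟨u, i, rfl⟩ := hx
    have e : Uq.comul n hq (u * (Uq.K q i - 1)) =
        Uq.comul n hq u * (1 ⊗ₜ[ℂ] (Uq.K q i - 1))
        + Uq.comul n hq u * ((Uq.K q i - 1) ⊗ₜ[ℂ] Uq.K q i) := by
      rw [map_mul, map_sub, Uq.comul_K, map_one, ← mul_add, TensorProduct.tmul_sub,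
        TensorProduct.sub_tmul, Algebra.TensorProduct.one_def]
      congr 1
      abel
    rw [e]
    refine Submodule.add_mem_sup ?_ ?_
    · generalize Uq.comul n hq u = z
      induction z using TensorProduct.induction_on with
      | zero => rw [zero_mul]; exact Submodule.zero_mem _
      | add x y h1 h2 => rw [add_mul]; exact Submodule.add_mem _ h1 h2
      | tmul v w =>
        rw [Algebra.TensorProduct.tmul_mul_tmul]
        exact tmul_mem_tens Submodule.mem_top (Submodule.subset_span ⟨w, i, rfl⟩)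
    · generalize Uq.comul n hq u = z
      induction z using TensorProduct.induction_on with
      | zero => rw [zero_mul]; exact Submodule.zero_mem _
      | add x y h1 h2 => rw [add_mul]; exact Submodule.add_mem _ h1 h2
      | tmul v w =>
        rw [Algebra.TensorProduct.tmul_mul_tmul]
        exact tmul_mem_tens (Submodule.subset_span ⟨v, i, rfl⟩) Submodule.mem_top
  | zero => rw [map_zero]; exact Submodule.zero_mem _
  | add x y _ _ h1 h2 => rw [map_add]; exact Submodule.add_mem _ h1 h2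
  | smul r x _ h1 => rw [map_smul]; exact Submodule.smul_mem _ _ h1

theorem flagLeft_congr (hq : NRU q) {T T' : Submodule ℂ (Uq n q)} (h : T ⊔ J n q = T' ⊔ J n q)
    (hT : FlagLeft hq T) : FlagLeft hq T' := by
  have e : T ⊔ Submodule.span ℂ {1} ⊔ J n q = T' ⊔ Submodule.span ℂ {1} ⊔ J n q := by
    rw [sup_right_comm, h, sup_right_comm]
  intro x hx
  have hx' : x ∈ T ⊔ J n q := by rw [h]; exact Submodule.mem_sup_left hx
  obtain ⟨y, hy, z, hz, rfl⟩ := Submodule.mem_sup.mp hx'
  rw [map_add, ← e]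
  refine Submodule.add_mem _ (hT y hy) ?_
  exact sup_le_sup_right (tens_mono le_rfl le_sup_right) _ (comul_J hq hz)

theorem theta_J {p : ℂ} (hq : NRU q) (hpq : p = q⁻¹) :
    (J n p).map (Uq.theta n hq hpq).toLinearMap ≤ J n q := by
  unfold J
  rw [Submodule.map_span_le]
  rintro x ⟨u, i, rfl⟩
  change Uq.theta n hq hpq _ ∈ J n q
  rw [map_mul, map_sub, Uq.theta_K, map_one]
  exact mul_L_sub_one_mem _ i

theorem flagRight_of_flagLeft {p : ℂ} (hq : NRU q) (hp : NRU p) (hpq : p = q⁻¹)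
    {T : Submodule ℂ (Uq n p)} (h : FlagLeft hp T) :
    FlagRight hq (T.map (Uq.theta n hq hpq).toLinearMap) := by
  rintro x ⟨y, hy, rfl⟩
  change Uq.comul n hq (Uq.theta n hq hpq y) ∈ _
  rw [Uq.theta_comul hq hpq hp]
  obtain ⟨z, hz, z', hz', e⟩ := Submodule.mem_sup.mp (h y hy)
  rw [← e, map_add, map_add]
  refine Submodule.add_mem_sup ?_ ?_
  · refine tens_mono ?_ le_top (tens_theta hq hpq hz)
    rw [Submodule.map_sup, map_one_sup]
    exact sup_le_sup_left (theta_J hq hpq) _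
  · exact tens_mono le_top (theta_J hq hpq) (tens_theta hq hpq hz')

theorem flagLeft_of_isLeftTangent (hq : NRU q) {T : Submodule ℂ (Uq n q)}
    (h : IsLeftTangent hq T) : FlagLeft hq T := by
  intro x hx
  exact Submodule.mem_sup_left (tens_mono le_rfl le_sup_left (h.2 x (Submodule.mem_sup_left hx)))

theorem flagLeft_iff (hq : NRU q) (σ : ℕ → ℕ → ℕ → Bool) : FlagLeft hq (TT n q σ) ↔ LP n σ := by
  have hp : NRU q⁻¹ := hq.inv
  have hqp : q = q⁻¹⁻¹ := (inv_inv q).symm
  constructor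
  · intro h
    have h0 := flagLeft_congr hq (TTL_sup_J σ).symm h
    have h1 := flagRight_of_flagLeft hp hq hqp h0
    rw [← map_theta_TT hq rfl σ, map_map_theta hq hp rfl hqp] at h1
    exact (right_iff hp (neg3 σ)).2.mp h1
  · intro h
    exact flagLeft_congr hq (TTL_sup_J σ) (flagLeft_of_isLeftTangent hq ((left_iff hq σ).mpr h))

end Pool.Agent.H387.QT
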