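import Pool.Agent.H387.QT.Nest

/-!
# Lusztig's automorphisms and the coproduct of `U_q(sl_{n+1})`
-/

open scoped TensorProduct

namespace Pool.Agent.H387.QT

/-- `q` is nonzero and not a root of unity. -/
structure NRU (q : ℂ) : Prop where
  ne : q ≠ 0
  ru : ∀ m : ℕ, 0 < m → q ^ m ≠ 1

namespace NRU

variable {q : ℂ} (hq : NRU q)
include hq

theorem q2 : q ^ 2 - 1 ≠ 0 := sub_ne_zero.mpr (hq.ru 2 (by norm_num))

theorem q3 : q + q⁻¹ ≠ 0 := by
  intro h
  have hne := hq.ne
  have h2 : q ^ 2 = -1 := by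
    field_simp at h
    linear_combination h
  apply hq.ru 4 (by norm_num)
  calc q ^ 4 = (q ^ 2) ^ 2 := by ring
    _ = 1 := by rw [h2]; norm_num

theorem inv : NRU q⁻¹ where
  ne := inv_ne_zero hq.ne
  ru m hm h := hq.ru m hm (by
    rw [inv_pow] at h
    rw [← inv_inv (q ^ m), h, inv_one])

theorem zpow {m : ℤ} (hm : q ^ m = 1) : m = 0 := by
  by_contra hne
  rcases lt_or_gt_of_ne hne with h | h
  · apply hq.ru (-m).toNat (by omega)
    rw [← zpow_natCast, Int.toNat_of_nonneg (by omega), zpow_neg, hm, inv_one]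
  · apply hq.ru m.toNat (by omega)
    rw [← zpow_natCast, Int.toNat_of_nonneg (by omega), hm]

theorem zpow_inj {m m' : ℤ} (hm : q ^ m = q ^ m') : m = m' := by
  have : q ^ (m - m') = 1 := by
    rw [zpow_sub₀ hq.ne, hm, div_self (zpow_ne_zero _ hq.ne)]
  have := hq.zpow this
  omega

end NRU

theorem nru_real {q : ℝ} (h0 : 0 < q) (h1 : q ≠ 1) : NRU (q : ℂ) where
  ne := by exact_mod_cast h0.ne'
  ru m hm h := by
    have : q ^ m = 1 := by exact_mod_cast h
    exact h1 ((pow_eq_one_iff_of_nonneg h0.le hm.ne').mp this)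

namespace Uq

variable {n : ℕ} {q : ℂ}

theorem hom_ext {A : Type*} [Ring A] [Algebra ℂ A] {φ ψ : Uq n q →ₐ[ℂ] A}
    (hE : ∀ i, φ (E q i) = ψ (E q i)) (hF : ∀ i, φ (F q i) = ψ (F q i))
    (hK : ∀ i, φ (K q i) = ψ (K q i)) (hL : ∀ i, φ (L q i) = ψ (L q i)) : φ = ψ := by
  have h : φ.comp (mk n q) = ψ.comp (mk n q) := by
    apply FreeAlgebra.hom_ext
    funext g
    cases g with
    | E i => exact hE i
    | F i => exact hF i
    | K i => exact hK i
    | L i => exact hL i
  ext x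
  obtain ⟨y, rfl⟩ := mk_surjective n q x
  exact DFunLike.congr_fun h y

/-- The coproduct `Δ` of `U_q(sl_{n+1})`. -/
noncomputable def comul (n : ℕ) {q : ℂ} (hq : NRU q) : Uq n q →ₐ[ℂ] Uq n q ⊗[ℂ] Uq n q :=
  lift ((isRep n q).tensor (isRep n q) hq.ne)

theorem isRep_zero (n : ℕ) (q : ℂ) :
    IsRep q (fun _ : Fin n => (0 : ℂ)) (fun _ => 0) (fun _ => 1) (fun _ => 1) := by
  constructor <;> intros <;> simp [Serre]

/-- The counit `ε` of `U_q(sl_{n+1})`. -/
noncomputable def counit (n : ℕ) (q : ℂ) : Uq n q →ₐ[ℂ] ℂ := lift (isRep_zero n q)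

/-- Lusztig's automorphism `T_i`. -/
noncomputable def T {q : ℂ} (hq : NRU q) (i : Fin n) : Uq n q →ₐ[ℂ] Uq n q :=
  lift ((isRep n q).braid hq.ne hq.q2 hq.q3 i)

variable (hq : NRU q)

theorem comul_E (i : Fin n) : comul n hq (E q i) = E q i ⊗ₜ[ℂ] K q i + 1 ⊗ₜ[ℂ] E q i := lift_E _ i
theorem comul_F (i : Fin n) : comul n hq (F q i) = F q i ⊗ₜ[ℂ] 1 + L q i ⊗ₜ[ℂ] F q i := lift_F _ i
theorem comul_K (i : Fin n) : comul n hq (K q i) = K q i ⊗ₜ[ℂ] K q i := lift_K _ i
theorem comul_L (i : Fin n) : comul n hq (L q i) = L q i ⊗ₜ[ℂ] L q i := lift_L _ i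
theorem counit_E (i : Fin n) : counit n q (E q i) = 0 := lift_E _ i
theorem counit_F (i : Fin n) : counit n q (F q i) = 0 := lift_F _ i
theorem counit_K (i : Fin n) : counit n q (K q i) = 1 := lift_K _ i
theorem counit_L (i : Fin n) : counit n q (L q i) = 1 := lift_L _ i
theorem T_E (i j : Fin n) : T hq i (E q j) = TE q (E q) (F q) (K q) i j := lift_E _ j
theorem T_F (i j : Fin n) : T hq i (F q j) = TF q (E q) (F q) (L q) i j := lift_F _ j
theorem T_K (i j : Fin n) : T hq i (K q j) = TK (K q) (L q) i j := lift_K _ j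
theorem T_L (i j : Fin n) : T hq i (L q j) = TL (K q) (L q) i j := lift_L _ j

/-- The generator `E_x`, `x : ℕ`, with value `0` when `x` is out of range. -/
noncomputable def E' (n : ℕ) (q : ℂ) (x : ℕ) : Uq n q := if h : x < n then E q ⟨x, h⟩ else 0

theorem E'_of_lt {x : ℕ} (h : x < n) : E' n q x = E q ⟨x, h⟩ := by rw [E', dif_pos h]
theorem E'_of_ge {x : ℕ} (h : n ≤ x) : E' n q x = 0 := by rw [E', dif_neg (by omega)]

theorem E'_comm (x y : ℕ) (h : x + 1 < y) : E' n q x * E' n q y = E' n q y * E' n q x := by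
  by_cases hx : x < n
  · by_cases hy : y < n
    · rw [E'_of_lt hx, E'_of_lt hy]
      apply (isRep n q).ee
      rw [cartan_far_iff]
      refine ⟨?_, ?_, ?_⟩
      · rw [Ne, Fin.ext_iff]; show x ≠ y; omega
      · show x + 1 ≠ y; omega
      · show y + 1 ≠ x; omega
    · rw [E'_of_ge (by omega : n ≤ y)]; simp
  · rw [E'_of_ge (by omega : n ≤ x)]; simp

end Uq

namespace IsRep

variable {n : ℕ} {A : Type*} [Ring A] [Algebra ℂ A] {q : ℂ} {e f k l : Fin n → A}
variable (h : IsRep q e f k l)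
include h

theorem qb_X' (hq : NRU q) {i : Fin n} {x : A} (hf : x * f i = f i * x)
    (hk : k i * x = q⁻¹ • (x * k i)) : qb q (qb q (e i) x) (-(f i * k i)) = x := by
  have hne := hq.ne
  have hq2 := hq.q2
  have h1 := h.ef_self i
  have hl : l i * x = q • (x * l i) := by
    have h1 : x * k i = q • (k i * x) := by rw [hk, smul_smul, mul_inv_cancel₀ hne, one_smul]
    calc l i * x = l i * (x * k i) * l i := by
          rw [mul_assoc, mul_assoc, h.kl, mul_one]
      _ = q • (l i * (k i * x) * l i) := by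
          rw [h1, mul_smul_comm, smul_mul_assoc]
      _ = q • (x * l i) := by
          rw [← mul_assoc, h.lk, one_mul]
  have hqq := qsub_ne hne hq.q2
  have h2' : ∀ y, x * (f i * y) = f i * (x * y) := fun y => by
    rw [← mul_assoc, hf, mul_assoc]
  have hX : qb q (e i) x * f i = f i * qb q (e i) x + x * l i := by
    simp only [qb, mul_sub, sub_mul, mul_add, mul_neg, neg_mul, mul_smul_comm, smul_mul_assoc,
      smul_sub, smul_neg, smul_add, smul_smul, mul_assoc, hf, h2', h1]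
    simp only [← mul_assoc, h1, add_mul, sub_mul, smul_mul_assoc, hk, hl, smul_smul]
    simp only [mul_assoc]
    match_scalars <;> field_simp <;> ring
  have hki : k i * e i = (q * q) • (e i * k i) := h.k_e_self i
  have hw : k i * qb q (e i) x = q • (qb q (e i) x * k i) := by
    have h3 : ∀ y, k i * (e i * y) = (q * q) • (e i * (k i * y)) := fun y => by
      rw [← mul_assoc, hki, smul_mul_assoc, mul_assoc]
    have h4 : ∀ y, k i * (x * y) = q⁻¹ • (x * (k i * y)) := fun y => by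
      rw [← mul_assoc, hk, smul_mul_assoc, mul_assoc]
    simp only [qb, mul_sub, sub_mul, mul_add, mul_neg, neg_mul, mul_smul_comm, smul_mul_assoc,
      smul_sub, smul_neg, smul_add, smul_smul, mul_assoc, h3, h4, hki, hk]
    match_scalars <;> field_simp
  set X := qb q (e i) x
  have e1 : f i * k i * X = q • (f i * X * k i) := by
    rw [mul_assoc, hw, mul_smul_comm, mul_assoc]
  have e2 : X * (f i * k i) = f i * X * k i + x := by
    rw [← mul_assoc, hX, add_mul, mul_assoc x, h.lk, mul_one]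
  rw [qb, mul_neg, neg_mul, e1, e2, smul_neg, smul_smul, inv_mul_cancel₀ hne, one_smul]
  abel

end IsRep

namespace Uq

variable {n : ℕ} {q : ℂ} (hq : NRU q)

theorem K_comm_E' (j : Fin n) (x : ℕ) (h1 : x ≠ j) (h2 : x + 1 ≠ j) (h3 : x ≠ j + 1) :
    K q j * E' n q x = E' n q x * K q j := by
  by_cases hx : x < n
  · rw [E'_of_lt hx]
    apply (isRep n q).k_comm_e
    rw [cartan_far_iff]
    refine ⟨?_, ?_, ?_⟩
    · rw [Ne, Fin.ext_iff]; exact Ne.symm h1
    · exact fun h => h3 h.symm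
    · exact h2
  · rw [E'_of_ge (by omega : n ≤ x)]; simp

theorem F_comm_E' (j : Fin n) (x : ℕ) (h1 : x ≠ j) : F q j * E' n q x = E' n q x * F q j := by
  by_cases hx : x < n
  · rw [E'_of_lt hx]
    refine ((isRep n q).e_comm_f ?_).symm
    rw [Ne, Fin.ext_iff]; exact h1
  · rw [E'_of_ge (by omega : n ≤ x)]; simp

theorem K_E'_pred (j : Fin n) (x : ℕ) (h1 : x + 1 = j) :
    K q j * E' n q x = q⁻¹ • (E' n q x * K q j) := by
  have hx : x < n := by have := j.2; omega
  rw [E'_of_lt hx]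
  apply (isRep n q).k_e_adj
  rw [cartan_adj_iff]
  exact Or.inr h1

theorem K_E'_succ (j : Fin n) (x : ℕ) (h1 : x = j + 1) :
    K q j * E' n q x = q⁻¹ • (E' n q x * K q j) := by
  by_cases hx : x < n
  · rw [E'_of_lt hx]
    apply (isRep n q).k_e_adj
    rw [cartan_adj_iff]
    exact Or.inl h1.symm
  · rw [E'_of_ge (by omega : n ≤ x)]; simp

theorem K_bv_pred (j : Fin n) (s : ℕ → Bool) (a m : ℕ) (h : a + m + 1 = j) :
    K q j * bv q (E' n q) s a m = q⁻¹ • (bv q (E' n q) s a m * K q j) := by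
  cases m with
  | zero => exact K_E'_pred j a h
  | succ m =>
    have h1 : K q j * bv q (E' n q) s a m = bv q (E' n q) s a m * K q j :=
      comm_bv m fun z h1 h2 => K_comm_E' j z (by omega) (by omega) (by omega)
    have h2 : K q j * E' n q (a + m + 1) = q⁻¹ • (E' n q (a + m + 1) * K q j) :=
      K_E'_pred j _ (by omega)
    have h3 : ∀ y, K q j * (bv q (E' n q) s a m * y) = bv q (E' n q) s a m * (K q j * y) :=
      fun y => by rw [← mul_assoc, h1, mul_assoc]
    have h4 : ∀ y, K q j * (E' n q (a + m + 1) * y) = q⁻¹ • (E' n q (a + m + 1) * (K q j * y)) :=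
      fun y => by rw [← mul_assoc, h2, smul_mul_assoc, mul_assoc]
    rw [bv]
    split_ifs
    · simp only [qb, mul_sub, sub_mul, mul_neg, neg_mul, mul_smul_comm, smul_mul_assoc,
        smul_sub, smul_neg, smul_smul, mul_assoc, h1, h2, h3, h4]
    · simp only [qb, mul_sub, sub_mul, mul_neg, neg_mul, mul_smul_comm, smul_mul_assoc,
        smul_sub, smul_neg, smul_smul, mul_assoc, h1, h2, h3, h4]

theorem tj (j : Fin n) : TJ q (E' n q) j (-(F q j * K q j)) (T hq j) where
  far x hx := by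
    by_cases hxn : x < n
    · rw [E'_of_lt hxn, T_E, TE_far]
      rw [cartan_far_iff]
      refine ⟨?_, ?_, ?_⟩
      · rw [Ne, Fin.ext_iff]; show (j : ℕ) ≠ x; omega
      · show (j : ℕ) + 1 ≠ x; omega
      · show x + 1 ≠ j; omega
    · rw [E'_of_ge (by omega), map_zero]
  up := by
    rw [E'_of_lt j.2]
    by_cases hx : (j : ℕ) + 1 < n
    · rw [E'_of_lt hx, T_E, TE_adj]
      rw [cartan_adj_iff]
      exact Or.inl rfl
    · rw [E'_of_ge (by omega), map_zero]
      simp [qb]
  down x hx := by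
    have hxn : x < n := by have := j.2; omega
    rw [E'_of_lt hxn, E'_of_lt j.2, T_E, TE_adj]
    rw [cartan_adj_iff]
    exact Or.inr hx
  self := by rw [E'_of_lt j.2, T_E, TE_self]
  comm := E'_comm
  inv_up := by
    rw [E'_of_lt j.2]
    exact (isRep n q).qb_X' hq (F_comm_E' j _ (by omega)).symm (K_E'_succ j _ rfl)
  inv_down s a m h := by
    rw [E'_of_lt j.2]
    refine (isRep n q).qb_X' hq ?_ (K_bv_pred j s a m h)
    exact (comm_bv m fun z h1 h2 => F_comm_E' j z (by omega)).symm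

end Uq

end Pool.Agent.H387.QT
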