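import Pool.Agent.H387.QT.Coprod

/-!
# Nested brackets and the action of Lusztig's automorphisms on them
-/

namespace Pool.Agent.H387.QT

variable {R : Type*} [Ring R] [Algebra ℂ R] {q : ℂ}

/-- The nested bracket of `e a, e (a + 1), …, e (a + m)`.  The generator `e (a + m + 1)` is put on
the right when `s (a + m + 1) = true` and on the left otherwise. -/
noncomputable def bv (q : ℂ) (e : ℕ → R) (s : ℕ → Bool) (a : ℕ) : ℕ → R
  | 0 => e a
  | m + 1 => if s (a + m + 1) then qb q (bv q e s a m) (e (a + m + 1))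
      else qb q (e (a + m + 1)) (bv q e s a m)

theorem bv_zero (e : ℕ → R) (s : ℕ → Bool) (a : ℕ) : bv q e s a 0 = e a := rfl

theorem bv_succ (e : ℕ → R) (s : ℕ → Bool) (a m : ℕ) :
    bv q e s a (m + 1) = if s (a + m + 1) then qb q (bv q e s a m) (e (a + m + 1))
      else qb q (e (a + m + 1)) (bv q e s a m) := rfl

theorem bv_succ_true {e : ℕ → R} {s : ℕ → Bool} {a m : ℕ} (h : s (a + m + 1) = true) :
    bv q e s a (m + 1) = qb q (bv q e s a m) (e (a + m + 1)) := by
  rw [bv, if_pos h]

theorem bv_succ_false {e : ℕ → R} {s : ℕ → Bool} {a m : ℕ} (h : s (a + m + 1) = false) :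
    bv q e s a (m + 1) = qb q (e (a + m + 1)) (bv q e s a m) := by
  rw [bv, if_neg (by rw [h]; decide)]

theorem bv_congr (e : ℕ → R) {s s' : ℕ → Bool} (a : ℕ) (m : ℕ)
    (h : ∀ z, a < z → z < a + m + 1 → s z = s' z) : bv q e s a m = bv q e s' a m := by
  induction m with
  | zero => rfl
  | succ m ih =>
    rw [bv, bv, ih (fun z h1 h2 => h z h1 (by omega)), h (a + m + 1) (by omega) (by omega)]

/-- the bracket of commuting elements: rearrangements -/
theorem qb_assoc {x y z : R} (h : x * z = z * x) : qb q (qb q x y) z = qb q x (qb q y z) := by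
  have h1 : ∀ t, x * (z * t) = z * (x * t) := fun t => by rw [← mul_assoc, h, mul_assoc]
  simp only [qb, mul_sub, sub_mul, mul_neg, neg_mul, mul_smul_comm, smul_mul_assoc,
    smul_sub, smul_neg, smul_smul, mul_assoc, h, h1]
  match_scalars <;> ring

theorem qb_left_comm {x y z : R} (h : x * y = y * x) : qb q x (qb q y z) = qb q y (qb q x z) := by
  have h1 : ∀ t, x * (y * t) = y * (x * t) := fun t => by rw [← mul_assoc, h, mul_assoc]
  simp only [qb, mul_sub, sub_mul, mul_neg, neg_mul, mul_smul_comm, smul_mul_assoc,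
    smul_sub, smul_neg, smul_smul, mul_assoc, h, h1]
  match_scalars <;> ring

theorem qb_right_comm {x y z : R} (h : x * z = z * x) : qb q (qb q y z) x = qb q (qb q y x) z := by
  have h1 : ∀ t, x * (z * t) = z * (x * t) := fun t => by rw [← mul_assoc, h, mul_assoc]
  simp only [qb, mul_sub, sub_mul, mul_neg, neg_mul, mul_smul_comm, smul_mul_assoc,
    smul_sub, smul_neg, smul_smul, mul_assoc, h, h1]
  match_scalars <;> ring

theorem comm_qb {x y z : R} (h1 : x * y = y * x) (h2 : x * z = z * x) :
    x * qb q y z = qb q y z * x := by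
  have h1' : ∀ t, x * (y * t) = y * (x * t) := fun t => by rw [← mul_assoc, h1, mul_assoc]
  have h2' : ∀ t, x * (z * t) = z * (x * t) := fun t => by rw [← mul_assoc, h2, mul_assoc]
  simp only [qb, mul_sub, sub_mul, mul_neg, neg_mul, mul_smul_comm, smul_mul_assoc,
    smul_sub, smul_neg, smul_smul, mul_assoc, h1, h1', h2, h2']

theorem comm_bv {e : ℕ → R} {s : ℕ → Bool} {x : R} {a : ℕ} (m : ℕ)
    (h : ∀ z, a ≤ z → z ≤ a + m → x * e z = e z * x) : x * bv q e s a m = bv q e s a m * x := by
  induction m with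
  | zero => exact h a le_rfl le_rfl
  | succ m ih =>
    have ih := ih (fun z h1 h2 => h z h1 (by omega))
    have h' := h (a + m + 1) (by omega) (by omega)
    rw [bv]
    split_ifs
    · exact comm_qb ih h'
    · exact comm_qb h' ih

theorem map_qb {R' : Type*} [Ring R'] [Algebra ℂ R'] (T : R →ₐ[ℂ] R') (x y : R) :
    T (qb q x y) = qb q (T x) (T y) := by
  simp only [qb, map_neg, map_sub, map_mul, map_smul]

theorem map_bv {R' : Type*} [Ring R'] [Algebra ℂ R'] (T : R →ₐ[ℂ] R') (e : ℕ → R) (s : ℕ → Bool)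
    (a m : ℕ) : T (bv q e s a m) = bv q (fun i => T (e i)) s a m := by
  induction m with
  | zero => rfl
  | succ m ih =>
    rw [bv, bv]
    split_ifs <;> rw [map_qb, ih]

theorem bv_congr_e {e e' : ℕ → R} (s : ℕ → Bool) (a m : ℕ)
    (h : ∀ z, a ≤ z → z ≤ a + m → e z = e' z) : bv q e s a m = bv q e' s a m := by
  induction m with
  | zero => exact h a le_rfl le_rfl
  | succ m ih =>
    rw [bv, bv, ih (fun z h1 h2 => h z h1 (by omega)), h (a + m + 1) (by omega) (by omega)]

/-- What is needed of the automorphism `T = T_j`. -/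
structure TJ (q : ℂ) (e : ℕ → R) (j : ℕ) (g : R) (T : R →ₐ[ℂ] R) : Prop where
  far : ∀ x, (x + 1 < j ∨ j + 1 < x) → T (e x) = e x
  up : T (e (j + 1)) = qb q (e j) (e (j + 1))
  down : ∀ x, x + 1 = j → T (e x) = qb q (e j) (e x)
  self : T (e j) = g
  comm : ∀ x y, x + 1 < y → e x * e y = e y * e x
  inv_up : qb q (qb q (e j) (e (j + 1))) g = e (j + 1)
  inv_down : ∀ s a m, a + m + 1 = j → qb q (qb q (e j) (bv q e s a m)) g = bv q e s a m

namespace TJ

variable {e : ℕ → R} {j : ℕ} {g : R} {T : R →ₐ[ℂ] R} (h : TJ q e j g T)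
include h

theorem comm_bv_right {s : ℕ → Bool} {a m x : ℕ} (hx : a + m + 1 < x) :
    e x * bv q e s a m = bv q e s a m * e x :=
  comm_bv m fun z _ h2 => (h.comm z x (by omega)).symm

theorem bv_far {s : ℕ → Bool} {a m : ℕ} (hj : a + m + 1 < j ∨ j + 1 < a) :
    T (bv q e s a m) = bv q e s a m := by
  rw [map_bv]
  exact bv_congr_e s a m fun z h1 h2 => h.far z (by omega)

/-- `j = c` -/
theorem bv_end {s : ℕ → Bool} {a m : ℕ} (hj : a + m + 1 = j) :
    T (bv q e s a m) = qb q (e j) (bv q e s a m) := by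
  cases m with
  | zero => exact h.down a hj
  | succ m =>
    have h1 : T (bv q e s a m) = bv q e s a m := h.bv_far (by omega)
    have h2 : T (e (a + m + 1)) = qb q (e j) (e (a + m + 1)) := h.down _ (by omega)
    have h3 : e j * bv q e s a m = bv q e s a m * e j := h.comm_bv_right (by omega)
    rw [bv]
    split_ifs
    · rw [map_qb, h1, h2]
      exact qb_left_comm h3.symm
    · rw [map_qb, h1, h2]
      exact qb_assoc h3

/-- `j = c`, in terms of brackets -/
theorem bv_end' {s s' : ℕ → Bool} {a m : ℕ} (hj : a + m + 1 = j) (hs : s' j = false)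
    (hss : ∀ z, z < j → s' z = s z) :
    T (bv q e s a m) = bv q e s' a (m + 1) := by
  rw [h.bv_end hj, bv_succ_false (by rw [hj]; exact hs), hj]
  congr 1
  exact bv_congr e a m fun z _ h2 => (hss z (by omega)).symm

/-- `j + 1 = a` -/
theorem bv_start {s s' : ℕ → Bool} {m : ℕ} (hs : s' (j + 1) = true)
    (hss : ∀ z, j + 1 < z → s' z = s z) :
    T (bv q e s (j + 1) m) = bv q e s' j (m + 1) := by
  induction m with
  | zero => rw [bv_succ_true hs, bv_zero, bv_zero]; exact h.up
  | succ m ih =>
    have h2 : T (e (j + 1 + m + 1)) = e (j + 1 + m + 1) := h.far _ (by omega)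
    rw [bv, bv, hss (j + (m + 1) + 1) (by omega)]
    have : j + (m + 1) + 1 = j + 1 + m + 1 := by omega
    rw [this]
    split_ifs <;> rw [map_qb, ih, h2]

/-- `j = a` -/
theorem bv_first {s : ℕ → Bool} {m : ℕ} (hs : s (j + 1) = false) :
    T (bv q e s j (m + 1)) = bv q e s (j + 1) m := by
  induction m with
  | zero =>
    rw [bv_succ_false hs, bv_zero, bv_zero, map_qb, h.self]
    simp only [add_zero]
    rw [h.up]
    exact h.inv_up
  | succ m ih =>
    have h2 : T (e (j + 1 + m + 1)) = e (j + 1 + m + 1) := h.far _ (by omega)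
    rw [bv_succ e s j (m + 1), bv_succ e s (j + 1) m]
    have : j + (m + 1) + 1 = j + 1 + m + 1 := by omega
    rw [this]
    split_ifs <;> rw [map_qb, ih, h2]

/-- `j + 1 = c` -/
theorem bv_last {s : ℕ → Bool} {a m : ℕ} (hj : a + m + 1 = j) (hs : s j = true) :
    T (bv q e s a (m + 1)) = bv q e s a m := by
  rw [bv_succ_true (by rw [hj]; exact hs), map_qb, hj, h.self, h.bv_end hj]
  exact h.inv_down s a m hj

/-- `a < j`, `j + 1 < c` -/
theorem bv_mid {s s' : ℕ → Bool} {a m r : ℕ} (hj : a + m + 1 = j)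
    (hs : s j = false → s (j + 1) = true → False)
    (h1 : s' j = s (j + 1)) (h2 : s' (j + 1) = s j)
    (hss : ∀ z, z ≠ j → z ≠ j + 1 → s' z = s z) :
    T (bv q e s a (m + 2 + r)) = bv q e s' a (m + 2 + r) := by
  induction r with
  | zero =>
    set x := bv q e s a m with hx
    have hx' : bv q e s' a m = x := bv_congr e a m fun z _ h2 => hss z (by omega) (by omega)
    have hT : T x = qb q (e j) x := h.bv_end hj
    have hc : e (j + 1) * x = x * e (j + 1) := h.comm_bv_right (by omega)
    have hi : qb q (qb q (e j) x) g = x := h.inv_down s a m hj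
    have hi2 := h.inv_up
    have e1 : a + m + 1 = j := hj
    have e2 : a + (m + 1) + 1 = j + 1 := by omega
    rcases hb1 : s j with _ | _
    · rcases hb2 : s (j + 1) with _ | _
      · -- (-,-)
        show T (bv q e s a (m + 1 + 1)) = bv q e s' a (m + 1 + 1)
        rw [bv_succ_false (by rw [e2]; exact hb2), bv_succ_false (by rw [e1]; exact hb1),
          bv_succ_false (by rw [e2, h2]; exact hb1), bv_succ_false (by rw [e1, h1]; exact hb2),
          e1, e2, hx', ← qb_assoc hc, map_qb, map_qb, h.up, h.self, hT, hi2, qb_assoc hc]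
      · exact (hs hb1 hb2).elim
    · rcases hb2 : s (j + 1) with _ | _
      · -- (+,-)
        show T (bv q e s a (m + 1 + 1)) = bv q e s' a (m + 1 + 1)
        rw [bv_succ_false (by rw [e2]; exact hb2), bv_succ_true (by rw [e1]; exact hb1),
          bv_succ_true (by rw [e2, h2]; exact hb1), bv_succ_false (by rw [e1, h1]; exact hb2),
          e1, e2, hx', map_qb, map_qb, h.up, h.self, hT, hi]
        exact qb_right_comm hc.symm
      · -- (+,+)
        show T (bv q e s a (m + 1 + 1)) = bv q e s' a (m + 1 + 1)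
        rw [bv_succ_true (by rw [e2]; exact hb2), bv_succ_true (by rw [e1]; exact hb1),
          bv_succ_true (by rw [e2, h2]; exact hb1), bv_succ_true (by rw [e1, h1]; exact hb2),
          e1, e2, hx', map_qb, map_qb, h.up, h.self, hT, hi]
        exact (qb_assoc hc.symm).symm
  | succ r ih =>
    have e1 : m + 2 + (r + 1) = (m + 2 + r) + 1 := by omega
    have h3 : T (e (a + (m + 2 + r) + 1)) = e (a + (m + 2 + r) + 1) := h.far _ (by omega)
    rw [e1, bv, bv, hss (a + (m + 2 + r) + 1) (by omega) (by omega)]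
    split_ifs <;> rw [map_qb, ih, h3]

end TJ

end Pool.Agent.H387.QT
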