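import Pool.Agent.H387.QT.Small

/-!
# Necessity
-/

open scoped TensorProduct

namespace Pool.Agent.H387.QT

/-- states with prescribed occupation of four sites -/
def st (a b c d : ℕ) (p0 p1 p2 p3 : Bool) : St := fun x =>
  if x = a then p0 else if x = b then p1 else if x = c then p2 else if x = d then p3 else false

section st

variable {a b c d : ℕ} (hab : a < b) (hbc : b < c) (hcd : c < d)
include hab hbc hcd

theorem st_a (p0 p1 p2 p3 : Bool) : st a b c d p0 p1 p2 p3 a = p0 := by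
  unfold st; rw [if_pos rfl]
theorem st_b (p0 p1 p2 p3 : Bool) : st a b c d p0 p1 p2 p3 b = p1 := by
  unfold st; rw [if_neg (by omega), if_pos rfl]
theorem st_c (p0 p1 p2 p3 : Bool) : st a b c d p0 p1 p2 p3 c = p2 := by
  unfold st; rw [if_neg (by omega), if_neg (by omega), if_pos rfl]
theorem st_d (p0 p1 p2 p3 : Bool) : st a b c d p0 p1 p2 p3 d = p3 := by
  unfold st; rw [if_neg (by omega), if_neg (by omega), if_neg (by omega), if_pos rfl]

omit hab hbc hcd in
theorem st_other {x : ℕ} (h1 : x ≠ a) (h2 : x ≠ b) (h3 : x ≠ c) (h4 : x ≠ d)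
    (p0 p1 p2 p3 : Bool) : st a b c d p0 p1 p2 p3 x = false := by
  unfold st; rw [if_neg h1, if_neg h2, if_neg h3, if_neg h4]

theorem st_inj : InjF (st a b c d) := by
  intro p0 p1 p2 p3 r0 r1 r2 r3
  constructor
  · intro h
    have ha := congrFun h a
    have hb := congrFun h b
    have hc := congrFun h c
    have hd := congrFun h d
    rw [st_a hab hbc hcd, st_a hab hbc hcd] at ha
    rw [st_b hab hbc hcd, st_b hab hbc hcd] at hb
    rw [st_c hab hbc hcd, st_c hab hbc hcd] at hc
    rw [st_d hab hbc hcd, st_d hab hbc hcd] at hd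
    exact ⟨ha, hb, hc, hd⟩
  · rintro ⟨rfl, rfl, rfl, rfl⟩; rfl

theorem mv_st_ab (p0 p1 p2 p3 : Bool) :
    mv a b (st a b c d p0 p1 p2 p3) = st a b c d p1 p0 p2 p3 := by
  funext x
  by_cases h1 : x = a
  · subst h1; rw [mv_left, st_a hab hbc hcd, st_b hab hbc hcd]
  · by_cases h2 : x = b
    · subst h2; rw [mv_right, st_a hab hbc hcd, st_b hab hbc hcd]
    · rw [mv_ne _ h1 h2]
      unfold st
      rw [if_neg h1, if_neg h1, if_neg h2, if_neg h2]

theorem mv_st_bc (p0 p1 p2 p3 : Bool) :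
    mv b c (st a b c d p0 p1 p2 p3) = st a b c d p0 p2 p1 p3 := by
  funext x
  by_cases h1 : x = b
  · subst h1; rw [mv_left, st_b hab hbc hcd, st_c hab hbc hcd]
  · by_cases h2 : x = c
    · subst h2; rw [mv_right, st_b hab hbc hcd, st_c hab hbc hcd]
    · rw [mv_ne _ h1 h2]
      unfold st
      rw [if_neg h1, if_neg h1, if_neg h2, if_neg h2]

theorem mv_st_cd (p0 p1 p2 p3 : Bool) :
    mv c d (st a b c d p0 p1 p2 p3) = st a b c d p0 p1 p3 p2 := by
  funext x
  by_cases h1 : x = c
  · subst h1; rw [mv_left, st_c hab hbc hcd, st_d hab hbc hcd]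
  · by_cases h2 : x = d
    · subst h2; rw [mv_right, st_c hab hbc hcd, st_d hab hbc hcd]
    · rw [mv_ne _ h1 h2]
      unfold st
      rw [if_neg h1, if_neg h1, if_neg h2, if_neg h2]

variable {q : ℂ} (hq : q ≠ 0) (cc dd : ℕ → ℂ) (s : ℕ → Bool)
include hq

theorem actX : ActX (q := q) (st a b c d) (bv q (eo2 q cc dd) s a (b - a - 1))
    (kp q s (fun _ => false) a (b - a - 1)) (cp cc a (b - a - 1)) (cp dd a (b - a - 1)) := by
  intro g p0 p1 p2 p3 r0 r1 r2 r3
  have e : a + (b - a - 1) + 1 = b := by omega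
  rw [eval2 hq, e, st_a hab hbc hcd, st_b hab hbc hcd, st_a hab hbc hcd, st_b hab hbc hcd,
    mv_st_ab hab hbc hcd, mv_st_ab hab hbc hcd]
  · intro z h1 h2
    exact st_other (by omega) (by omega) (by omega) (by omega) _ _ _ _
  · intro z h1 h2
    exact st_other (by omega) (by omega) (by omega) (by omega) _ _ _ _

theorem actY : ActY (q := q) (st a b c d) (bv q (eo2 q cc dd) s b (c - b - 1))
    (kp q s (fun _ => false) b (c - b - 1)) (cp cc b (c - b - 1)) (cp dd b (c - b - 1)) := by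
  intro g p0 p1 p2 p3 r0 r1 r2 r3
  have e : b + (c - b - 1) + 1 = c := by omega
  rw [eval2 hq, e, st_b hab hbc hcd, st_c hab hbc hcd, st_b hab hbc hcd, st_c hab hbc hcd,
    mv_st_bc hab hbc hcd, mv_st_bc hab hbc hcd]
  · intro z h1 h2
    exact st_other (by omega) (by omega) (by omega) (by omega) _ _ _ _
  · intro z h1 h2
    exact st_other (by omega) (by omega) (by omega) (by omega) _ _ _ _

theorem actZ : ActZ (q := q) (st a b c d) (bv q (eo2 q cc dd) s c (d - c - 1))
    (kp q s (fun _ => false) c (d - c - 1)) (cp cc c (d - c - 1)) (cp dd c (d - c - 1)) := by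
  intro g p0 p1 p2 p3 r0 r1 r2 r3
  have e : c + (d - c - 1) + 1 = d := by omega
  rw [eval2 hq, e, st_c hab hbc hcd, st_d hab hbc hcd, st_c hab hbc hcd, st_d hab hbc hcd,
    mv_st_cd hab hbc hcd, mv_st_cd hab hbc hcd]
  · intro z h1 h2
    exact st_other (by omega) (by omega) (by omega) (by omega) _ _ _ _
  · intro z h1 h2
    exact st_other (by omega) (by omega) (by omega) (by omega) _ _ _ _

end st

/-- complement -/
def co (P : St) : St := fun x => !P x

theorem wt_co (i : ℕ) (P : St) : wt i (co P) = -wt i P := by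
  unfold wt co bit
  rcases P i with _ | _ <;> rcases P (i + 1) with _ | _ <;> simp

theorem cp_wt {q : ℂ} (hq : q ≠ 0) (R : St) (a m : ℕ) :
    cp (fun i => q ^ wt i R) a m = q ^ (bit (R a) - bit (R (a + m + 1))) := by
  induction m with
  | zero => rw [cp_zero]; rfl
  | succ m ih =>
    rw [cp_succ, ih, ← zpow_add₀ hq, wt]
    congr 1
    have : a + (m + 1) + 1 = a + m + 1 + 1 := by omega
    rw [this]
    ring

theorem cp_mul (c d : ℕ → ℂ) (a m : ℕ) : cp (fun i => c i * d i) a m = cp c a m * cp d a m := by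
  unfold cp; exact Finset.prod_mul_distrib

/-- the left ideal generated by the `K_i - 1` -/
noncomputable def J (n : ℕ) (q : ℂ) : Submodule ℂ (Uq n q) :=
  Submodule.span ℂ {x | ∃ (u : Uq n q) (i : Fin n), x = u * (Uq.K q i - 1)}

section functional

variable {n : ℕ} {q : ℂ} (hq : NRU q)

/-- the matrix coefficient of `e_{P0} ⊗ e_{co P0}` and `e_P ⊗ e_{co P0}` -/
noncomputable def phi (n : ℕ) {q : ℂ} (hq : NRU q) (P0 P : St) : Uq n q →ₗ[ℂ] ℂ :=
  (LinearMap.proj (P, co P0)).comp ((LinearMap.applyₗ (ind P0 (co P0))).comp (rho n hq).toLinearMap)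

theorem phi_apply (P0 P : St) (u : Uq n q) :
    phi n hq P0 P u = rho n hq u (ind P0 (co P0)) (P, co P0) := rfl

theorem rho_K_ind (P0 : St) (i : Fin n) :
    rho n hq (Uq.K q i) (ind P0 (co P0)) = ind P0 (co P0) := by
  funext ⟨P, R⟩
  have h1 := rho_K hq i.2 (ind P0 (co P0)) P R
  rw [Uq.K'_of_lt i.2] at h1
  change rho n hq (Uq.K q i) (ind P0 (co P0)) (P, R) = _ at h1
  rw [h1]
  by_cases h : P = P0 ∧ R = co P0
  · obtain ⟨rfl, rfl⟩ := h
    rw [← mul_assoc, ← zpow_add₀ hq.ne, wt_co, add_neg_cancel, zpow_zero, one_mul]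
  · have : ind P0 (co P0) (P, R) = 0 := by
      unfold ind; rw [if_neg h]
    rw [this]; simp

theorem phi_J (P0 P : St) {x : Uq n q} (hx : x ∈ J n q) : phi n hq P0 P x = 0 := by
  unfold J at hx
  induction hx using Submodule.span_induction with
  | mem x hx =>
    obtain ⟨u, i, rfl⟩ := hx
    rw [phi_apply, map_mul, Module.End.mul_apply, map_sub, map_one, LinearMap.sub_apply,
      rho_K_ind, Module.End.one_apply, sub_self, map_zero]
    rfl
  | zero => exact map_zero _
  | add x y _ _ h1 h2 => rw [map_add, h1, h2, add_zero]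
  | smul r x _ h1 => rw [map_smul, h1, smul_zero]

theorem phi_one {P0 P : St} (h : P ≠ P0) : phi n hq P0 P 1 = 0 := by
  rw [phi_apply, map_one, Module.End.one_apply]
  unfold ind
  rw [if_neg (fun h' => h h'.1)]

theorem F1_ind (P0 : St) : F1 n (co P0) (ind P0 (co P0)) := by
  intro P R hR
  unfold ind
  rw [if_neg]
  rintro ⟨_, rfl⟩
  exact lt_irrefl _ hR

open Classical in
theorem phi_root (P0 P : St) (s : ℕ → Bool) {x y : ℕ} (hxy : x < y) (hy : y ≤ n) :
    phi n hq P0 P (bv q (Uq.E' n q) s x (y - x - 1)) =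
      if P x = true ∧ P y = false ∧ mv x y P = P0 then
        kp q s P x (y - x - 1) * q ^ (bit (co P0 x) - bit (co P0 y)) else 0 := by
  have h1 := (int1_bv n hq (co P0) (s := s) (a := x) (m := y - x - 1) (by omega)
    (ind P0 (co P0)) (F1_ind P0)).2
  have h2 := congrFun h1 P
  have e : x + (y - x - 1) + 1 = y := by omega
  rw [phi_apply]
  change rho n hq (bv q (Uq.E' n q) s x (y - x - 1)) (ind P0 (co P0)) (P, co P0) = _ at h2
  rw [h2, eval1, e, cp_wt hq.ne, e]
  by_cases h3 : P x = true ∧ P y = false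
  · rw [if_pos h3]
    by_cases h4 : mv x y P = P0
    · rw [if_pos ⟨h3.1, h3.2, h4⟩, h4]
      unfold ind
      rw [if_pos ⟨rfl, rfl⟩, mul_one]
    · rw [if_neg (by tauto)]
      unfold ind
      rw [if_neg (fun h => h4 h.1), mul_zero]
  · rw [if_neg h3, if_neg (by tauto)]

/-- the value of the coproduct -/
theorem pr_comul (P0 Q0 P Q : St) (u : Uq n q) (O : Module.End ℂ (St × St → ℂ))
    (h : Int2 n hq (ind P0 (co P0)) (ind Q0 (co Q0)) (co P0) (co Q0) u O) :
    pr n hq (ind P0 (co P0)) (ind Q0 (co Q0)) (P, co P0) (Q, co Q0) (Uq.comul n hq u)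
      = O (ind P0 Q0) (P, Q) := by
  have hF : F2 n hq (ind P0 (co P0)) (ind Q0 (co Q0)) (co P0) (co Q0) 1 := by
    intro P R Q S hRS
    rw [Algebra.TensorProduct.one_def, pr_tmul, map_one, Module.End.one_apply,
      Module.End.one_apply]
    unfold ind
    rcases hRS with hR | hS
    · rw [if_neg (fun h' => by rw [show R = co P0 from h'.2] at hR; exact lt_irrefl _ hR), zero_mul]
    · rw [if_neg (c := (Q, S).1 = Q0 ∧ (Q, S).2 = co Q0)
        (fun h' => by rw [show S = co Q0 from h'.2] at hS; exact lt_irrefl _ hS), mul_zero]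
  have h1 := (h 1 hF).2
  have h2 := congrFun h1 (P, Q)
  rw [mul_one] at h2
  change pr n hq (ind P0 (co P0)) (ind Q0 (co Q0)) (P, co P0) (Q, co Q0) (Uq.comul n hq u) = _ at h2
  rw [h2]
  have h5 : sl2 n hq (ind P0 (co P0)) (ind Q0 (co Q0)) (co P0) (co Q0) 1 = ind P0 Q0 := by
    funext ⟨P', Q'⟩
    unfold sl2
    rw [Algebra.TensorProduct.one_def, pr_tmul, map_one, Module.End.one_apply,
        Module.End.one_apply]
    unfold ind
    by_cases h3 : P' = P0 <;> by_cases h4 : Q' = Q0 <;> simp [h3, h4]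
  rw [h5]

end functional

end Pool.Agent.H387.QT
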