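import Pool.Agent.H387.QT.Lusztig

/-!
# Root vectors as nested brackets
-/

namespace Pool.Agent.H387.QT

/-- `s_{i_1} ⋯ s_{i_k}` acting on `ℕ` (with `s_i` exchanging `i` and `i + 1`). -/
def permN {n : ℕ} (w : List (Fin n)) : Equiv.Perm ℕ :=
  (w.map fun i => Equiv.swap (i : ℕ) (i + 1)).prod

theorem permN_nil {n : ℕ} : permN ([] : List (Fin n)) = 1 := rfl

theorem permN_cons {n : ℕ} (j : Fin n) (u : List (Fin n)) :
    permN (j :: u) = Equiv.swap (j : ℕ) (j + 1) * permN u := by
  simp [permN]

theorem permN_cons_apply {n : ℕ} (j : Fin n) (u : List (Fin n)) (x : ℕ) :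
    permN (j :: u) x = Equiv.swap (j : ℕ) (j + 1) (permN u x) := by
  rw [permN_cons]; rfl

theorem permN_cons_inv {n : ℕ} (j : Fin n) (u : List (Fin n)) (x : ℕ) :
    (permN (j :: u))⁻¹ x = (permN u)⁻¹ (Equiv.swap (j : ℕ) (j + 1) x) := by
  rw [permN_cons, mul_inv_rev, Equiv.swap_inv]; rfl

/-- Every left factor increases the length. -/
def Ok {n : ℕ} : List (Fin n) → Prop
  | [] => True
  | j :: u => Ok u ∧ (permN u)⁻¹ j < (permN u)⁻¹ (j + 1)

namespace Uq

variable {n : ℕ} {q : ℂ} (hq : NRU q)

/-- `T_{i_1} ⋯ T_{i_k}`. -/
noncomputable def Tw (hq : NRU q) : List (Fin n) → (Uq n q →ₐ[ℂ] Uq n q)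
  | [] => AlgHom.id ℂ _
  | i :: u => (T hq i).comp (Tw hq u)

theorem Tw_cons (i : Fin n) (u : List (Fin n)) (x : Uq n q) :
    Tw hq (i :: u) x = T hq i (Tw hq u x) := rfl

theorem root_formula (u : List (Fin n)) (hu : Ok u) (i : Fin n)
    (hi : permN u i < permN u (i + 1)) :
    Tw hq u (E q i) = bv q (E' n q) (fun z => decide ((permN u)⁻¹ z < i)) (permN u i)
      (permN u (i + 1) - permN u i - 1) := by
  induction u with
  | nil =>
    simp only [permN_nil, Equiv.Perm.coe_one, id]
    have : (i : ℕ) + 1 - i - 1 = 0 := by omega
    rw [this, bv_zero, E'_of_lt i.2]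
    rfl
  | cons j u ih =>
    obtain ⟨hu, hj⟩ := hu
    rw [Tw_cons]
    simp only [permN_cons_apply, permN_cons_inv] at hi ⊢
    set a := permN u i with ha
    set c := permN u (i + 1) with hc
    have pa : (permN u)⁻¹ a = i := by rw [ha]; simp
    have pc : (permN u)⁻¹ c = i + 1 := by rw [hc]; simp
    have inj : ∀ x y, (permN u)⁻¹ x = (permN u)⁻¹ y → x = y := fun x y h =>
      (permN u)⁻¹.injective h
    set p : ℕ → ℕ := fun x => (permN u)⁻¹ x with hp
    have pa' : p a = i := pa
    have pc' : p c = i + 1 := pc
    have inj' : ∀ x y, p x = p y → x = y := inj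
    have hj' : p j < p (j + 1) := hj
    change T hq j _ = bv q (E' n q) (fun z => decide (p (Equiv.swap (j : ℕ) (j + 1) z) < i)) _ _
    have swl : Equiv.swap (j : ℕ) (j + 1) j = j + 1 := Equiv.swap_apply_left _ _
    have swr : Equiv.swap (j : ℕ) (j + 1) (j + 1) = j := Equiv.swap_apply_right _ _
    have swn : ∀ z : ℕ, z ≠ (j : ℕ) → z ≠ (j : ℕ) + 1 →
        Equiv.swap (j : ℕ) (j + 1) z = z := fun z h1 h2 =>
      Equiv.swap_apply_of_ne_of_ne h1 h2
    have hne : a ≠ c := fun h => by rw [h, pc'] at pa'; omega
    -- `a < c`
    have hac : a < c := by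
      by_contra hlt
      have hca : c < a := by omega
      by_cases h1 : c = j
      · by_cases h2 : a = j + 1
        · rw [← h1] at hj'
          have : p (c + 1) = p a := by rw [h1, h2]
          omega
        · rw [h1, swl, swn a (by omega) h2] at hi
          omega
      · by_cases h3 : c = j + 1
        · rw [h3, swr, swn a (by omega) (by omega)] at hi
          omega
        · rw [swn c h1 h3] at hi
          by_cases h4 : a = j
          · rw [h4, swl] at hi; omega
          · by_cases h5 : a = j + 1
            · rw [h5, swr] at hi
              omega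
            · rw [swn a h4 h5] at hi; omega
    have hT := ih hu hac
    rw [hT]
    have tj := tj hq j
    set m := c - a - 1 with hm
    have hcm : c = a + m + 1 := by omega
    by_cases c1 : c < j ∨ (j : ℕ) + 1 < a
    · rw [tj.bv_far (by omega), swn a (by omega) (by omega), swn c (by omega) (by omega)]
      refine bv_congr _ _ _ fun z h1 h2 => ?_
      rw [swn z (by omega) (by omega)]
    · by_cases c2 : (j : ℕ) + 1 = a
      · rw [← c2, swr, swn c (by omega) (by omega)]
        have hm' : c - j - 1 = m + 1 := by omega
        rw [hm']
        refine tj.bv_start ?_ ?_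
        · rw [swr, decide_eq_true_eq]
          rw [c2] at hj'
          omega
        · intro z hz
          rw [swn z (by omega) (by omega)]
      · by_cases c3 : (j : ℕ) = a
        · have hc3 : c ≠ j + 1 := by
            intro h
            rw [h, ← c3, swl, swr] at hi
            omega
          rw [← c3, swl, swn c (by omega) (by omega)]
          obtain ⟨m', hm'⟩ : ∃ m', m = m' + 1 := ⟨m - 1, by omega⟩
          have hm'' : c - (j + 1) - 1 = m' := by omega
          rw [hm', hm'', tj.bv_first]
          · refine bv_congr _ _ _ fun z h1 h2 => ?_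
            rw [swn z (by omega) (by omega)]
          · rw [decide_eq_false_iff_not]
            rw [c3] at hj'
            rw [c3]
            change ¬ p (a + 1) < i
            omega
        · by_cases c4 : (j : ℕ) = c
          · have hm'' : j + 1 - a - 1 = m + 1 := by omega
            have hcj : Equiv.swap (j : ℕ) (j + 1) c = j + 1 := by rw [← c4]; exact swl
            rw [hcj, swn a (by omega) (by omega), hm'']
            refine tj.bv_end' (by omega) ?_ ?_
            · rw [swl, decide_eq_false_iff_not]
              rw [c4] at hj'
              rw [c4]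
              omega
            · intro z hz
              rw [swn z (by omega) (by omega)]
          · by_cases c5 : (j : ℕ) + 1 = c
            · rw [← c5, swr, swn a (by omega) (by omega)]
              obtain ⟨m', hm'⟩ : ∃ m', m = m' + 1 := ⟨m - 1, by omega⟩
              have hm'' : j - a - 1 = m' := by omega
              rw [hm'', hm', tj.bv_last (by omega)]
              · refine bv_congr _ _ _ fun z h1 h2 => ?_
                rw [swn z (by omega) (by omega)]
              · rw [decide_eq_true_eq]
                rw [c5] at hj'
                change p j < i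
                have : p j ≠ i := fun h => by
                  have := inj' j a (by rw [h, pa'])
                  omega
                omega
            · rw [swn a (by omega) (by omega), swn c (by omega) (by omega)]
              obtain ⟨m1, hm1⟩ : ∃ m1, a + m1 + 1 = j := ⟨j - a - 1, by omega⟩
              obtain ⟨r, hr⟩ : ∃ r, m = m1 + 2 + r := ⟨m - m1 - 2, by omega⟩
              have e0 : c - a - 1 = m := by omega
              rw [e0, hr]
              refine tj.bv_mid hm1 ?_ ?_ ?_ ?_
              · intro h1 h2
                rw [decide_eq_false_iff_not] at h1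
                rw [decide_eq_true_eq] at h2
                have h1' : ¬ p j < i := h1
                have h2' : p (j + 1) < i := h2
                omega
              · rw [swl]
              · rw [swr]
              · intro z h1 h2
                rw [swn z h1 h2]

end Uq

end Pool.Agent.H387.QT
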