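import Pool.Agent.H387.QT.Eval

/-!
# The rank three computations
-/

open scoped TensorProduct

namespace Pool.Agent.H387.QT

theorem bv_split {R : Type*} [Ring R] [Algebra ℂ R] {q : ℂ} {e : ℕ → R}
    (hc : ∀ x y, x + 1 < y → e x * e y = e y * e x) (s : ℕ → Bool) (a m1 m2 : ℕ) :
    bv q e s a (m1 + 1 + m2) = if s (a + m1 + 1) then
      qb q (bv q e s a m1) (bv q e s (a + m1 + 1) m2)
      else qb q (bv q e s (a + m1 + 1) m2) (bv q e s a m1) := by
  induction m2 with
  | zero => rfl
  | succ m ih =>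
    have e1 : m1 + 1 + (m + 1) = (m1 + 1 + m) + 1 := by omega
    have e2 : a + (m1 + 1 + m) + 1 = a + m1 + 1 + m + 1 := by omega
    have hcm : bv q e s a m1 * e (a + m1 + 1 + m + 1) = e (a + m1 + 1 + m + 1) * bv q e s a m1 :=
      (comm_bv m1 fun z _ h2 => (hc z _ (by omega)).symm).symm
    rw [e1, bv_succ, bv_succ, ih, e2]
    split_ifs with h1 h2 h2
    · exact qb_assoc hcm
    · exact (qb_right_comm hcm).symm
    · exact qb_left_comm hcm.symm
    · exact (qb_assoc hcm.symm).symm

section

variable {q : ℂ} (hq : q ≠ 0) (F : Bool → Bool → Bool → Bool → St)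

/-- an operator acting as a generator on the first two sites -/
def ActX (O : Module.End ℂ (St × St → ℂ)) (κ C D : ℂ) : Prop :=
  ∀ g p0 p1 p2 p3 r0 r1 r2 r3, O g (F p0 p1 p2 p3, F r0 r1 r2 r3) = κ *
    ((if p0 = true ∧ p1 = false then
      C * q ^ (bit r0 - bit r1) * g (F p1 p0 p2 p3, F r0 r1 r2 r3) else 0)
    + (if r0 = true ∧ r1 = false then D * g (F p0 p1 p2 p3, F r1 r0 r2 r3) else 0))

/-- an operator acting as a generator on the middle sites -/
def ActY (O : Module.End ℂ (St × St → ℂ)) (κ C D : ℂ) : Prop :=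
  ∀ g p0 p1 p2 p3 r0 r1 r2 r3, O g (F p0 p1 p2 p3, F r0 r1 r2 r3) = κ *
    ((if p1 = true ∧ p2 = false then
      C * q ^ (bit r1 - bit r2) * g (F p0 p2 p1 p3, F r0 r1 r2 r3) else 0)
    + (if r1 = true ∧ r2 = false then D * g (F p0 p1 p2 p3, F r0 r2 r1 r3) else 0))

/-- an operator acting as a generator on the last two sites -/
def ActZ (O : Module.End ℂ (St × St → ℂ)) (κ C D : ℂ) : Prop :=
  ∀ g p0 p1 p2 p3 r0 r1 r2 r3, O g (F p0 p1 p2 p3, F r0 r1 r2 r3) = κ *
    ((if p2 = true ∧ p3 = false then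
      C * q ^ (bit r2 - bit r3) * g (F p0 p1 p3 p2, F r0 r1 r2 r3) else 0)
    + (if r2 = true ∧ r3 = false then D * g (F p0 p1 p2 p3, F r0 r1 r3 r2) else 0))

/-- injectivity of the parametrization of states -/
def InjF : Prop := ∀ p0 p1 p2 p3 r0 r1 r2 r3, F p0 p1 p2 p3 = F r0 r1 r2 r3 ↔
  (p0 = r0 ∧ p1 = r1 ∧ p2 = r2 ∧ p3 = r3)

open Classical in
/-- indicator of a pair of states -/
noncomputable def ind (P Q : St) : St × St → ℂ := fun s => if s.1 = P ∧ s.2 = Q then 1 else 0

variable {F} {OX OY OZ : Module.End ℂ (St × St → ℂ)} {kx ky kz cx cy cz dx dy dz : ℂ}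

include hq in
theorem case_i (hF : InjF F) (hX : ActX (q := q) F OX kx cx dx) (hY : ActY (q := q) F OY ky cy dy)
    (hZ : ActZ (q := q) F OZ kz cz dz) :
    qb q (qb q OY OX) OZ (ind (F false true false true) (F false false true false))
      (F true false true false, F false true false false) =
      (kx * ky * kz) * (cx * dy * cz) * (q - 2 * q⁻¹ + q⁻¹ * q⁻¹ * q⁻¹) := by
  unfold ActX at hX
  unfold ActY at hY
  unfold ActZ at hZ
  unfold InjF at hF
  simp [qb, hX, hY, hZ, ind, hF, bit]
  field_simp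
  ring

include hq in
theorem case_ii (hF : InjF F) (hX : ActX (q := q) F OX kx cx dx) (hY : ActY (q := q) F OY ky cy dy)
    (hZ : ActZ (q := q) F OZ kz cz dz) (s p : Bool) :
    qb q OZ (if s then qb q OX OY else qb q OY OX)
      (ind (F false p true false) (F false false false true))
      (F true p false false, F false false true false) =
      (kx * ky * kz) * (cx * cy * dz) * (if s = p then -q⁻¹ * (1 - q⁻¹ * q⁻¹) else
        (1 - q⁻¹ * q⁻¹)) := by
  unfold ActX at hX
  unfold ActY at hY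
  unfold ActZ at hZ
  unfold InjF at hF
  cases s <;> cases p <;> simp [qb, hX, hY, hZ, ind, hF, bit]
  all_goals field_simp
  all_goals ring

include hq in
theorem case_iii (hF : InjF F) (hX : ActX (q := q) F OX kx cx dx)
    (hY : ActY (q := q) F OY ky cy dy) (hZ : ActZ (q := q) F OZ kz cz dz) (s p : Bool) :
    (if s then qb q (qb q OX OY) OZ else qb q OZ (qb q OX OY))
      (ind (F false false p true) (F false true false false))
      (F false true p false, F true false false false) =
      (kx * ky * kz) * (dx * cy * cz) * (q * (if s = p then -q⁻¹ * (1 - q⁻¹ * q⁻¹) else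
        (1 - q⁻¹ * q⁻¹))) := by
  unfold ActX at hX
  unfold ActY at hY
  unfold ActZ at hZ
  unfold InjF at hF
  cases s <;> cases p <;> simp [qb, hX, hY, hZ, ind, hF, bit]
  all_goals field_simp
  all_goals ring

end

end Pool.Agent.H387.QT
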