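import Pool.Agent.H387.QT.Crit3

/-!
# The isomorphism `U_{q⁻¹}^{cop} ≅ U_q`
-/

open scoped TensorProduct

namespace Pool.Agent.H387.QT

section

variable {n : ℕ} {A : Type*} [Ring A] [Algebra ℂ A] {q : ℂ} {e f k l : Fin n → A}

theorem serre_twist {p α β : ℂ} {x y u v : A} (hs : Serre p x y) (h1 : u * x = α • (x * u))
    (h2 : u * y = β • (y * u)) (h3 : v * x = β • (x * v)) (huv : u * v = v * u) :
    Serre p (x * u) (y * v) := by
  unfold Serre at *
  have h1' : ∀ t, u * (x * t) = α • (x * (u * t)) := fun t => by
    rw [← mul_assoc, h1, smul_mul_assoc, mul_assoc]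
  have h2' : ∀ t, u * (y * t) = β • (y * (u * t)) := fun t => by
    rw [← mul_assoc, h2, smul_mul_assoc, mul_assoc]
  have h3' : ∀ t, v * (x * t) = β • (x * (v * t)) := fun t => by
    rw [← mul_assoc, h3, smul_mul_assoc, mul_assoc]
  have huv' : ∀ t, v * (u * t) = u * (v * t) := fun t => by
    rw [← mul_assoc, ← huv, mul_assoc]
  have huv2 : v * u = u * v := huv.symm
  have key : x * u * (x * u) * (y * v) - (p + p⁻¹) • (x * u * (y * v) * (x * u))
      + y * v * (x * u) * (x * u) = (α * β * β) • ((x * x * y - (p + p⁻¹) • (x * y * x)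
        + y * x * x) * (u * u * v)) := by
    simp only [mul_assoc, h1', h2', h3', huv', huv2, mul_smul_comm, smul_mul_assoc, add_mul,
      sub_mul, smul_add, smul_sub, smul_smul]
    match_scalars <;> ring
  rw [key, hs, zero_mul, smul_zero]

theorem serre_smul {p c c' : ℂ} {x y : A} (hs : Serre p x y) : Serre p (c • x) (c' • y) := by
  unfold Serre at *
  have key : c • x * c • x * c' • y - (p + p⁻¹) • (c • x * c' • y * c • x)
      + c' • y * c • x * c • x = (c * c * c') • (x * x * y - (p + p⁻¹) • (x * y * x)
        + y * x * x) := by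
    simp only [mul_smul_comm, smul_mul_assoc, smul_add, smul_sub, smul_smul]
    match_scalars <;> ring
  rw [key, hs, smul_zero]

theorem IsRep.flip (hq : q ≠ 0) (h : IsRep q e f k l) :
    IsRep q⁻¹ (fun i => e i * l i) (fun i => k i * f i) l k where
  kl := h.lk
  lk := h.kl
  kk := h.ll
  ke i j := by
    rw [← mul_assoc, h.wt_l hq (h.wt_e j) i, smul_mul_assoc, mul_assoc, h.ll, ← mul_assoc,
      inv_zpow, zpow_neg]
  kf i j := by
    rw [← mul_assoc, ← h.kl_comm, mul_assoc, h.wt_l hq (h.wt_f j) i, mul_smul_comm, ← mul_assoc,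
      neg_neg, inv_zpow, zpow_neg, inv_inv]
  ef i j := by
    have e1 : e i * l i * (k j * f j) = k j * f j * (e i * l i) + (if i = j then
        (q - q⁻¹)⁻¹ • (k i - l i) else 0) := by
      by_cases hij : i = j
      · subst hij
        rw [if_pos rfl]
        have h1 : e i * l i * (k i * f i) = e i * f i := by
          rw [mul_assoc, ← mul_assoc (l i), h.lk, one_mul]
        have h2 : k i * f i * (e i * l i) = f i * e i := by
          have := ((h.wt_f i).mul hq (h.wt_e i)) i
          simp only [Pi.add_apply, neg_add_cancel, zpow_zero, one_smul] at this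
          rw [mul_assoc, ← mul_assoc (f i), ← mul_assoc, this, mul_assoc, h.kl, mul_one]
        have h3 := h.ef i i
        rw [if_pos rfl] at h3
        rw [h1, h2, ← h3]
        abel
      · rw [if_neg hij, add_zero]
        have h1 : l i * (k j * f j) = q ^ cartan i j • (k j * f j * l i) := by
          rw [← mul_assoc, ← h.kl_comm, mul_assoc, h.wt_l hq (h.wt_f j) i, mul_smul_comm, neg_neg,
            mul_assoc]
        have h2 : k j * f j * (e i * l i) = q ^ cartan j i • (e i * (k j * f j * l i)) := by
          rw [mul_assoc (k j), ← mul_assoc (f j), ← h.e_comm_f hij, mul_assoc (e i),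
            ← mul_assoc (k j), h.ke, smul_mul_assoc]
          simp only [mul_assoc]
        rw [mul_assoc, h1, h2, mul_smul_comm, cartan_comm]
    rw [e1, add_sub_cancel_left]
    split_ifs
    · have : (q⁻¹ - q⁻¹⁻¹)⁻¹ = -(q - q⁻¹)⁻¹ := by
        rw [inv_inv, ← neg_sub q q⁻¹, inv_neg]
      rw [this, neg_smul, ← smul_neg, neg_sub]
    · rfl
  ee i j hc := by
    have h1 : l i * e j = e j * l i := by
      rw [h.wt_l hq (h.wt_e j), hc]; simp
    have h2 : l j * e i = e i * l j := by
      rw [h.wt_l hq (h.wt_e i), cartan_comm, hc]; simp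
    calc e i * l i * (e j * l j) = e i * (l i * e j) * l j := by simp only [mul_assoc]
      _ = (e i * e j) * (l i * l j) := by rw [h1]; simp only [mul_assoc]
      _ = (e j * e i) * (l j * l i) := by rw [h.ee i j hc, h.ll]
      _ = e j * (e i * l j) * l i := by simp only [mul_assoc]
      _ = e j * l j * (e i * l i) := by rw [← h2]; simp only [mul_assoc]
  ff i j hc := by
    have h1 : k j * f i = f i * k j := h.k_comm_f (by rw [cartan_comm]; exact hc)
    have h2 : k i * f j = f j * k i := h.k_comm_f hc
    calc k i * f i * (k j * f j) = k i * (f i * k j) * f j := by simp only [mul_assoc]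
      _ = (k i * k j) * (f i * f j) := by rw [← h1]; simp only [mul_assoc]
      _ = (k j * k i) * (f j * f i) := by rw [h.ff i j hc, h.kk]
      _ = k j * (k i * f j) * f i := by simp only [mul_assoc]
      _ = k j * f j * (k i * f i) := by rw [h2]; simp only [mul_assoc]
  se i j hc := by
    have hc' : cartan j i = -1 := by rw [cartan_comm]; exact hc
    exact serre_twist (h.se i j hc).inv (h.l_e_self hq i) (h.l_e_adj hq hc) (h.l_e_adj hq hc')
      (h.ll i j)
  sf i j hc := by
    have hc' : cartan j i = -1 := by rw [cartan_comm]; exact hc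
    have h1 := serre_twist (h.sf i j hc).inv (h.k_f_self i) (h.k_f_adj hc) (h.k_f_adj hc')
      (h.kk i j)
    rw [h.k_f_self i, h.k_f_self j]
    exact serre_smul h1

end

namespace Uq

variable {n : ℕ} {p q : ℂ}

/-- The algebra isomorphism `U_{q⁻¹} → U_q`, `E ↦ E K⁻¹`, `F ↦ K F`, `K ↦ K⁻¹`. -/
noncomputable def theta (n : ℕ) (hq : NRU q) (hpq : p = q⁻¹) : Uq n p →ₐ[ℂ] Uq n q :=
  lift (q := p) (e := fun i => E q i * L q i) (f := fun i => K q i * F q i) (k := L q) (l := K q)
    (by rw [hpq]; exact (isRep n q).flip hq.ne)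

variable (hq : NRU q) (hpq : p = q⁻¹)

theorem theta_E (i : Fin n) : theta n hq hpq (E p i) = E q i * L q i := lift_E _ i
theorem theta_F (i : Fin n) : theta n hq hpq (F p i) = K q i * F q i := lift_F _ i
theorem theta_K (i : Fin n) : theta n hq hpq (K p i) = L q i := lift_K _ i
theorem theta_L (i : Fin n) : theta n hq hpq (L p i) = K q i := lift_L _ i

theorem theta_theta (hp : NRU p) (hqp : q = p⁻¹) (x : Uq n p) :
    theta n hp hqp (theta n hq hpq x) = x := by
  have : (theta n hp hqp).comp (theta n hq hpq) = AlgHom.id ℂ _ := by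
    apply hom_ext
    · intro i
      rw [AlgHom.comp_apply, theta_E, map_mul, theta_E, theta_L, mul_assoc, (isRep n p).lk,
        mul_one, AlgHom.id_apply]
    · intro i
      rw [AlgHom.comp_apply, theta_F, map_mul, theta_F, theta_K, ← mul_assoc, (isRep n p).lk,
        one_mul, AlgHom.id_apply]
    · intro i
      rw [AlgHom.comp_apply, theta_K, theta_L, AlgHom.id_apply]
    · intro i
      rw [AlgHom.comp_apply, theta_L, theta_K, AlgHom.id_apply]
  exact DFunLike.congr_fun this x

theorem theta_comul (hp : NRU p) (x : Uq n p) :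
    comul n hq (theta n hq hpq x) = Algebra.TensorProduct.comm ℂ _ _
      (Algebra.TensorProduct.map (theta n hq hpq) (theta n hq hpq) (comul n hp x)) := by
  have : (comul n hq).comp (theta n hq hpq) =
      ((Algebra.TensorProduct.comm ℂ (Uq n q) (Uq n q)).toAlgHom.comp
        (Algebra.TensorProduct.map (theta n hq hpq) (theta n hq hpq))).comp (comul n hp) := by
    apply hom_ext
    · intro i
      simp only [AlgHom.comp_apply, theta_E, comul_E, map_mul, comul_L, map_add,
        Algebra.TensorProduct.map_tmul, theta_K, map_one]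
      change _ = (Algebra.TensorProduct.comm ℂ (Uq n q) (Uq n q)) _
        + (Algebra.TensorProduct.comm ℂ (Uq n q) (Uq n q)) _
      rw [Algebra.TensorProduct.comm_tmul, Algebra.TensorProduct.comm_tmul, add_mul,
        Algebra.TensorProduct.tmul_mul_tmul, Algebra.TensorProduct.tmul_mul_tmul, one_mul,
        (isRep n q).kl, add_comm]
    · intro i
      simp only [AlgHom.comp_apply, theta_F, comul_F, map_mul, comul_K, map_add,
        Algebra.TensorProduct.map_tmul, theta_L, map_one]
      change _ = (Algebra.TensorProduct.comm ℂ (Uq n q) (Uq n q)) _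
        + (Algebra.TensorProduct.comm ℂ (Uq n q) (Uq n q)) _
      rw [Algebra.TensorProduct.comm_tmul, Algebra.TensorProduct.comm_tmul, mul_add,
        Algebra.TensorProduct.tmul_mul_tmul, Algebra.TensorProduct.tmul_mul_tmul, mul_one,
        (isRep n q).kl, add_comm]
    · intro i
      simp only [AlgHom.comp_apply, theta_K, comul_K, comul_L, Algebra.TensorProduct.map_tmul]
      rfl
    · intro i
      simp only [AlgHom.comp_apply, theta_L, comul_K, comul_L, Algebra.TensorProduct.map_tmul]
      rfl
  exact DFunLike.congr_fun this x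

theorem theta_counit (x : Uq n p) : counit n q (theta n hq hpq x) = counit n p x := by
  have : (counit n q).comp (theta n hq hpq) = counit n p := by
    apply hom_ext
    · intro i; rw [AlgHom.comp_apply, theta_E, map_mul, counit_E, counit_E, zero_mul]
    · intro i; rw [AlgHom.comp_apply, theta_F, map_mul, counit_F, counit_F, mul_zero]
    · intro i; rw [AlgHom.comp_apply, theta_K, counit_L, counit_K]
    · intro i; rw [AlgHom.comp_apply, theta_L, counit_L, counit_K]
  exact DFunLike.congr_fun this x

end Uq

end Pool.Agent.H387.QT
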