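import Pool.Agent.H387.QT.RootVec

/-!
# Reduced words of the longest element: crossings
-/

namespace Pool.Agent.H387.QT

variable {n : ℕ}

theorem permN_append (u v : List (Fin n)) : permN (u ++ v) = permN u * permN v := by
  simp [permN]

theorem permN_le (u : List (Fin n)) {x : ℕ} (hx : x ≤ n) : permN u x ≤ n := by
  induction u with
  | nil => simpa [permN] using hx
  | cons j u ih =>
    rw [permN_cons_apply]
    have := j.2
    rw [Equiv.swap_apply_def]
    split_ifs <;> omega

theorem permN_inv_le (u : List (Fin n)) {x : ℕ} (hx : x ≤ n) : (permN u)⁻¹ x ≤ n := by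
  by_contra h
  have h1 : ∀ (u : List (Fin n)) (y : ℕ), n < y → permN u y = y := by
    intro u y hy
    induction u with
    | nil => simp [permN]
    | cons j u ih =>
      rw [permN_cons_apply, ih]
      have := j.2
      exact Equiv.swap_apply_of_ne_of_ne (by omega) (by omega)
  have h2 := h1 u _ (by omega : n < (permN u)⁻¹ x)
  rw [← h2] at h
  simp at h
  omega

theorem swap_lt {j x y : ℕ} (hxy : ¬ (x = j ∧ y = j + 1)) (hyx : ¬ (y = j ∧ x = j + 1)) :
    Equiv.swap j (j + 1) x < Equiv.swap j (j + 1) y ↔ x < y := by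
  rw [Equiv.swap_apply_def, Equiv.swap_apply_def]
  split_ifs <;> omega

/-- The lines crossing at time `k` are `a` (on the left) and `b` (on the right). -/
def crs (w : List (Fin n)) (k a b : ℕ) : Prop :=
  ∃ h : k < w.length, permN (w.take k) (w[k] : ℕ) = a ∧ permN (w.take k) ((w[k] : ℕ) + 1) = b

/-- `w` is a reduced decomposition of the longest element. -/
structure W0 (w : List (Fin n)) : Prop where
  len : w.length = n * (n + 1) / 2
  rev : ∀ z ≤ n, permN w z = n - z

theorem take_succ_perm (w : List (Fin n)) {k : ℕ} (h : k < w.length) :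
    permN (w.take (k + 1)) = permN (w.take k) * Equiv.swap (w[k] : ℕ) (w[k] + 1) := by
  rw [List.take_succ_eq_append_getElem h, permN_append]
  simp [permN]

/-- relative order of two lines at time `k` -/
def bef (w : List (Fin n)) (k a b : ℕ) : Prop := (permN (w.take k))⁻¹ a < (permN (w.take k))⁻¹ b

theorem crs.inv_left {w : List (Fin n)} {k a b : ℕ} (h : crs w k a b) :
    (permN (w.take k))⁻¹ a = w[k]'h.1 := by
  obtain ⟨h0, rfl, rfl⟩ := h
  simp

theorem crs.inv_right {w : List (Fin n)} {k a b : ℕ} (h : crs w k a b) :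
    (permN (w.take k))⁻¹ b = w[k]'h.1 + 1 := by
  obtain ⟨h0, rfl, rfl⟩ := h
  simp

theorem bef_step {w : List (Fin n)} {k : ℕ} (h : k < w.length) {a b : ℕ}
    (h1 : ¬ crs w k a b) (h2 : ¬ crs w k b a) : bef w (k + 1) a b ↔ bef w k a b := by
  unfold bef
  rw [take_succ_perm w h, mul_inv_rev, Equiv.swap_inv, Equiv.Perm.mul_apply, Equiv.Perm.mul_apply]
  apply swap_lt
  · rintro ⟨e1, e2⟩
    apply h1
    refine ⟨h, ?_, ?_⟩
    · rw [← e1]; simp
    · rw [← e2]; simp
  · rintro ⟨e1, e2⟩
    apply h2
    refine ⟨h, ?_, ?_⟩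
    · rw [← e1]; simp
    · rw [← e2]; simp

theorem crs.bef {w : List (Fin n)} {k a b : ℕ} (h : crs w k a b) : bef w k a b := by
  unfold QT.bef
  rw [h.inv_left, h.inv_right]
  omega

theorem crs.not_bef {w : List (Fin n)} {k a b : ℕ} (h : crs w k a b) : ¬ QT.bef w (k + 1) a b := by
  unfold QT.bef
  rw [take_succ_perm w h.1, mul_inv_rev, Equiv.swap_inv, Equiv.Perm.mul_apply,
    Equiv.Perm.mul_apply, h.inv_left, h.inv_right, Equiv.swap_apply_left, Equiv.swap_apply_right]
  omega

namespace W0

variable {w : List (Fin n)} (hw : W0 w)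
include hw

theorem exists_crs {a b : ℕ} (hab : a < b) (hb : b ≤ n) : ∃ k, crs w k a b := by
  by_contra hno
  push Not at hno
  -- there is a first time where the order has changed
  have h0 : bef w 0 a b := by
    unfold bef; simpa [permN] using hab
  have hN : ¬ bef w w.length a b := by
    unfold bef
    rw [List.take_length]
    have e1 : (permN w)⁻¹ a = n - a := by
      rw [Equiv.Perm.inv_eq_iff_eq, hw.rev _ (by omega)]; omega
    have e2 : (permN w)⁻¹ b = n - b := by
      rw [Equiv.Perm.inv_eq_iff_eq, hw.rev _ (by omega)]; omega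
    rw [e1, e2]; omega
  have key : ∀ k, k ≤ w.length → bef w k a b := by
    intro k
    induction k with
    | zero => intro _; exact h0
    | succ k ih =>
      intro hk
      have hb1 := ih (by omega)
      by_contra hb2
      have hk' : k < w.length := by omega
      unfold bef at hb1 hb2
      rw [take_succ_perm w hk', mul_inv_rev, Equiv.swap_inv, Equiv.Perm.mul_apply,
        Equiv.Perm.mul_apply] at hb2
      by_cases hc : (permN (w.take k))⁻¹ a = w[k] ∧ (permN (w.take k))⁻¹ b = w[k] + 1
      · exact hno k ⟨hk', by rw [← hc.1]; simp, by rw [← hc.2]; simp⟩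
      · rw [swap_lt hc (by omega)] at hb2
        exact hb2 hb1
  exact hN (key _ le_rfl)

theorem pairs : (∀ k a b, crs w k a b → a < b ∧ b ≤ n) ∧
    (∀ k k' a b, crs w k a b → crs w k' a b → k = k') := by
  classical
  have hex : ∀ x : (Σ b : Fin (n + 1), Fin b), ∃ k, crs w k x.2 x.1 := fun x =>
    hw.exists_crs x.2.2 (by have := x.1.2; omega)
  choose g hg using hex
  let G : (Σ b : Fin (n + 1), Fin b) → Fin w.length := fun x => ⟨g x, (hg x).1⟩
  have hinj : Function.Injective G := by
    intro x y hxy
    have e : g x = g y := by simpa [G] using hxy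
    obtain ⟨_, x1, x2⟩ := hg x
    obtain ⟨_, y1, y2⟩ := hg y
    have f1 : (x.2 : ℕ) = y.2 := by
      rw [← x1, ← y1]; simp only [e]
    have f2 : (x.1 : ℕ) = y.1 := by
      rw [← x2, ← y2]; simp only [e]
    obtain ⟨b, a⟩ := x
    obtain ⟨b', a'⟩ := y
    obtain rfl : b = b' := Fin.ext f2
    obtain rfl : a = a' := Fin.ext f1
    rfl
  have hcard : Fintype.card (Σ b : Fin (n + 1), Fin b) = Fintype.card (Fin w.length) := by
    rw [Fintype.card_sigma, Fintype.card_fin, hw.len]
    simp only [Fintype.card_fin]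
    rw [Fin.sum_univ_eq_sum_range (fun i => i) (n + 1), Finset.sum_range_id, Nat.add_sub_cancel,
      mul_comm]
  have hsurj : Function.Surjective G := ((Fintype.bijective_iff_injective_and_card G).mpr
    ⟨hinj, hcard⟩).2
  have key : ∀ k a b, crs w k a b → ∃ x : (Σ b : Fin (n + 1), Fin b), g x = k ∧ (x.2 : ℕ) = a ∧
      (x.1 : ℕ) = b := by
    intro k a b hk
    obtain ⟨x, hx⟩ := hsurj ⟨k, hk.1⟩
    have e : g x = k := by simpa [G] using congrArg Fin.val hx
    refine ⟨x, e, ?_, ?_⟩
    · obtain ⟨_, x1, _⟩ := hg x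
      obtain ⟨_, y1, _⟩ := hk
      rw [← x1, ← y1]; simp only [e]
    · obtain ⟨_, _, x1⟩ := hg x
      obtain ⟨_, _, y1⟩ := hk
      rw [← x1, ← y1]; simp only [e]
  constructor
  · intro k a b hk
    obtain ⟨x, _, e1, e2⟩ := key k a b hk
    have h1 := x.2.2
    have h2 := x.1.2
    omega
  · intro k k' a b hk hk'
    obtain ⟨x, e0, e1, e2⟩ := key k a b hk
    obtain ⟨y, f0, f1, f2⟩ := key k' a b hk'
    have : x = y := by
      obtain ⟨b, a⟩ := x
      obtain ⟨b', a'⟩ := y
      obtain rfl : b = b' := Fin.ext (by simp only at e2 f2; omega)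
      obtain rfl : a = a' := Fin.ext (by simp only at e1 f1; omega)
      rfl
    rw [← e0, ← f0, this]

theorem crs_lt {k a b : ℕ} (h : crs w k a b) : a < b := (hw.pairs.1 k a b h).1
theorem crs_le {k a b : ℕ} (h : crs w k a b) : b ≤ n := (hw.pairs.1 k a b h).2
theorem crs_unique {k k' a b : ℕ} (h : crs w k a b) (h' : crs w k' a b) : k = k' :=
  hw.pairs.2 k k' a b h h'

/-- the order of the lines `a < b` at time `k` is determined by the time of their crossing -/
theorem bef_iff {t a b : ℕ} (ht : crs w t a b) {k : ℕ} (hk : k ≤ w.length) :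
    bef w k a b ↔ k ≤ t := by
  have hab := hw.crs_lt ht
  have h0 : bef w 0 a b := by
    unfold bef; simpa [permN] using hab
  induction k with
  | zero => exact ⟨fun _ => Nat.zero_le _, fun _ => h0⟩
  | succ k ih =>
    have ih' : bef w k a b ↔ k ≤ t := ih (by omega)
    by_cases hkt : k = t
    · subst hkt
      constructor
      · intro h; exact (ht.not_bef h).elim
      · intro h; omega
    · have hst : bef w (k + 1) a b ↔ bef w k a b :=
        bef_step (by omega) (fun h => hkt (hw.crs_unique h ht)) (fun h => by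
          have := hw.crs_lt h
          omega)
      rw [hst, ih']
      omega

theorem ok_take (k : ℕ) (hk : k ≤ w.length) : Ok (w.take k) := by
  have gen : ∀ u : List (Fin n), (∀ x j u', u = x ++ j :: u' →
      (permN u')⁻¹ j < (permN u')⁻¹ (j + 1)) → Ok u := by
    intro u
    induction u with
    | nil => intro _; trivial
    | cons i u ih =>
      intro h
      refine ⟨ih fun x j u' e => h (i :: x) j u' (by rw [e]; rfl), h [] i u rfl⟩
  apply gen
  intro x j u' e
  have hx : x.length < k := by
    have := congrArg List.length e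
    simp at this
    omega
  have hxw : x.length < w.length := by omega
  have ex : x = w.take x.length := by
    have h1 : (w.take k).take x.length = x := by rw [e]; simp
    rw [List.take_take, min_eq_left hx.le] at h1
    exact h1.symm
  have ej : w[x.length] = j := by
    have h1 : (w.take k)[x.length]'(by simp; omega) = j := by
      simp only [e]
      rw [List.getElem_append_right (le_refl _)]
      simp
    rw [← h1, List.getElem_take]
  have hP : permN (w.take k) = permN (w.take x.length) * (Equiv.swap (j : ℕ) (j + 1) * permN u') := by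
    rw [e, permN_append, permN_cons, ← ex]
  set r := x.length with hr
  have hc : crs w r (permN (w.take r) j) (permN (w.take r) (j + 1)) :=
    ⟨hxw, by rw [ej], by rw [ej]⟩
  have hnb : ¬ bef w k (permN (w.take r) j) (permN (w.take r) (j + 1)) := by
    rw [hw.bef_iff hc hk]; omega
  have e1 : (permN (w.take k))⁻¹ (permN (w.take r) j) = (permN u')⁻¹ (j + 1) := by
    rw [hP]; simp
  have e2 : (permN (w.take k))⁻¹ (permN (w.take r) (j + 1)) = (permN u')⁻¹ j := by
    rw [hP]; simp
  unfold bef at hnb
  rw [e1, e2] at hnb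
  have hne : (permN u')⁻¹ (j : ℕ) ≠ (permN u')⁻¹ ((j : ℕ) + 1) := fun h => by
    have := (permN u')⁻¹.injective h
    omega
  omega

end W0

open Classical in
/-- the sign of the triple `a < b < c`: `true` when `a, b` cross before `b, c` -/
noncomputable def sgn (w : List (Fin n)) (a b c : ℕ) : Bool :=
  decide (∃ j k, j < k ∧ crs w j a b ∧ crs w k b c)

theorem W0.sgn_iff {w : List (Fin n)} (hw : W0 w) {k a c z : ℕ} (h : crs w k a c) (h1 : a < z)
    (h2 : z < c) : sgn w a z c = decide ((permN (w.take k))⁻¹ z < w[k]'h.1) := by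
  classical
  have hk := h.1
  obtain ⟨t1, ht1⟩ := hw.exists_crs h1 (by have := hw.crs_le h; omega)
  obtain ⟨t2, ht2⟩ := hw.exists_crs h2 (hw.crs_le h)
  have b1 := hw.bef_iff ht1 hk.le
  have b2 := hw.bef_iff ht2 hk.le
  unfold bef at b1 b2
  rw [h.inv_left] at b1
  rw [h.inv_right] at b2
  have n1 : (permN (w.take k))⁻¹ z ≠ w[k]'h.1 := fun e => by
    rw [← h.inv_left] at e
    have := (permN (w.take k))⁻¹.injective e
    omega
  have n2 : (permN (w.take k))⁻¹ z ≠ w[k]'h.1 + 1 := fun e => by
    rw [← h.inv_right] at e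
    have := (permN (w.take k))⁻¹.injective e
    omega
  unfold sgn
  rw [decide_eq_decide]
  constructor
  · rintro ⟨j, j', hjj, c1, c2⟩
    rw [hw.crs_unique c1 ht1, hw.crs_unique c2 ht2] at hjj
    by_contra hlt
    have : (permN (w.take k))⁻¹ z > w[k]'h.1 + 1 := by omega
    have h3 := b1.mp (by omega)
    have h4 : ¬ k ≤ t2 := fun h' => by
      have := b2.mpr h'
      omega
    omega
  · intro hlt
    refine ⟨t1, t2, ?_, ht1, ht2⟩
    have h3 := b2.mp (by omega)
    have h4 : ¬ k ≤ t1 := fun h' => by
      have := b1.mpr h'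
      omega
    omega

end Pool.Agent.H387.QT
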